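import Pool.Agent.H93.GS.Defs

/-!
# Euler's sum `∑ z ^ n / (q)_n` for `z = q ^ (1 + m)`
-/

set_option autoImplicit false

namespace H93GS

open Finset Filter Topology

variable {q : ℂ}

theorem one_sub_pow_ne_zero (hq : ‖q‖ < 1) (j : ℕ) : 1 - q ^ (j + 1) ≠ 0 := by
  intro h
  have h1 : ‖q ^ (j + 1)‖ < 1 := by
    rw [norm_pow]
    exact pow_lt_one₀ (norm_nonneg _) hq (by omega)
  have h2 : q ^ (j + 1) = 1 := (sub_eq_zero.1 h).symm
  rw [h2, norm_one] at h1
  exact lt_irrefl _ h1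

theorem qp_ne_zero (hq : ‖q‖ < 1) (n : ℕ) : qp q n ≠ 0 :=
  Finset.prod_ne_zero_iff.2 fun j _ => one_sub_pow_ne_zero hq j

theorem qinf_ne_zero (hq : ‖q‖ < 1) : qinf q ≠ 0 := by
  unfold qinf
  refine tprod_one_add_ne_zero_of_summable (f := fun n : ℕ => -q ^ (n + 1)) ?_ ?_
  · intro j
    simpa [sub_eq_add_neg] using one_sub_pow_ne_zero hq j
  · simpa using (summable_nat_add_iff 1).mpr (summable_geometric_of_lt_one (norm_nonneg _) hq)

theorem qp_tendsto (hq : ‖q‖ < 1) : Tendsto (fun n => qp q n) atTop (𝓝 (qinf q)) :=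
  (ModularForm.multipliable_one_sub_pow hq).tendsto_prod_tprod_nat

/-- the finite products are bounded from below -/
theorem exists_lower (hq : ‖q‖ < 1) : ∃ c : ℝ, 0 < c ∧ ∀ n, c ≤ ‖qp q n‖ := by
  have h1 : Tendsto (fun n => ‖qp q n‖) atTop (𝓝 ‖qinf q‖) := (qp_tendsto hq).norm
  have h2 : 0 < ‖qinf q‖ := norm_pos_iff.2 (qinf_ne_zero hq)
  obtain ⟨N, hN⟩ := Filter.eventually_atTop.1 (h1.eventually (lt_mem_nhds (half_lt_self h2)))
  obtain ⟨c, hc, hcN⟩ : ∃ c : ℝ, 0 < c ∧ ∀ n < N, c ≤ ‖qp q n‖ := by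
    clear hN
    induction N with
    | zero => exact ⟨1, one_pos, fun n hn => absurd hn (Nat.not_lt_zero n)⟩
    | succ N ih =>
      obtain ⟨c, hc, h3⟩ := ih
      refine ⟨min c ‖qp q N‖, lt_min hc (norm_pos_iff.2 (qp_ne_zero hq N)), fun n hn => ?_⟩
      rcases Nat.lt_succ_iff_lt_or_eq.1 hn with h4 | h4
      · exact (min_le_left _ _).trans (h3 n h4)
      · rw [h4]
        exact min_le_right _ _
  refine ⟨min c (‖qinf q‖ / 2), lt_min hc (half_pos h2), fun n => ?_⟩
  rcases lt_or_ge n N with h3 | h3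
  · exact (min_le_left _ _).trans (hcN n h3)
  · exact (min_le_right _ _).trans (hN n h3).le

theorem zpow_summable (hq : ‖q‖ < 1) {z : ℂ} (hz : ‖z‖ < 1) :
    Summable fun n : ℕ => ‖z ^ n / qp q n‖ := by
  obtain ⟨c, hc, h1⟩ := exists_lower hq
  refine Summable.of_nonneg_of_le (fun _ => norm_nonneg _) (fun n => ?_)
    ((summable_geometric_of_lt_one (norm_nonneg z) hz).mul_left (1 / c))
  rw [norm_div, norm_pow, one_div, mul_comm, div_eq_mul_inv]
  gcongr
  exact h1 n

/-- the function `∑ z ^ n / (q)_n` -/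
noncomputable def eF (q z : ℂ) : ℂ := ∑' n : ℕ, z ^ n / qp q n

theorem eF_eq (hq : ‖q‖ < 1) {z : ℂ} (hz : ‖z‖ < 1) : eF q (q * z) = (1 - z) * eF q z := by
  have hqz : ‖q * z‖ < 1 := by
    rw [norm_mul]
    nlinarith [norm_nonneg q, norm_nonneg z]
  have hs := (zpow_summable hq hz).of_norm
  have hs' := (zpow_summable hq hqz).of_norm
  have h1 : eF q z - eF q (q * z) = z * eF q z := by
    unfold eF
    rw [← hs.tsum_sub hs', (hs.sub hs').tsum_eq_zero_add]
    simp only [pow_zero, sub_self, zero_add]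
    rw [← tsum_mul_left]
    refine tsum_congr fun n => ?_
    have h2 : qp q (n + 1) = qp q n * (1 - q ^ (n + 1)) := Finset.prod_range_succ _ _
    have h3 := one_sub_pow_ne_zero hq n
    have h4 := qp_ne_zero hq n
    rw [h2, mul_pow]
    field_simp
    ring
  linear_combination -h1

theorem pow_norm_lt_one (hq : ‖q‖ < 1) (m : ℕ) : ‖q ^ (1 + m)‖ < 1 := by
  rw [norm_pow]
  exact pow_lt_one₀ (norm_nonneg _) hq (by omega)


theorem eF_step (hq : ‖q‖ < 1) (m N : ℕ) :
    eF q (q ^ (1 + (m + N))) * qp q m = qp q (m + N) * eF q (q ^ (1 + m)) := by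
  induction N with
  | zero => simp [mul_comm]
  | succ N ih =>
    have h1 : q ^ (1 + (m + (N + 1))) = q * q ^ (1 + (m + N)) := by ring
    have h2 : qp q (m + (N + 1)) = qp q (m + N) * (1 - q ^ (m + N + 1)) :=
      Finset.prod_range_succ _ _
    rw [h1, eF_eq hq (pow_norm_lt_one hq _), h2]
    have h3 : q ^ (1 + (m + N)) = q ^ (m + N + 1) := by ring
    rw [h3] at ih ⊢
    linear_combination (1 - q ^ (m + N + 1)) * ih

theorem eF_tendsto (hq : ‖q‖ < 1) (m : ℕ) :
    Tendsto (fun N : ℕ => eF q (q ^ (1 + (m + N)))) atTop (𝓝 1) := by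
  have h0 : ∑' n : ℕ, (if n = 0 then (1 : ℂ) else 0) = 1 := by
    rw [tsum_ite_eq]
  rw [← h0]
  refine tendsto_tsum_of_dominated_convergence (zpow_summable hq hq) (fun n => ?_) ?_
  · rcases Nat.eq_zero_or_pos n with h1 | h1
    · subst h1
      simp [qp]
    · rw [if_neg (by omega)]
      have h2 : Tendsto (fun N : ℕ => (q ^ (1 + (m + N))) ^ n) atTop (𝓝 0) := by
        have h3 : Tendsto (fun N : ℕ => q ^ (1 + (m + N))) atTop (𝓝 0) := by
          have h4 : Tendsto (fun N : ℕ => 1 + (m + N)) atTop atTop :=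
            tendsto_atTop_mono (fun N => by simp only [id]; omega) tendsto_id
          exact (tendsto_pow_atTop_nhds_zero_of_norm_lt_one hq).comp h4
        simpa [zero_pow (by omega : n ≠ 0)] using h3.pow n
      simpa using h2.div_const (qp q n)
  · refine Eventually.of_forall fun N n => ?_
    rw [norm_div, norm_div, norm_pow, norm_pow, norm_pow]
    gcongr
    calc ‖q‖ ^ (1 + (m + N)) ≤ ‖q‖ ^ 1 :=
          pow_le_pow_of_le_one (norm_nonneg _) hq.le (by omega)
      _ = ‖q‖ := pow_one _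

/-- Euler's identity. -/
theorem euler (hq : ‖q‖ < 1) (m : ℕ) :
    ∑' n : ℕ, q ^ ((1 + m) * n) / qp q n = qp q m / qinf q := by
  have h1 : Tendsto (fun N : ℕ => eF q (q ^ (1 + (m + N))) * qp q m) atTop (𝓝 (1 * qp q m)) :=
    (eF_tendsto hq m).mul_const _
  have h2 : Tendsto (fun N : ℕ => qp q (m + N) * eF q (q ^ (1 + m))) atTop
      (𝓝 (qinf q * eF q (q ^ (1 + m)))) := by
    refine Tendsto.mul_const _ ((qp_tendsto hq).comp ?_)
    exact tendsto_atTop_mono (fun N => by simp only [id]; omega) tendsto_id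
  have h3 := tendsto_nhds_unique (h1.congr fun N => eF_step hq m N) h2
  rw [one_mul] at h3
  have h4 : ∑' n : ℕ, q ^ ((1 + m) * n) / qp q n = eF q (q ^ (1 + m)) := by
    unfold eF
    refine tsum_congr fun n => ?_
    rw [← pow_mul]
  rw [h4, h3, mul_div_cancel_left₀ _ (qinf_ne_zero hq)]

theorem euler_summable (hq : ‖q‖ < 1) (m : ℕ) :
    Summable fun n : ℕ => ‖q ^ ((1 + m) * n) / qp q n‖ := by
  refine (zpow_summable hq (pow_norm_lt_one hq m)).congr fun n => ?_
  rw [← pow_mul]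

end H93GS
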