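import Mathlib

/-!
# Sums over `ι → ℕ` of products
-/

set_option autoImplicit false

namespace H93GS

open Finset

/-- splitting off the first coordinate -/
def cE (n : ℕ) : ℕ × (Fin n → ℕ) ≃ (Fin (n + 1) → ℕ) where
  toFun p := Fin.cons p.1 p.2
  invFun x := (x 0, fun i => x i.succ)
  left_inv p := by simp
  right_inv x := by
    funext i
    refine Fin.cases ?_ (fun j => ?_) i <;> simp

theorem cE_zero {n : ℕ} (p : ℕ × (Fin n → ℕ)) : cE n p 0 = p.1 := rfl

theorem cE_succ {n : ℕ} (p : ℕ × (Fin n → ℕ)) (i : Fin n) : cE n p i.succ = p.2 i := rfl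

theorem fin_pi_aux : ∀ (n : ℕ) (f : Fin n → ℕ → ℂ), (∀ i, Summable fun k => ‖f i k‖) →
    (Summable fun x : Fin n → ℕ => ‖∏ i, f i (x i)‖) ∧
      ∑' x : Fin n → ℕ, ∏ i, f i (x i) = ∏ i, ∑' k, f i k := by
  intro n
  induction n with
  | zero =>
    intro f _
    refine ⟨Summable.of_finite, ?_⟩
    simp
  | succ n ih =>
    intro f hf
    obtain ⟨h1, h2⟩ := ih (fun i => f i.succ) fun i => hf i.succ
    have key : ∀ p : ℕ × (Fin n → ℕ), ∏ i, f i (cE n p i) =
        f 0 p.1 * ∏ i : Fin n, f i.succ (p.2 i) := by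
      intro p
      rw [Fin.prod_univ_succ, cE_zero]
      rfl
    have hs : Summable fun p : ℕ × (Fin n → ℕ) => ‖f 0 p.1 * ∏ i : Fin n, f i.succ (p.2 i)‖ := by
      have h3 := (hf 0).mul_of_nonneg h1 (fun _ => norm_nonneg _) (fun _ => norm_nonneg _)
      refine h3.congr fun p => ?_
      rw [norm_mul]
    constructor
    · rw [← (cE n).summable_iff]
      refine hs.congr fun p => ?_
      show _ = ‖∏ i, f i (cE n p i)‖
      rw [key]
    · rw [← (cE n).tsum_eq, Fin.prod_univ_succ]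
      simp_rw [key]
      rw [← h2, tsum_mul_tsum_of_summable_norm (hf 0) h1]

theorem pi_aux {ι : Type} [Fintype ι] (f : ι → ℕ → ℂ) (hf : ∀ i, Summable fun k => ‖f i k‖) :
    (Summable fun x : ι → ℕ => ‖∏ i, f i (x i)‖) ∧
      ∑' x : ι → ℕ, ∏ i, f i (x i) = ∏ i, ∑' k, f i k := by
  classical
  let e : ι ≃ Fin (Fintype.card ι) := Fintype.equivFin ι
  obtain ⟨h1, h2⟩ := fin_pi_aux (Fintype.card ι) (fun j => f (e.symm j)) fun j => hf (e.symm j)
  let E : (ι → ℕ) ≃ (Fin (Fintype.card ι) → ℕ) := e.arrowCongr (Equiv.refl ℕ)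
  have key : ∀ x : ι → ℕ, ∏ j, f (e.symm j) (E x j) = ∏ i, f i (x i) := fun x =>
    Fintype.prod_equiv e.symm _ _ fun j => rfl
  constructor
  · rw [← E.summable_iff] at h1
    refine h1.congr fun x => ?_
    simp only [Function.comp]
    rw [key]
  · rw [← E.tsum_eq] at h2
    simp_rw [key] at h2
    rw [h2]
    exact Fintype.prod_equiv e.symm _ _ fun j => rfl

theorem pi_summable {ι : Type} [Fintype ι] {f : ι → ℕ → ℂ}
    (hf : ∀ i, Summable fun k => ‖f i k‖) : Summable fun x : ι → ℕ => ‖∏ i, f i (x i)‖ :=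
  (pi_aux f hf).1

theorem pi_tsum {ι : Type} [Fintype ι] {f : ι → ℕ → ℂ}
    (hf : ∀ i, Summable fun k => ‖f i k‖) :
    ∑' x : ι → ℕ, ∏ i, f i (x i) = ∏ i, ∑' k, f i k := (pi_aux f hf).2

/-- The real version, for nonnegative terms. -/
theorem pi_real {ι : Type} [Fintype ι] {f : ι → ℕ → ℝ} (h0 : ∀ i k, 0 ≤ f i k)
    (hf : ∀ i, Summable (f i)) : Summable (fun x : ι → ℕ => ∏ i, f i (x i)) ∧
      ∑' x : ι → ℕ, ∏ i, f i (x i) = ∏ i, ∑' k, f i k := by
  have hn : ∀ i, Summable fun k => ‖((f i k : ℝ) : ℂ)‖ := fun i => by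
    refine (hf i).congr fun k => ?_
    rw [Complex.norm_real, Real.norm_of_nonneg (h0 i k)]
  obtain ⟨h1, h2⟩ := pi_aux (fun i k => ((f i k : ℝ) : ℂ)) hn
  constructor
  · refine h1.congr fun x => ?_
    rw [← Complex.ofReal_prod, Complex.norm_real,
      Real.norm_of_nonneg (Finset.prod_nonneg fun i _ => h0 i _)]
  · simp_rw [← Complex.ofReal_prod, ← Complex.ofReal_tsum] at h2
    rw [← Complex.ofReal_prod] at h2
    exact_mod_cast h2

end H93GS
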