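import Pool.Agent.H93.GS.Block
import Pool.Agent.H93.GS.PiSum
import Pool.Agent.H93.GS.Euler

/-!
# The reduced series near roots of unity
-/

set_option autoImplicit false

namespace H93GS

open Finset Filter Topology

theorem le_mm {A B : Type} [Fintype A] (adj : A → B → Prop) [∀ a s, Decidable (adj a s)]
    (n : A → ℕ) {a : A} {s : B} (h : adj a s) : n a ≤ mm adj n s := by
  unfold mm
  have h1 := Finset.single_le_sum (f := fun a => if adj a s then n a else 0)
    (fun _ _ => Nat.zero_le _) (Finset.mem_univ a)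
  simpa [h] using h1

theorem prod_extend {A B : Type} [Fintype A] [Fintype B] (b : A → B)
    (hb : Function.Injective b) (f : A → ℝ) :
    ∏ s, Function.extend b f (fun _ => 1) s = ∏ a, f a := by
  classical
  rw [← Finset.prod_subset (Finset.subset_univ (Finset.univ.image b)),
    Finset.prod_image fun x _ y _ h => hb h]
  · exact Finset.prod_congr rfl fun a _ => hb.extend_apply _ _ _
  · intro s _ hs
    rw [Function.extend_apply']
    rintro ⟨a, rfl⟩
    exact hs (Finset.mem_image_of_mem _ (Finset.mem_univ a))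

theorem prod_qp_le {A B : Type} [Fintype A] [Fintype B] (adj : A → B → Prop)
    [∀ a s, Decidable (adj a s)] (b : A → B) (hb : Function.Injective b)
    (hadj : ∀ a, adj a (b a)) {q : ℂ} {C : ℝ}
    (h : ∀ n m : ℕ, n ≤ m → ‖qp q m‖ ≤ C * ‖qp q n‖) (n : A → ℕ) :
    ∏ s, ‖qp q (mm adj n s)‖ ≤ C ^ Fintype.card B * ∏ a, ‖qp q (n a)‖ := by
  classical
  rw [← prod_extend b hb fun a => ‖qp q (n a)‖, ← Finset.card_univ, ← Finset.prod_const,
    ← Finset.prod_mul_distrib]
  refine Finset.prod_le_prod (fun _ _ => norm_nonneg _) fun s _ => ?_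
  by_cases h1 : ∃ a, b a = s
  · obtain ⟨a, rfl⟩ := h1
    rw [hb.extend_apply]
    exact h _ _ (le_mm adj n (hadj a))
  · rw [Function.extend_apply' _ _ _ h1]
    have h2 := h 0 (mm adj n s) (Nat.zero_le _)
    have h3 : ‖qp q 0‖ = 1 := by simp [qp]
    rwa [h3] at h2

theorem root_bound {A B : Type} [Fintype A] [Fintype B] (adj : A → B → Prop)
    [∀ a s, Decidable (adj a s)] (E : (A → ℕ) → ℕ) (b : A → B) (hb : Function.Injective b)
    (hadj : ∀ a, adj a (b a)) {k : ℕ} (hk : 0 < k) {ζ : ℂ} (hζ : ζ ^ k = 1) :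
    ∃ C : ℝ, ∀ t : ℝ, 0 < t → t ≤ 1 →
      ‖∑' n : A → ℕ, gt adj E (qz ζ t) n‖ ≤ C / t ^ Fintype.card A := by
  obtain ⟨C, hC1, hC⟩ := block hk hζ
  have hn : ‖ζ‖ = 1 := Complex.norm_eq_one_of_pow_eq_one hζ hk.ne'
  refine ⟨C ^ Fintype.card B * 2 ^ Fintype.card A, fun t ht ht1 => ?_⟩
  have hx0 : (0 : ℝ) < Real.exp (-t) := Real.exp_pos _
  have hx1 : Real.exp (-t) < 1 := Real.exp_lt_one_iff.2 (by linarith)
  have hq : ‖qz ζ t‖ < 1 := by rw [norm_qz hn]; exact hx1
  obtain ⟨h1, h2⟩ := pi_real (ι := A) (f := fun _ k => Real.exp (-t) ^ k)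
    (fun _ _ => by positivity) fun _ => summable_geometric_of_lt_one hx0.le hx1
  have h3 : HasSum (fun x : A → ℕ => C ^ Fintype.card B * ∏ i, Real.exp (-t) ^ x i)
      (C ^ Fintype.card B * ∏ _i : A, ∑' k : ℕ, Real.exp (-t) ^ k) := by
    rw [← h2]
    exact h1.hasSum.mul_left _
  refine (tsum_of_norm_bounded h3 fun n => ?_).trans ?_
  · unfold gt
    have h4 : 0 < ∏ a, ‖qp (qz ζ t) (n a)‖ :=
      Finset.prod_pos fun a _ => norm_pos_iff.2 (qp_ne_zero hq _)
    rw [norm_div, norm_mul, norm_prod, norm_prod, div_le_iff₀ h4, norm_pow, norm_qz hn]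
    have h5 := prod_qp_le adj b hb hadj (hC t ht ht1) n
    have h6 : Real.exp (-t) ^ (E n + ∑ a, n a) ≤ ∏ a, Real.exp (-t) ^ n a := by
      rw [Finset.prod_pow_eq_pow_sum]
      exact pow_le_pow_of_le_one hx0.le hx1.le (by omega)
    calc Real.exp (-t) ^ (E n + ∑ a, n a) * ∏ s, ‖qp (qz ζ t) (mm adj n s)‖
        ≤ (∏ a, Real.exp (-t) ^ n a) * (C ^ Fintype.card B * ∏ a, ‖qp (qz ζ t) (n a)‖) :=
          mul_le_mul h6 h5 (Finset.prod_nonneg fun _ _ => norm_nonneg _) (by positivity)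
      _ = C ^ Fintype.card B * (∏ a, Real.exp (-t) ^ n a) * ∏ a, ‖qp (qz ζ t) (n a)‖ := by ring
  · rw [Finset.prod_const, Finset.card_univ, tsum_geometric_of_lt_one hx0.le hx1, mul_div_assoc]
    have h7 := geo_half ht ht1
    rw [← div_pow]
    gcongr
    rw [inv_eq_one_div, div_le_div_iff₀ (by linarith) ht]
    linarith

end H93GS
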