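import Pool.Agent.H93.GS.Pen
import Pool.Agent.H93.GS.Root

/-!
# GS RealSer: elementary facts on the real reduced series (MP_b63d87_nt, helper93)

`gt adj E q n = q^(E n + ∑ n a) * ∏ s, qp q (mm adj n s) / ∏ a, qp q (n a)`, `0 < q < 1`.
All terms are positive; `gt ≤ q^(∑ n a) = ∏ q^(n a)` because
`∏ s, qp q (m s) ≤ ∏ s, Function.extend b (fun a => qp q (n a)) 1 s = ∏ a, qp q (n a)` (`prod_extend`,
`le_mm`, `qpr_anti`, `qpr_le_one`). Sums: `pi_real` in PiSum with `f _ k = q^k`. The term `n = 0` is `1`, so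
the sum is larger than one (there are other positive terms, `A` is nonempty).
-/

set_option autoImplicit false

namespace H93GS

open Finset

theorem gt_cast {A B : Type} [Fintype A] [Fintype B] (adj : A → B → Prop)
    [∀ a s, Decidable (adj a s)] (E : (A → ℕ) → ℕ) (q : ℝ) (n : A → ℕ) :
    ((gt adj E q n : ℝ) : ℂ) = gt adj E (q : ℂ) n := by
  unfold gt qp
  push_cast
  rfl

theorem gt_pos {A B : Type} [Fintype A] [Fintype B] (adj : A → B → Prop)
    [∀ a s, Decidable (adj a s)] (E : (A → ℕ) → ℕ) {q : ℝ} (h0 : 0 < q) (h1 : q < 1)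
    (n : A → ℕ) : 0 < gt adj E q n := by
  unfold gt
  have h2 : 0 < ∏ s, qp q (mm adj n s) := Finset.prod_pos fun s _ => qpr_pos h0 h1 _
  have h3 : 0 < ∏ a, qp q (n a) := Finset.prod_pos fun a _ => qpr_pos h0 h1 _
  positivity

theorem realser_le {A B : Type} [Fintype A] [Fintype B] (adj : A → B → Prop)
    [∀ a s, Decidable (adj a s)] (E : (A → ℕ) → ℕ) (b : A → B) (hb : Function.Injective b)
    (hadj : ∀ a, adj a (b a)) {q : ℝ} (h0 : 0 < q) (h1 : q < 1) (n : A → ℕ) :
    gt adj E q n ≤ ∏ a, q ^ n a := by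
  unfold gt
  have h3 : 0 < ∏ a, qp q (n a) := Finset.prod_pos fun a _ => qpr_pos h0 h1 _
  have h2 : ∏ s, qp q (mm adj n s) ≤ ∏ a, qp q (n a) := by
    rw [← prod_extend b hb fun a => qp q (n a)]
    refine Finset.prod_le_prod (fun s _ => (qpr_pos h0 h1 _).le) fun s _ => ?_
    by_cases hs : ∃ a, b a = s
    · obtain ⟨a, rfl⟩ := hs
      rw [hb.extend_apply]
      exact qpr_anti h0 h1 (le_mm adj n (hadj a))
    · rw [Function.extend_apply' _ _ _ hs]
      exact qpr_le_one h0 h1 _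
  rw [div_le_iff₀ h3]
  have h4 : q ^ (E n + ∑ a, n a) ≤ ∏ a, q ^ n a := by
    rw [Finset.prod_pow_eq_pow_sum]
    exact pow_le_pow_of_le_one h0.le h1.le (by omega)
  exact mul_le_mul h4 h2 (Finset.prod_nonneg fun s _ => (qpr_pos h0 h1 _).le)
    (Finset.prod_nonneg fun a _ => (pow_pos h0 _).le)

theorem realser_geo {A : Type} [Fintype A] {q : ℝ} (h0 : 0 < q) (h1 : q < 1) :
    Summable (fun x : A → ℕ => ∏ i, q ^ x i) ∧
      ∑' x : A → ℕ, ∏ i, q ^ x i = (1 - q)⁻¹ ^ Fintype.card A := by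
  obtain ⟨h2, h3⟩ := pi_real (ι := A) (f := fun _ k => q ^ k) (fun _ k => (pow_pos h0 k).le)
    fun _ => summable_geometric_of_lt_one h0.le h1
  refine ⟨h2, h3.trans ?_⟩
  rw [Finset.prod_const, Finset.card_univ, tsum_geometric_of_lt_one h0.le h1]

theorem gt_real_summable {A B : Type} [Fintype A] [Fintype B] (adj : A → B → Prop)
    [∀ a s, Decidable (adj a s)] (E : (A → ℕ) → ℕ) (b : A → B) (hb : Function.Injective b)
    (hadj : ∀ a, adj a (b a)) {q : ℝ} (h0 : 0 < q) (h1 : q < 1) :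
    Summable (fun n : A → ℕ => gt adj E q n) :=
  Summable.of_nonneg_of_le (fun n => (gt_pos adj E h0 h1 n).le)
    (fun n => realser_le adj E b hb hadj h0 h1 n) (realser_geo h0 h1).1

theorem gt_tsum_le {A B : Type} [Fintype A] [Fintype B] (adj : A → B → Prop)
    [∀ a s, Decidable (adj a s)] (E : (A → ℕ) → ℕ) (b : A → B) (hb : Function.Injective b)
    (hadj : ∀ a, adj a (b a)) {q : ℝ} (h0 : 0 < q) (h1 : q < 1) :
    ∑' n : A → ℕ, gt adj E q n ≤ (1 - q)⁻¹ ^ Fintype.card A := by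
  rw [← (realser_geo (A := A) h0 h1).2]
  exact (gt_real_summable adj E b hb hadj h0 h1).tsum_le_tsum
    (fun n => realser_le adj E b hb hadj h0 h1 n) (realser_geo h0 h1).1

theorem one_lt_gt_tsum {A B : Type} [Fintype A] [Fintype B] [Nonempty A] (adj : A → B → Prop)
    [∀ a s, Decidable (adj a s)] (E : (A → ℕ) → ℕ) (hE : E (fun _ => 0) = 0) (b : A → B)
    (hb : Function.Injective b) (hadj : ∀ a, adj a (b a)) {q : ℝ} (h0 : 0 < q) (h1 : q < 1) :
    1 < ∑' n : A → ℕ, gt adj E q n := by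
  classical
  have h2 : gt adj E q (fun _ => 0) = 1 := by
    unfold gt
    rw [hE]
    simp [qp, mm]
  have h3 := gt_pos adj E h0 h1 fun _ => 1
  have hne : (fun _ => 0 : A → ℕ) ≠ fun _ => 1 := by
    intro h
    have := congrFun h (Classical.arbitrary A)
    simp at this
  have h4 := (gt_real_summable adj E b hb hadj h0 h1).sum_le_tsum
    ({fun _ => 0, fun _ => 1} : Finset (A → ℕ)) fun n _ => (gt_pos adj E h0 h1 n).le
  rw [Finset.sum_pair hne, h2] at h4
  linarith

end H93GS
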