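import Mathlib

/-!
# GS Bip: bipartite graphs are Koenig-Egervary graphs (MP_b63d87_nt, helper93)

Let `S` be an independent set with the largest number of elements (`Finset.exists_max_image` over the
finite set of independent sets). Hall's condition (`Finset.all_card_le_biUnion_card_iff_exists_injective`
for the family `a ↦ S.filter (Γ.Adj a)`, `a ∉ S`): let `U` be a finite set of vertices outside `S`, split
into the two colour classes `U₀`, `U₁`. The neighbours of `U₀` in `S` have colour 1, those of `U₁` have colour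
0, so the two sets `N₀`, `N₁` of neighbours in `S` are disjoint. `(S \ N_i) ∪ U_i` is independent
(`U_i` is in one colour class), so `|U_i| ≤ |N_i|` by the maximality of `S`; add the two inequalities.
-/

set_option autoImplicit false

namespace H93GS

open Finset

/-- the inequality for one colour class -/
theorem bip_class {r : ℕ} (Γ : SimpleGraph (Fin r)) [DecidableRel Γ.Adj] {S : Finset (Fin r)}
    (hS : ∀ i ∈ S, ∀ j ∈ S, ¬ Γ.Adj i j)
    (hmax : ∀ T : Finset (Fin r), (∀ i ∈ T, ∀ j ∈ T, ¬ Γ.Adj i j) → T.card ≤ S.card)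
    {V : Finset (Fin r)} (hVS : ∀ a ∈ V, a ∉ S) (hV : ∀ i ∈ V, ∀ j ∈ V, ¬ Γ.Adj i j) :
    V.card ≤ (S.filter fun x => ∃ a ∈ V, Γ.Adj a x).card := by
  classical
  have h1 := hmax ((S.filter fun x => ¬ ∃ a ∈ V, Γ.Adj a x) ∪ V) (by
    intro i hi j hj hij
    rcases mem_union.1 hi with h2 | h2 <;> rcases mem_union.1 hj with h3 | h3
    · exact hS i (mem_filter.1 h2).1 j (mem_filter.1 h3).1 hij
    · exact (mem_filter.1 h2).2 ⟨j, h3, hij.symm⟩
    · exact (mem_filter.1 h3).2 ⟨i, h2, hij⟩
    · exact hV i h2 j h3 hij)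
  rw [card_union_of_disjoint] at h1
  · have h4 := card_filter_add_card_filter_not (s := S) (fun x => ∃ a ∈ V, Γ.Adj a x)
    omega
  · rw [disjoint_left]
    intro x hx hxV
    exact hVS x hxV (mem_filter.1 hx).1

theorem bip {r : ℕ} (Γ : SimpleGraph (Fin r)) (hΓ : Γ.Colorable 2) :
    ∃ (S : Finset (Fin r)) (b : Fin r → Fin r), (∀ i ∈ S, ∀ j ∈ S, ¬ Γ.Adj i j) ∧
      (∀ a, a ∉ S → b a ∈ S ∧ Γ.Adj a (b a)) ∧
      ∀ a a', a ∉ S → a' ∉ S → b a = b a' → a = a' := by
  classical
  obtain ⟨c⟩ := hΓ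
  obtain ⟨S, hS, hmax⟩ := exists_max_image
    ((univ : Finset (Finset (Fin r))).filter fun T => ∀ i ∈ T, ∀ j ∈ T, ¬ Γ.Adj i j) Finset.card
    ⟨∅, by simp⟩
  have hS' : ∀ i ∈ S, ∀ j ∈ S, ¬ Γ.Adj i j := (mem_filter.1 hS).2
  have hmax' : ∀ T : Finset (Fin r), (∀ i ∈ T, ∀ j ∈ T, ¬ Γ.Adj i j) → T.card ≤ S.card :=
    fun T hT => hmax T (mem_filter.2 ⟨mem_univ T, hT⟩)
  have hall : ∀ U : Finset {a : Fin r // a ∉ S},
      U.card ≤ (U.biUnion fun a => S.filter (Γ.Adj a.1)).card := by
    intro U
    have hsplit : U.card = ((U.map (Function.Embedding.subtype _)).filter fun a => c a = 0).card +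
        ((U.map (Function.Embedding.subtype _)).filter fun a => ¬ c a = 0).card := by
      rw [card_filter_add_card_filter_not, card_map]
    have hmem : ∀ a ∈ U.map (Function.Embedding.subtype _), a ∉ S := by
      intro a ha
      obtain ⟨x, -, rfl⟩ := mem_map.1 ha
      exact x.2
    have h0 := bip_class Γ hS' hmax' (V := (U.map (Function.Embedding.subtype _)).filter fun a => c a = 0)
      (fun a ha => hmem a (mem_filter.1 ha).1)
      (fun i hi j hj hij => c.valid hij ((mem_filter.1 hi).2.trans (mem_filter.1 hj).2.symm))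
    have h1 := bip_class Γ hS' hmax' (V := (U.map (Function.Embedding.subtype _)).filter fun a => ¬ c a = 0)
      (fun a ha => hmem a (mem_filter.1 ha).1)
      (fun i hi j hj hij => c.valid hij (by
        have h2 := (mem_filter.1 hi).2
        have h3 := (mem_filter.1 hj).2
        change c i = c j
        omega))
    have hdisj : Disjoint
        (S.filter fun x => ∃ a ∈ (U.map (Function.Embedding.subtype _)).filter (fun a => c a = 0), Γ.Adj a x)
        (S.filter fun x => ∃ a ∈ (U.map (Function.Embedding.subtype _)).filter (fun a => ¬ c a = 0), Γ.Adj a x) := by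
      rw [disjoint_left]
      intro x hx hx'
      obtain ⟨a, ha, hax⟩ := (mem_filter.1 hx).2
      obtain ⟨a', ha', hax'⟩ := (mem_filter.1 hx').2
      have h2 : c a = 0 := (mem_filter.1 ha).2
      have h3 : ¬ c a' = 0 := (mem_filter.1 ha').2
      have h4 := c.valid hax
      have h5 := c.valid hax'
      have h6 : c a ≠ c x := h4
      have h7 : c a' ≠ c x := h5
      omega
    rw [hsplit]
    refine (add_le_add h0 h1).trans ?_
    rw [← card_union_of_disjoint hdisj]
    refine card_le_card ?_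
    intro x hx
    rw [mem_union] at hx
    rw [mem_biUnion]
    rcases hx with hx | hx
    · obtain ⟨hxS, a, ha, hax⟩ := mem_filter.1 hx
      obtain ⟨y, hy, rfl⟩ := mem_map.1 (mem_filter.1 ha).1
      exact ⟨y, hy, mem_filter.2 ⟨hxS, hax⟩⟩
    · obtain ⟨hxS, a, ha, hax⟩ := mem_filter.1 hx
      obtain ⟨y, hy, rfl⟩ := mem_map.1 (mem_filter.1 ha).1
      exact ⟨y, hy, mem_filter.2 ⟨hxS, hax⟩⟩
  obtain ⟨f, hf, hf'⟩ := (Finset.all_card_le_biUnion_card_iff_exists_injective
    (fun a : {a : Fin r // a ∉ S} => S.filter (Γ.Adj a.1))).1 hall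
  refine ⟨S, fun a => if h : a ∉ S then f ⟨a, h⟩ else a, hS', ?_, ?_⟩
  · intro a ha
    simp only [dif_pos ha]
    exact mem_filter.1 (hf' ⟨a, ha⟩)
  · intro a a' ha ha' h
    simp only [dif_pos ha, dif_pos ha'] at h
    exact congrArg Subtype.val (hf h)

end H93GS
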