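import Pool.Agent.H93.GS.Cusp

/-!
# GS Per: periods at the cusps (MP_b63d87_nt, helper93)

`exists_period`: `Subgroup.exists_pow_mem_of_index_ne_zero` for the element `δ T δ⁻¹`, `conj_pow`.
`norm_period`: with `γ = δ T^N δ⁻¹ ∈ Δ` and `w = δ • τ` one has `γ • w = δ • (T^N • τ)`,
`T^N • τ = (N : ℝ) +ᵥ τ` (`ModularGroup.coe_T_zpow_smul_eq` or `UpperHalfPlane.modular_T_zpow_smul`), and by
the cocycle relation (`UpperHalfPlane.denom_cocycle'`) `denom γ w * denom δ τ = denom δ (T^N • τ)`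
because `denom (δ T^N) τ = denom δ (T^N • τ) * denom (T^N) τ`, `denom (T^N) τ = 1`.
-/

set_option autoImplicit false

namespace H93GS

open UpperHalfPlane
open scoped MatrixGroups Manifold

theorem exists_period (Δ : Subgroup SL(2, ℤ)) (hΔ : Δ.FiniteIndex) (δ : SL(2, ℤ)) :
    ∃ N : ℕ, 0 < N ∧ δ * ModularGroup.T ^ N * δ⁻¹ ∈ Δ := by
  obtain ⟨n, hn, -, h⟩ := Subgroup.exists_pow_mem_of_index_ne_zero hΔ.index_ne_zero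
    (δ * ModularGroup.T * δ⁻¹)
  exact ⟨n, hn, by rwa [conj_pow] at h⟩

theorem per_T (N : ℕ) (τ : ℍ) : ModularGroup.T ^ N • τ = (N : ℝ) +ᵥ τ := by
  have h := UpperHalfPlane.modular_T_zpow_smul τ (N : ℤ)
  rw [zpow_natCast] at h
  simpa using h

theorem per_denom_mul (a b : SL(2, ℤ)) (τ : ℍ) :
    denom (a * b : SL(2, ℤ)) (τ : ℂ) = denom a ((b • τ : ℍ) : ℂ) * denom b (τ : ℂ) := by
  have h := denom_cocycle_σ (Matrix.SpecialLinearGroup.mapGL ℝ a)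
    (Matrix.SpecialLinearGroup.mapGL ℝ b) τ
  rw [← map_mul] at h
  have h2 : σ (Matrix.SpecialLinearGroup.mapGL ℝ b) = ContinuousAlgEquiv.refl ℝ ℂ := by
    simp [σ]
  rw [h2] at h
  exact h

theorem per_denom_T (N : ℕ) (τ : ℍ) : denom (ModularGroup.T ^ N : SL(2, ℤ)) (τ : ℂ) = 1 := by
  have h := ModularGroup.coe_T_zpow (N : ℤ)
  rw [zpow_natCast] at h
  have h10 : (ModularGroup.T ^ N : SL(2, ℤ)) 1 0 = 0 := by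
    rw [h]; rfl
  have h11 : (ModularGroup.T ^ N : SL(2, ℤ)) 1 1 = 1 := by
    rw [h]; rfl
  rw [ModularGroup.denom_apply, h10, h11]
  simp

theorem norm_period {F : ℍ → ℂ} {k : ℝ} {Δ : Subgroup SL(2, ℤ)}
    (hmod : ∀ γ ∈ Δ, ∀ τ : ℍ, ‖F (γ • τ)‖ = ‖denom γ τ‖ ^ k * ‖F τ‖) {δ : SL(2, ℤ)} {N : ℕ}
    (h : δ * ModularGroup.T ^ N * δ⁻¹ ∈ Δ) (τ : ℍ) :
    ‖F (δ • ((N : ℝ) +ᵥ τ))‖ * ‖denom δ ((N : ℝ) +ᵥ τ)‖ ^ (-k) =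
      ‖F (δ • τ)‖ * ‖denom δ τ‖ ^ (-k) := by
  have h1 := hmod _ h (δ • τ)
  have h2 : (δ * ModularGroup.T ^ N * δ⁻¹) • (δ • τ) = δ • ((N : ℝ) +ᵥ τ) := by
    rw [← per_T, smul_smul, smul_smul, inv_mul_cancel_right]
  have h3 : denom (δ * ModularGroup.T ^ N : SL(2, ℤ)) (τ : ℂ)
      = denom δ (((N : ℝ) +ᵥ τ : ℍ) : ℂ) := by
    rw [per_denom_mul, per_denom_T, mul_one, per_T]
  have h4 : denom (δ * ModularGroup.T ^ N : SL(2, ℤ)) (τ : ℂ)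
      = denom (δ * ModularGroup.T ^ N * δ⁻¹ : SL(2, ℤ)) ((δ • τ : ℍ) : ℂ) *
        denom δ (τ : ℂ) := by
    rw [← per_denom_mul, inv_mul_cancel_right]
  rw [h2] at h1
  rw [h1]
  have ha : 0 < ‖denom δ (τ : ℂ)‖ := norm_pos_iff.mpr (denom_ne_zero _ _)
  have hb : 0 < ‖denom (δ * ModularGroup.T ^ N * δ⁻¹ : SL(2, ℤ)) ((δ • τ : ℍ) : ℂ)‖ :=
    norm_pos_iff.mpr (denom_ne_zero _ _)
  have hc : ‖denom δ (((N : ℝ) +ᵥ τ : ℍ) : ℂ)‖ =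
      ‖denom (δ * ModularGroup.T ^ N * δ⁻¹ : SL(2, ℤ)) ((δ • τ : ℍ) : ℂ)‖ *
        ‖denom δ (τ : ℂ)‖ := by
    rw [← norm_mul, ← h4, h3]
  have hd : ‖denom δ (((N : ℝ) +ᵥ τ : ℍ) : ℂ)‖ ^ (-k) =
      ‖denom (δ * ModularGroup.T ^ N * δ⁻¹ : SL(2, ℤ)) ((δ • τ : ℍ) : ℂ)‖ ^ (-k) *
        ‖denom δ (τ : ℂ)‖ ^ (-k) := by
    rw [hc, Real.mul_rpow hb.le ha.le]
  have he : ‖denom (δ * ModularGroup.T ^ N * δ⁻¹ : SL(2, ℤ)) ((δ • τ : ℍ) : ℂ)‖ ^ k *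
      ‖denom (δ * ModularGroup.T ^ N * δ⁻¹ : SL(2, ℤ)) ((δ • τ : ℍ) : ℂ)‖ ^ (-k) = 1 := by
    rw [← Real.rpow_add hb, add_neg_cancel, Real.rpow_zero]
  calc _ = ‖denom (δ * ModularGroup.T ^ N * δ⁻¹ : SL(2, ℤ)) ((δ • τ : ℍ) : ℂ)‖ ^ k *
        ‖F (δ • τ)‖ * ‖denom δ (((N : ℝ) +ᵥ τ : ℍ) : ℂ)‖ ^ (-k) := rfl
    _ = (‖denom (δ * ModularGroup.T ^ N * δ⁻¹ : SL(2, ℤ)) ((δ • τ : ℍ) : ℂ)‖ ^ k *
        ‖denom (δ * ModularGroup.T ^ N * δ⁻¹ : SL(2, ℤ)) ((δ • τ : ℍ) : ℂ)‖ ^ (-k)) *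
        (‖F (δ • τ)‖ * ‖denom δ (τ : ℂ)‖ ^ (-k)) := by rw [hd]; ring
    _ = _ := by rw [he, one_mul]

end H93GS
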