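import Pool.Agent.H93.GS.Defs

/-!
# The finite products near roots of unity
-/

set_option autoImplicit false

namespace H93GS

open Finset Filter Topology

theorem prod_close (k : ℕ) (a b : ℕ → ℂ) (ε : ℝ) (ha : ∀ i < k, ‖a i‖ ≤ 2) (hb : ∀ i < k, ‖b i‖ ≤ 2)
    (hab : ∀ i < k, ‖b i - a i‖ ≤ ε) :
    ‖∏ i ∈ range k, b i - ∏ i ∈ range k, a i‖ ≤ k * ε * 2 ^ k := by
  induction k with
  | zero => simp
  | succ k ih =>
    have ih' := ih (fun i hi => ha i (by omega)) (fun i hi => hb i (by omega))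
      (fun i hi => hab i (by omega))
    have h1 : ‖∏ i ∈ range k, a i‖ ≤ 2 ^ k := by
      rw [norm_prod]
      calc ∏ i ∈ range k, ‖a i‖ ≤ ∏ _i ∈ range k, (2 : ℝ) :=
            Finset.prod_le_prod (fun _ _ => norm_nonneg _)
              fun i hi => ha i (by have := Finset.mem_range.1 hi; omega)
        _ = 2 ^ k := by simp
    rw [Finset.prod_range_succ, Finset.prod_range_succ]
    have h2 : (∏ i ∈ range k, b i) * b k - (∏ i ∈ range k, a i) * a k =
        (∏ i ∈ range k, b i - ∏ i ∈ range k, a i) * b k + (∏ i ∈ range k, a i) * (b k - a k) := by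
      ring
    have hε : 0 ≤ ε := (norm_nonneg _).trans (hab k (by omega))
    rw [h2]
    calc ‖(∏ i ∈ range k, b i - ∏ i ∈ range k, a i) * b k + (∏ i ∈ range k, a i) * (b k - a k)‖
        ≤ (k * ε * 2 ^ k) * 2 + 2 ^ k * ε := by
          refine (norm_add_le _ _).trans (add_le_add ?_ ?_)
          · rw [norm_mul]
            exact mul_le_mul ih' (hb k (by omega)) (norm_nonneg _) (by positivity)
          · rw [norm_mul]
            exact mul_le_mul h1 (hab k (by omega)) (norm_nonneg _) (by positivity)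
      _ ≤ ((k + 1 : ℕ) : ℝ) * ε * 2 ^ (k + 1) := by
          have h3 : (0 : ℝ) ≤ 2 ^ k * ε := by positivity
          push_cast
          rw [pow_succ]
          nlinarith

theorem prod_roots {d : ℕ} (hd : 0 < d) {ζ : ℂ} (hζ : IsPrimitiveRoot ζ d) (s : ℕ) (x : ℂ) :
    ∏ i ∈ range d, (1 - ζ ^ (s + i) * x) = 1 - x ^ d := by
  have h1 := hζ.pow_sub_pow_eq_prod_sub_mul (1 : ℂ) x hd
  rw [one_pow] at h1
  rw [h1]
  have h2 : (range d).image (fun i => ζ ^ (s + i)) = Polynomial.nthRootsFinset d (1 : ℂ) := by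
    refine Finset.eq_of_subset_of_card_le ?_ ?_
    · intro μ hμ
      obtain ⟨i, _, rfl⟩ := Finset.mem_image.1 hμ
      rw [Polynomial.mem_nthRootsFinset hd, ← pow_mul, mul_comm, pow_mul, hζ.pow_eq_one, one_pow]
    · rw [hζ.card_nthRootsFinset, Finset.card_image_of_injOn, Finset.card_range]
      intro i hi j hj hij
      have hi' := Finset.mem_range.1 (Finset.mem_coe.1 hi)
      have hj' := Finset.mem_range.1 (Finset.mem_coe.1 hj)
      simp only [pow_add] at hij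
      have h3 := mul_left_cancel₀ (pow_ne_zero s (hζ.ne_zero hd.ne')) hij
      exact hζ.pow_inj hi' hj' h3
  rw [← h2, Finset.prod_image]
  intro i hi j hj hij
  have hi' := Finset.mem_range.1 (Finset.mem_coe.1 hi)
  have hj' := Finset.mem_range.1 (Finset.mem_coe.1 hj)
  simp only [pow_add] at hij
  have h3 := mul_left_cancel₀ (pow_ne_zero s (hζ.ne_zero hd.ne')) hij
  exact hζ.pow_inj hi' hj' h3

/-- the point `ζ exp (-t)` -/
noncomputable def qz (ζ : ℂ) (t : ℝ) : ℂ := ζ * (Real.exp (-t) : ℂ)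

theorem norm_qz {ζ : ℂ} (hζ : ‖ζ‖ = 1) (t : ℝ) : ‖qz ζ t‖ = Real.exp (-t) := by
  unfold qz
  rw [norm_mul, hζ, one_mul, Complex.norm_real, Real.norm_of_nonneg (Real.exp_pos _).le]

theorem norm_one_sub_pow_le {ζ : ℂ} (hζ : ‖ζ‖ = 1) {t : ℝ} (ht : 0 ≤ t) (j : ℕ) :
    ‖1 - qz ζ t ^ j‖ ≤ 2 := by
  refine (norm_sub_le _ _).trans ?_
  rw [norm_one, norm_pow, norm_qz hζ]
  have h1 : Real.exp (-t) ^ j ≤ 1 := pow_le_one₀ (Real.exp_pos _).le (Real.exp_le_one_iff.2 (by linarith))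
  linarith

theorem block_one {d : ℕ} (hd : 0 < d) {ζ : ℂ} (hζ : IsPrimitiveRoot ζ d) {t : ℝ} (ht : 0 < t)
    (s : ℕ) : ‖∏ i ∈ range d, (1 - qz ζ t ^ (s + i + 1))‖ ≤
      Real.exp (d * (d * t * Real.exp (-t) ^ s) * 2 ^ d) := by
  have hn : ‖ζ‖ = 1 := hζ.norm'_eq_one hd.ne'
  have hx0 : (0 : ℝ) < Real.exp (-t) := Real.exp_pos _
  have hx1 : Real.exp (-t) ≤ 1 := Real.exp_le_one_iff.2 (by linarith)
  have h1 := prod_close d (fun i => 1 - ζ ^ (s + 1 + i) * ((Real.exp (-t) ^ s : ℝ) : ℂ))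
    (fun i => 1 - qz ζ t ^ (s + i + 1)) (d * t * Real.exp (-t) ^ s) ?_ ?_ ?_
  · rw [prod_roots hd hζ] at h1
    have h2 : ‖(1 : ℂ) - ((Real.exp (-t) ^ s : ℝ) : ℂ) ^ d‖ ≤ 1 := by
      rw [← Complex.ofReal_pow, ← Complex.ofReal_one, ← Complex.ofReal_sub, Complex.norm_real,
        Real.norm_of_nonneg]
      · have : 0 ≤ (Real.exp (-t) ^ s) ^ d := by positivity
        linarith
      · have : (Real.exp (-t) ^ s) ^ d ≤ 1 := pow_le_one₀ (by positivity) (pow_le_one₀ hx0.le hx1)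
        linarith
    have h3 : ‖∏ i ∈ range d, (1 - qz ζ t ^ (s + i + 1))‖ ≤
        1 + d * (d * t * Real.exp (-t) ^ s) * 2 ^ d := by
      calc ‖∏ i ∈ range d, (1 - qz ζ t ^ (s + i + 1))‖
          = ‖(1 - ((Real.exp (-t) ^ s : ℝ) : ℂ) ^ d) + (∏ i ∈ range d, (1 - qz ζ t ^ (s + i + 1)) -
            (1 - ((Real.exp (-t) ^ s : ℝ) : ℂ) ^ d))‖ := by ring_nf
        _ ≤ 1 + d * (d * t * Real.exp (-t) ^ s) * 2 ^ d :=
          (norm_add_le _ _).trans (add_le_add h2 h1)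
    refine h3.trans ?_
    rw [add_comm]
    exact Real.add_one_le_exp _
  · intro i _
    refine (norm_sub_le _ _).trans ?_
    rw [norm_one, norm_mul, norm_pow, hn, one_pow, one_mul, Complex.norm_real,
      Real.norm_of_nonneg (by positivity)]
    have : Real.exp (-t) ^ s ≤ 1 := pow_le_one₀ hx0.le hx1
    linarith
  · intro i _
    exact norm_one_sub_pow_le hn ht.le _
  · intro i hi
    have h4 : (1 - qz ζ t ^ (s + i + 1)) - (1 - ζ ^ (s + 1 + i) * ((Real.exp (-t) ^ s : ℝ) : ℂ)) =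
        ζ ^ (s + 1 + i) * ((Real.exp (-t) ^ s * (1 - Real.exp (-t) ^ (i + 1)) : ℝ) : ℂ) := by
      unfold qz
      rw [mul_pow]
      have : s + i + 1 = s + 1 + i := by ring
      rw [this]
      push_cast
      ring
    rw [h4, norm_mul, norm_pow, hn, one_pow, one_mul, Complex.norm_real]
    have h5 : Real.exp (-t) ^ (i + 1) ≤ 1 := pow_le_one₀ hx0.le hx1
    have h6 : 1 - Real.exp (-t) ^ (i + 1) ≤ d * t := by
      rw [← Real.exp_nat_mul]
      have h7 := Real.add_one_le_exp (((i + 1 : ℕ) : ℝ) * -t)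
      have h8 : ((i + 1 : ℕ) : ℝ) ≤ d := by exact_mod_cast hi
      nlinarith
    rw [Real.norm_of_nonneg (mul_nonneg (by positivity) (by linarith))]
    have h9 : (0 : ℝ) ≤ Real.exp (-t) ^ s := by positivity
    nlinarith

theorem geo_sum_le {x : ℝ} (h0 : 0 ≤ x) (h1 : x < 1) (l : ℕ) :
    ∑ i ∈ range l, x ^ i ≤ (1 - x)⁻¹ := by
  rw [← tsum_geometric_of_lt_one h0 h1]
  exact (summable_geometric_of_lt_one h0 h1).sum_le_tsum _ fun i _ => by positivity

theorem geo_half {t : ℝ} (ht : 0 < t) (ht1 : t ≤ 1) : t / 2 ≤ 1 - Real.exp (-t) := by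
  have h3 := Real.add_one_le_exp t
  have h4 : Real.exp (-t) ≤ 1 / (1 + t) := by
    rw [Real.exp_neg, ← one_div]
    exact one_div_le_one_div_of_le (by linarith) (by linarith)
  have h5 : 1 / (1 + t) ≤ 1 - t / 2 := by
    rw [div_le_iff₀ (by linarith)]
    nlinarith
  linarith

theorem geo_le {t : ℝ} (ht : 0 < t) (ht1 : t ≤ 1) (l : ℕ) :
    ∑ i ∈ range l, t * Real.exp (-t) ^ i ≤ 2 := by
  have hx0 : (0 : ℝ) < Real.exp (-t) := Real.exp_pos _
  have hx1 : Real.exp (-t) < 1 := Real.exp_lt_one_iff.2 (by linarith)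
  rw [← Finset.mul_sum]
  have h1 : ∑ i ∈ range l, Real.exp (-t) ^ i ≤ (1 - Real.exp (-t))⁻¹ :=
    geo_sum_le hx0.le hx1 l
  have h2 : t / 2 ≤ 1 - Real.exp (-t) := geo_half ht ht1
  calc t * ∑ i ∈ range l, Real.exp (-t) ^ i ≤ t * (1 - Real.exp (-t))⁻¹ := by gcongr
    _ ≤ t * (t / 2)⁻¹ := by gcongr
    _ = 2 := by field_simp

/-- Later products are bounded by a multiple of the earlier ones. -/
theorem block {k : ℕ} (hk : 0 < k) {ζ : ℂ} (hζ : ζ ^ k = 1) :
    ∃ C : ℝ, 1 ≤ C ∧ ∀ t : ℝ, 0 < t → t ≤ 1 → ∀ n m : ℕ, n ≤ m →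
      ‖qp (qz ζ t) m‖ ≤ C * ‖qp (qz ζ t) n‖ := by
  obtain ⟨d, hd, hp⟩ : ∃ d : ℕ, 0 < d ∧ IsPrimitiveRoot ζ d :=
    ⟨orderOf ζ, orderOf_pos_iff.2 (isOfFinOrder_iff_pow_eq_one.2 ⟨k, hk, hζ⟩),
      IsPrimitiveRoot.orderOf ζ⟩
  have hn : ‖ζ‖ = 1 := hp.norm'_eq_one hd.ne'
  set c : ℝ := d * d * 2 ^ d with hc
  refine ⟨Real.exp (c * 2) * 2 ^ d, ?_, ?_⟩
  · have h1 : (1 : ℝ) ≤ Real.exp (c * 2) := Real.one_le_exp (by positivity)
    have h2 : (1 : ℝ) ≤ 2 ^ d := one_le_pow₀ (by norm_num)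
    nlinarith
  · intro t ht ht1 n m hnm
    have hx0 : (0 : ℝ) < Real.exp (-t) := Real.exp_pos _
    have hx1 : Real.exp (-t) ≤ 1 := Real.exp_le_one_iff.2 (by linarith)
    have h1 : ∀ l : ℕ, ‖qp (qz ζ t) (n + d * l)‖ ≤
        ‖qp (qz ζ t) n‖ * Real.exp (c * ∑ i ∈ range l, t * Real.exp (-t) ^ i) := by
      intro l
      induction l with
      | zero => simp
      | succ l ih =>
        have h2 : qp (qz ζ t) (n + d * (l + 1)) = qp (qz ζ t) (n + d * l) *
            ∏ i ∈ range d, (1 - qz ζ t ^ (n + d * l + i + 1)) := by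
          unfold qp
          rw [show n + d * (l + 1) = (n + d * l) + d by ring, Finset.prod_range_add]
        rw [h2, norm_mul, Finset.sum_range_succ, mul_add, Real.exp_add, ← mul_assoc]
        refine mul_le_mul ih ((block_one hd hp ht _).trans ?_) (norm_nonneg _) (by positivity)
        rw [Real.exp_le_exp, hc]
        have h3 : Real.exp (-t) ^ (n + d * l) ≤ Real.exp (-t) ^ l :=
          pow_le_pow_of_le_one hx0.le hx1 (by nlinarith)
        have h4 : (0 : ℝ) ≤ d * d * 2 ^ d * t := by positivity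
        nlinarith
    have h2 : ∀ (a b : ℕ), ‖qp (qz ζ t) (a + b)‖ ≤ ‖qp (qz ζ t) a‖ * 2 ^ b := by
      intro a b
      induction b with
      | zero => simp
      | succ b ih =>
        have h3 : qp (qz ζ t) (a + (b + 1)) = qp (qz ζ t) (a + b) * (1 - qz ζ t ^ (a + b + 1)) :=
          Finset.prod_range_succ _ _
        rw [h3, norm_mul, pow_succ (2 : ℝ), ← mul_assoc]
        exact mul_le_mul ih (norm_one_sub_pow_le hn ht.le _) (norm_nonneg _) (by positivity)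
    obtain ⟨e, rfl⟩ := Nat.exists_eq_add_of_le hnm
    have h3 : n + e = (n + d * (e / d)) + e % d := by
      rw [add_assoc, Nat.div_add_mod]
    rw [h3]
    refine (h2 _ _).trans ?_
    have h4 : (2 : ℝ) ^ (e % d) ≤ 2 ^ d :=
      pow_le_pow_right₀ (by norm_num) (Nat.mod_lt _ hd).le
    have h5 : Real.exp (c * ∑ i ∈ range (e / d), t * Real.exp (-t) ^ i) ≤ Real.exp (c * 2) := by
      rw [Real.exp_le_exp]
      exact mul_le_mul_of_nonneg_left (geo_le ht ht1 _) (by positivity)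
    calc ‖qp (qz ζ t) (n + d * (e / d))‖ * 2 ^ (e % d)
        ≤ (‖qp (qz ζ t) n‖ * Real.exp (c * 2)) * 2 ^ d := by
          refine mul_le_mul ((h1 _).trans ?_) h4 (by positivity) (by positivity)
          gcongr
      _ = Real.exp (c * 2) * 2 ^ d * ‖qp (qz ζ t) n‖ := by ring

end H93GS
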