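import Pool.Agent.H93.GS.Euler
import Pool.Agent.H93.GS.PiSum

/-!
# Summation over an independent set
-/

set_option autoImplicit false

namespace H93GS

open Finset Filter Topology

variable {r : ℕ} (Γ : SimpleGraph (Fin r)) [DecidableRel Γ.Adj] (S : Finset (Fin r))

/-- the vertices outside `S` -/
abbrev AA (S : Finset (Fin r)) : Type := {a : Fin r // a ∉ S}

/-- the vertices of `S` -/
abbrev BB (S : Finset (Fin r)) : Type := {s : Fin r // s ∈ S}

/-- adjacency between the two sets -/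
def adjS (a : AA S) (s : BB S) : Prop := Γ.Adj a.1 s.1

instance (a : AA S) (s : BB S) : Decidable (adjS Γ S a s) :=
  inferInstanceAs (Decidable (Γ.Adj a.1 s.1))

/-- the sum over the edges outside `S` -/
def EA (n : AA S → ℕ) : ℕ := ∑ a, ∑ a', if a.1 < a'.1 ∧ Γ.Adj a.1 a'.1 then n a * n a' else 0

/-- gluing of the two families of coordinates -/
def spl : (AA S → ℕ) × (BB S → ℕ) ≃ (Fin r → ℕ) where
  toFun p v := if h : v ∈ S then p.2 ⟨v, h⟩ else p.1 ⟨v, h⟩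
  invFun n := (fun a => n a.1, fun s => n s.1)
  left_inv p := by
    refine Prod.ext ?_ ?_
    · funext a
      simp [a.2]
    · funext s
      simp
  right_inv n := by
    funext v
    simp

theorem spl_A (p : (AA S → ℕ) × (BB S → ℕ)) (a : AA S) : spl S p a.1 = p.1 a := by
  simp [spl, a.2]

theorem spl_B (p : (AA S → ℕ) × (BB S → ℕ)) (s : BB S) : spl S p s.1 = p.2 s := by
  simp [spl, s.2]

theorem sum_inst {α M : Type} [AddCommMonoid M] (i1 i2 : Fintype α) (g : α → M) :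
    ∑ x ∈ @Finset.univ α i1, g x = ∑ x ∈ @Finset.univ α i2, g x := by
  rw [Subsingleton.elim i1 i2]

theorem prod_inst {α M : Type} [CommMonoid M] (i1 i2 : Fintype α) (g : α → M) :
    ∏ x ∈ @Finset.univ α i1, g x = ∏ x ∈ @Finset.univ α i2, g x := by
  rw [Subsingleton.elim i1 i2]

theorem sum_split {M : Type} [AddCommMonoid M] (f : Fin r → M) :
    ∑ i, f i = ∑ s : BB S, f s.1 + ∑ a : AA S, f a.1 := by
  rw [← Fintype.sum_subtype_add_sum_subtype (fun i => i ∈ S) f]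
  exact congrArg₂ (fun x y => x + y) (sum_inst _ _ _) (sum_inst _ _ _)

theorem prod_split {M : Type} [CommMonoid M] (f : Fin r → M) :
    ∏ i, f i = (∏ s : BB S, f s.1) * ∏ a : AA S, f a.1 := by
  rw [← Fintype.prod_subtype_mul_prod_subtype (fun i => i ∈ S) f]
  exact congrArg₂ (fun x y => x * y) (prod_inst _ _ _) (prod_inst _ _ _)

theorem edge_split (hS : ∀ i ∈ S, ∀ j ∈ S, ¬ Γ.Adj i j) (p : (AA S → ℕ) × (BB S → ℕ)) :
    edgeSum Γ (spl S p) = EA Γ S p.1 + ∑ s, mm (adjS Γ S) p.1 s * p.2 s := by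
  unfold edgeSum
  rw [sum_split S]
  simp_rw [sum_split S (M := ℕ)]
  simp_rw [spl_A, spl_B]
  have h1 : ∀ s s' : BB S, (if s.1 < s'.1 ∧ Γ.Adj s.1 s'.1 then p.2 s * p.2 s' else 0) = 0 :=
    fun s s' => if_neg fun h => hS s.1 s.2 s'.1 s'.2 h.2
  simp_rw [h1]
  simp only [sum_const_zero, zero_add]
  rw [Finset.sum_add_distrib]
  have h2 : ∑ a : AA S, ∑ s : BB S, (if a.1 < s.1 ∧ Γ.Adj a.1 s.1 then p.1 a * p.2 s else 0) =
      ∑ s : BB S, ∑ a : AA S, (if a.1 < s.1 ∧ Γ.Adj a.1 s.1 then p.1 a * p.2 s else 0) :=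
    Finset.sum_comm
  rw [h2]
  have h3 : ∀ s : BB S, ∑ a : AA S, (if s.1 < a.1 ∧ Γ.Adj s.1 a.1 then p.2 s * p.1 a else 0) +
      ∑ a : AA S, (if a.1 < s.1 ∧ Γ.Adj a.1 s.1 then p.1 a * p.2 s else 0) =
      mm (adjS Γ S) p.1 s * p.2 s := by
    intro s
    rw [← Finset.sum_add_distrib]
    unfold mm
    rw [Finset.sum_mul]
    refine Finset.sum_congr rfl fun a _ => ?_
    have hne : a.1 ≠ s.1 := fun e => a.2 (e ▸ s.2)
    unfold adjS
    by_cases h4 : Γ.Adj a.1 s.1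
    · rcases lt_or_gt_of_ne hne with h5 | h5
      · simp [h4, h5, h5.asymm]
      · simp [h4, h4.symm, h5, h5.asymm, mul_comm]
    · have h6 : ¬ Γ.Adj s.1 a.1 := fun h => h4 h.symm
      simp [h4, h6]
  have h4 : EA Γ S p.1 = ∑ a : AA S, ∑ a' : AA S,
      (if a.1 < a'.1 ∧ Γ.Adj a.1 a'.1 then p.1 a * p.1 a' else 0) := rfl
  rw [h4]
  have h5 := Finset.sum_congr rfl fun (s : BB S) (_ : s ∈ Finset.univ) => h3 s
  rw [Finset.sum_add_distrib] at h5
  rw [← h5]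
  ring

variable {q : ℂ}

/-- the factor which depends only on the coordinates outside `S` -/
noncomputable def cc (q : ℂ) (n : AA S → ℕ) : ℂ := q ^ (EA Γ S n + ∑ a, n a) / ∏ a, qp q (n a)

theorem term_split (hS : ∀ i ∈ S, ∀ j ∈ S, ¬ Γ.Adj i j) (p : (AA S → ℕ) × (BB S → ℕ)) :
    q ^ (edgeSum Γ (spl S p) + ∑ i, spl S p i) / ∏ i, qp q (spl S p i) =
      cc Γ S q p.1 * ∏ s, (q ^ ((1 + mm (adjS Γ S) p.1 s) * p.2 s) / qp q (p.2 s)) := by
  rw [edge_split Γ S hS, sum_split S, prod_split S]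
  simp_rw [spl_A, spl_B]
  have h1 : EA Γ S p.1 + ∑ s, mm (adjS Γ S) p.1 s * p.2 s + (∑ s, p.2 s + ∑ a, p.1 a) =
      (EA Γ S p.1 + ∑ a, p.1 a) + ∑ s, (1 + mm (adjS Γ S) p.1 s) * p.2 s := by
    have h2 : ∑ s, (1 + mm (adjS Γ S) p.1 s) * p.2 s =
        ∑ s, p.2 s + ∑ s, mm (adjS Γ S) p.1 s * p.2 s := by
      rw [← Finset.sum_add_distrib]
      exact Finset.sum_congr rfl fun s _ => by ring
    rw [h2]
    ring
  rw [h1, pow_add, Finset.prod_div_distrib, Finset.prod_pow_eq_pow_sum]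
  unfold cc
  rw [div_mul_div_comm, mul_comm (∏ s : BB S, qp q (p.2 s))]

theorem norm_term_le (hq : ‖q‖ < 1) (n : AA S → ℕ) (m : BB S → ℕ) :
    ‖cc Γ S q n * ∏ s, (q ^ ((1 + mm (adjS Γ S) n s) * m s) / qp q (m s))‖ ≤
      (∏ a, ‖q ^ ((1 + 0) * n a) / qp q (n a)‖) * ∏ s, ‖q ^ ((1 + 0) * m s) / qp q (m s)‖ := by
  have h0 := norm_nonneg q
  rw [norm_mul, norm_prod]
  refine mul_le_mul ?_ ?_ (Finset.prod_nonneg fun _ _ => norm_nonneg _)
    (Finset.prod_nonneg fun _ _ => norm_nonneg _)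
  · unfold cc
    rw [norm_div, norm_prod, ← norm_prod, norm_prod, pow_add, norm_mul]
    simp_rw [norm_div]
    rw [Finset.prod_div_distrib]
    have h1 : ∏ a, ‖q ^ ((1 + 0) * n a)‖ = ‖q ^ ∑ a, n a‖ := by
      rw [← norm_prod, Finset.prod_pow_eq_pow_sum]
      simp
    rw [h1]
    gcongr
    calc ‖q ^ EA Γ S n‖ * ‖q ^ ∑ a, n a‖ ≤ 1 * ‖q ^ ∑ a, n a‖ := by
          gcongr
          rw [norm_pow]
          exact pow_le_one₀ h0 hq.le
      _ = ‖q ^ ∑ a, n a‖ := one_mul _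
  · refine Finset.prod_le_prod (fun _ _ => norm_nonneg _) fun s _ => ?_
    rw [norm_div, norm_div]
    gcongr
    rw [norm_pow, norm_pow]
    exact pow_le_pow_of_le_one h0 hq.le (Nat.mul_le_mul_right _ (by omega))

theorem norm_term_summable (hq : ‖q‖ < 1) : Summable fun p : (AA S → ℕ) × (BB S → ℕ) =>
    ‖cc Γ S q p.1 * ∏ s, (q ^ ((1 + mm (adjS Γ S) p.1 s) * p.2 s) / qp q (p.2 s))‖ := by
  have h1 := pi_summable (ι := AA S) (f := fun _ n => q ^ ((1 + 0) * n) / qp q n)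
    fun _ => euler_summable hq 0
  have h2 := pi_summable (ι := BB S) (f := fun _ n => q ^ ((1 + 0) * n) / qp q n)
    fun _ => euler_summable hq 0
  have h3 := h1.mul_of_nonneg h2 (fun _ => norm_nonneg _) (fun _ => norm_nonneg _)
  refine Summable.of_nonneg_of_le (fun _ => norm_nonneg _) (fun p => ?_) h3
  refine (norm_term_le Γ S hq p.1 p.2).trans_eq ?_
  rw [norm_prod, norm_prod]

theorem inner_sum (hq : ‖q‖ < 1) (n : AA S → ℕ) :
    ∑' m : BB S → ℕ, cc Γ S q n * ∏ s, (q ^ ((1 + mm (adjS Γ S) n s) * m s) / qp q (m s)) =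
      gt (adjS Γ S) (EA Γ S) q n / qinf q ^ S.card := by
  rw [tsum_mul_left, pi_tsum (ι := BB S)
    (f := fun s k => q ^ ((1 + mm (adjS Γ S) n s) * k) / qp q k) fun s => euler_summable hq _]
  simp_rw [euler hq]
  rw [Finset.prod_div_distrib, Finset.prod_const, Finset.card_univ, Fintype.card_coe]
  unfold cc gt
  ring

theorem gt_summable (hq : ‖q‖ < 1) :
    Summable fun n : AA S → ℕ => ‖gt (adjS Γ S) (EA Γ S) q n‖ := by
  have h1 := norm_term_summable Γ S hq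
  have h2 : Summable fun n : AA S → ℕ => ∑' m : BB S → ℕ,
      ‖cc Γ S q n * ∏ s, (q ^ ((1 + mm (adjS Γ S) n s) * m s) / qp q (m s))‖ := h1.prod
  have h3 := h2.mul_right (‖qinf q ^ S.card‖)
  refine Summable.of_nonneg_of_le (fun _ => norm_nonneg _) (fun n => ?_) h3
  have h4 : ‖gt (adjS Γ S) (EA Γ S) q n / qinf q ^ S.card‖ ≤ ∑' m : BB S → ℕ,
      ‖cc Γ S q n * ∏ s, (q ^ ((1 + mm (adjS Γ S) n s) * m s) / qp q (m s))‖ := by
    rw [← inner_sum Γ S hq n]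
    exact norm_tsum_le_tsum_norm (h1.prod_factor n)
  have h5 : 0 < ‖qinf q ^ S.card‖ := norm_pos_iff.2 (pow_ne_zero _ (qinf_ne_zero hq))
  rwa [norm_div, div_le_iff₀ h5] at h4

/-- The graph series after summation over the independent set. -/
theorem split_main (hS : ∀ i ∈ S, ∀ j ∈ S, ¬ Γ.Adj i j) (hq : ‖q‖ < 1) :
    graphSeries Γ q * qinf q ^ S.card = ∑' n : AA S → ℕ, gt (adjS Γ S) (EA Γ S) q n := by
  have h1 := norm_term_summable Γ S hq
  unfold graphSeries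
  rw [← (spl S).tsum_eq]
  simp_rw [term_split Γ S hS]
  rw [h1.of_norm.tsum_prod]
  simp_rw [inner_sum Γ S hq]
  rw [tsum_div_const, div_mul_cancel₀ _ (pow_ne_zero _ (qinf_ne_zero hq))]

end H93GS
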