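import Pool.Agent.H93.GS.RealBd
import Pool.Agent.H93.GS.Split

/-!
# GS Comb: exchanges of maximum independent sets (MP_b63d87_nt, helper93)

`S` is independent and `b` is a matching of the complement into `S`, so every independent set `J` has
at most `|S|` elements: `J` contains at most one of `a`, `b a` for `a ∉ S` (map `v ∈ J` to `v` if
`v ∈ S` and to `b v` if `v ∉ S`: injective into `S`, because `b a = v` with `a, v ∈ J` is impossible).
If `T` is good then `I = (S \ b T) ∪ T` is independent with `|S|` elements, so it is a maximum independent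
set. Suppose that `T` and `T.erase a` are good, `a ∈ T`. The vertex `b a` is not in `I`, so by `h2` it has
two neighbours in `I`; they are not in `S`, so they are in `T`, and one of them is some
`a' ∈ T.erase a` with `adj a' (b a)`; this contradicts the first condition for `T.erase a` (`a ∉ T.erase a`).
`edge_bound`: the term `{a, a'}` of the sum `EA`.
-/

set_option autoImplicit false

namespace H93GS

open Finset

theorem comb_indep {r : ℕ} (Γ : SimpleGraph (Fin r)) [DecidableRel Γ.Adj] (S : Finset (Fin r))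
    (hS : ∀ i ∈ S, ∀ j ∈ S, ¬ Γ.Adj i j) (b : AA S → BB S)
    (T : Finset (AA S)) (hT : Good (adjS Γ S) (fun a a' => Γ.Adj a.1 a'.1) b T) :
    ∀ i ∈ (S \ T.image (fun a => (b a).1)) ∪ T.image Subtype.val,
      ∀ j ∈ (S \ T.image (fun a => (b a).1)) ∪ T.image Subtype.val, ¬ Γ.Adj i j := by
  obtain ⟨h1, h2, h3⟩ := hT
  have key : ∀ i ∈ S \ T.image (fun a => (b a).1), ∀ a ∈ T, ¬ Γ.Adj a.1 i := by
    intro i hi a ha hadj
    rw [mem_sdiff, mem_image] at hi
    by_cases h : ∃ c, b c = (⟨i, hi.1⟩ : BB S)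
    · obtain ⟨c, hc⟩ := h
      have hcT : c ∉ T := fun hcT => hi.2 ⟨c, hcT, by rw [hc]⟩
      have h4 := h1 c hcT a ha
      apply h4
      rw [hc]
      exact hadj
    · have h5 := h2 ⟨i, hi.1⟩ (fun c hc => h ⟨c, hc⟩) a ha
      exact h5 hadj
  intro i hi j hj hadj
  rw [mem_union] at hi hj
  rcases hi with hi | hi
  · rcases hj with hj | hj
    · exact hS i (mem_sdiff.mp hi).1 j (mem_sdiff.mp hj).1 hadj
    · obtain ⟨a, ha, rfl⟩ := mem_image.mp hj
      exact key i hi a ha hadj.symm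
  · obtain ⟨a, ha, rfl⟩ := mem_image.mp hi
    rcases hj with hj | hj
    · exact key j hj a ha hadj
    · obtain ⟨a', ha', rfl⟩ := mem_image.mp hj
      exact h3 a ha a' ha' hadj

theorem comb_card {r : ℕ} (S : Finset (Fin r)) (b : AA S → BB S) (hb : Function.Injective b)
    (T : Finset (AA S)) :
    ((S \ T.image (fun a => (b a).1)) ∪ T.image Subtype.val).card = S.card := by
  have hd : Disjoint (S \ T.image (fun a => (b a).1)) (T.image Subtype.val) := by
    rw [disjoint_left]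
    intro i hi hi'
    obtain ⟨a, _, rfl⟩ := mem_image.mp hi'
    exact a.2 (mem_sdiff.mp hi).1
  have hsub : T.image (fun a => (b a).1) ⊆ S := by
    intro i hi
    obtain ⟨a, _, rfl⟩ := mem_image.mp hi
    exact (b a).2
  have c1 : (T.image (fun a => (b a).1)).card = T.card :=
    card_image_of_injective T (fun x y hxy => hb (Subtype.ext hxy))
  have c2 : (T.image Subtype.val).card = T.card :=
    card_image_of_injective T Subtype.val_injective
  rw [card_union_of_disjoint hd, card_sdiff_of_subset hsub, c1, c2]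
  have := card_le_card hsub
  omega

theorem comb_max {r : ℕ} (Γ : SimpleGraph (Fin r)) [DecidableRel Γ.Adj] (S : Finset (Fin r))
    (b : AA S → BB S) (hb : Function.Injective b)
    (hadj : ∀ a, adjS Γ S a (b a)) (J : Finset (Fin r))
    (hJ : ∀ i ∈ J, ∀ j ∈ J, ¬ Γ.Adj i j) : J.card ≤ S.card := by
  let f : Fin r → Fin r := fun v => if h : v ∈ S then v else (b ⟨v, h⟩).1
  have f1 : ∀ v (_ : v ∈ S), f v = v := fun v h => dif_pos h
  have f2 : ∀ v (h : v ∉ S), f v = (b ⟨v, h⟩).1 := fun v h => dif_neg h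
  refine card_le_card_of_injOn f ?_ ?_
  · intro v _
    by_cases h : v ∈ S
    · rw [f1 v h]
      exact h
    · rw [f2 v h]
      exact (b ⟨v, h⟩).2
  · intro v hv w hw hvw
    have hv' : v ∈ J := hv
    have hw' : w ∈ J := hw
    by_cases h : v ∈ S
    · by_cases h' : w ∈ S
      · rw [f1 v h, f1 w h'] at hvw
        exact hvw
      · rw [f1 v h, f2 w h'] at hvw
        have h3 : Γ.Adj w (b ⟨w, h'⟩).1 := hadj ⟨w, h'⟩
        rw [← hvw] at h3
        exact absurd h3 (hJ w hw' v hv')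
    · by_cases h' : w ∈ S
      · rw [f2 v h, f1 w h'] at hvw
        have h3 : Γ.Adj v (b ⟨v, h⟩).1 := hadj ⟨v, h⟩
        rw [hvw] at h3
        exact absurd h3 (hJ v hv' w hw')
      · rw [f2 v h, f2 w h'] at hvw
        have h3 := hb (Subtype.ext hvw)
        exact congrArg Subtype.val h3

theorem edge_bound {r : ℕ} (Γ : SimpleGraph (Fin r)) [DecidableRel Γ.Adj] (S : Finset (Fin r))
    (n : AA S → ℕ) (a a' : AA S) (h : Γ.Adj a.1 a'.1) : n a * n a' ≤ EA Γ S n := by
  have key : ∀ c c' : AA S, c.1 < c'.1 → Γ.Adj c.1 c'.1 → n c * n c' ≤ EA Γ S n := by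
    intro c c' hlt hc
    unfold EA
    have e1 : n c * n c' = if c.1 < c'.1 ∧ Γ.Adj c.1 c'.1 then n c * n c' else 0 := by
      rw [if_pos ⟨hlt, hc⟩]
    calc n c * n c' = if c.1 < c'.1 ∧ Γ.Adj c.1 c'.1 then n c * n c' else 0 := e1
      _ ≤ ∑ x, if c.1 < x.1 ∧ Γ.Adj c.1 x.1 then n c * n x else 0 :=
        single_le_sum (f := fun x : AA S => if c.1 < x.1 ∧ Γ.Adj c.1 x.1 then n c * n x else 0)
          (fun _ _ => Nat.zero_le _) (mem_univ c')
      _ ≤ _ := single_le_sum
          (f := fun y : AA S => ∑ x : AA S, if y.1 < x.1 ∧ Γ.Adj y.1 x.1 then n y * n x else 0)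
          (fun _ _ => Nat.zero_le _) (mem_univ c)
  rcases lt_trichotomy a.1 a'.1 with h1 | h1 | h1
  · exact key a a' h1 h
  · exact absurd h1 h.ne
  · rw [mul_comm]
    exact key a' a h1 h.symm

theorem comb {r : ℕ} (Γ : SimpleGraph (Fin r)) [DecidableRel Γ.Adj] (S : Finset (Fin r))
    (hS : ∀ i ∈ S, ∀ j ∈ S, ¬ Γ.Adj i j) (b : AA S → BB S) (hb : Function.Injective b)
    (hadj : ∀ a, adjS Γ S a (b a))
    (h2 : ∀ I : Finset (Fin r), (∀ i ∈ I, ∀ j ∈ I, ¬ Γ.Adj i j) →
      (∀ J : Finset (Fin r), (∀ i ∈ J, ∀ j ∈ J, ¬ Γ.Adj i j) → J.card ≤ I.card) →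
      ∀ v, v ∉ I → 2 ≤ (I.filter (Γ.Adj v)).card)
    (T : Finset (AA S)) (hT : Good (adjS Γ S) (fun a a' => Γ.Adj a.1 a'.1) b T) (a : AA S)
    (ha : a ∈ T) : ¬ Good (adjS Γ S) (fun a a' => Γ.Adj a.1 a'.1) b (T.erase a) := by
  intro hE
  have hv : (b a).1 ∉ (S \ T.image (fun a => (b a).1)) ∪ T.image Subtype.val := by
    rw [mem_union]
    rintro (h | h)
    · exact (mem_sdiff.mp h).2 (mem_image.mpr ⟨a, ha, rfl⟩)
    · obtain ⟨c, _, hc⟩ := mem_image.mp h
      exact c.2 (hc ▸ (b a).2)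
  have hcard := h2 _ (comb_indep Γ S hS b T hT)
    (fun J hJ => (comb_max Γ S b hb hadj J hJ).trans (comb_card S b hb T).ge) _ hv
  have h3 : ∃ w ∈ ((S \ T.image (fun a => (b a).1)) ∪ T.image Subtype.val).filter
      (Γ.Adj (b a).1), w ≠ a.1 := exists_mem_ne hcard a.1
  obtain ⟨w, hw, hwa⟩ := h3
  rw [mem_filter] at hw
  have hwS : w ∉ S := fun h => hS _ (b a).2 w h hw.2
  rw [mem_union] at hw
  rcases hw.1 with h | h
  · exact hwS (mem_sdiff.mp h).1
  · obtain ⟨c, hc, rfl⟩ := mem_image.mp h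
    have hca : c ≠ a := fun e => hwa (by rw [e])
    exact hE.1 a (notMem_erase a T) c (mem_erase.mpr ⟨hca, hc⟩) hw.2.symm

end H93GS
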