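import Mathlib

/-!
# GS Cusp: expansion at a cusp of functions with a unitary multiplier (MP_b63d87_nt, helper93)

`g` is holomorphic on the upper half-plane, not identically zero, `|g (τ + N)| = |g τ|` and `g` grows at
most exponentially for `Im τ → ∞`. Then `|g τ| = exp (-l Im τ) |P (exp (2 π i τ / N))|` with `P` holomorphic on
the unit disc, `P 0 ≠ 0`.
(1) `unit_ratio`: two holomorphic functions `u`, `v` on a connected open set with `|u| = |v|` and `v` not
identically zero satisfy `u = ω v`, `|ω| = 1` (near a point with `v ≠ 0` the quotient has constant norm,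
so it is constant, e.g. `Complex.eventually_eq_of_isLocalMax_norm`; then the identity theorem
`AnalyticOnNhd.eqOn_of_preconnected_of_eventuallyEq`). So `g (τ + N) = ω g τ`, `ω = exp (2 π i κ)`, `κ` real.
(2) `h τ = g τ exp (2 π i (L - κ) τ / N)` has period `N` and, for a large natural number `L`, is bounded for
`Im τ ≥ 1`; by `UpperHalfPlane.differentiableOn_cuspFunction_ball` and `eq_cuspFunction` one has
`h τ = Q (qParam N τ)` with `Q` holomorphic on the unit disc, not identically zero.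
(3) `Q z = z^p P z` with `P` holomorphic on the disc and `P 0 ≠ 0` (`p` the order of the zero at `0`, e.g.
`AnalyticAt.analyticOrderAt_ne_top` or `AnalyticAt.exists_eventuallyEq_pow_smul_nonzero_iff`, and
`P z = Q z / z^p` for `z ≠ 0`). `|qParam N τ| = exp (-2 π Im τ / N)`, so `l = 2 π (p - L + κ) / N`.
-/

set_option autoImplicit false

namespace H93GS

open UpperHalfPlane Filter Topology
open scoped Manifold

theorem unit_ratio {U : Set ℂ} (hU : IsOpen U) (hc : IsPreconnected U) {u v : ℂ → ℂ}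
    (hu : DifferentiableOn ℂ u U) (hv : DifferentiableOn ℂ v U) (h : ∀ z ∈ U, ‖u z‖ = ‖v z‖)
    (hne : ∃ z ∈ U, v z ≠ 0) : ∃ ω : ℂ, ‖ω‖ = 1 ∧ ∀ z ∈ U, u z = ω * v z := by
  obtain ⟨z0, hz0, hv0⟩ := hne
  have hUn : U ∈ 𝓝 z0 := hU.mem_nhds hz0
  have hv1 : ∀ᶠ z in 𝓝 z0, v z ≠ 0 :=
    ((hv.differentiableAt hUn).continuousAt).eventually_ne hv0
  have hd : ∀ᶠ z in 𝓝 z0, DifferentiableAt ℂ (fun z => u z / v z) z := by
    filter_upwards [hv1, hUn] with z hz hzU
    exact (hu.differentiableAt (hU.mem_nhds hzU)).div (hv.differentiableAt (hU.mem_nhds hzU)) hz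
  have hone : ∀ z ∈ U, v z ≠ 0 → ‖u z / v z‖ = 1 := fun z hz hz' => by
    rw [norm_div, h z hz, div_self (norm_ne_zero_iff.2 hz')]
  have hmax : IsLocalMax (norm ∘ fun z => u z / v z) z0 := by
    filter_upwards [hv1, hUn] with z hz hzU
    show ‖u z / v z‖ ≤ ‖u z0 / v z0‖
    rw [hone z hzU hz, hone z0 hz0 hv0]
  have hev := Complex.eventually_eq_of_isLocalMax_norm hd hmax
  refine ⟨u z0 / v z0, hone z0 hz0 hv0, ?_⟩
  have heq : u =ᶠ[𝓝 z0] fun z => (u z0 / v z0) * v z := by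
    filter_upwards [hev, hv1] with z hz hz1
    rw [← hz, div_mul_cancel₀ _ hz1]
  exact (hu.analyticOnNhd hU).eqOn_of_preconnected_of_eventuallyEq
    ((hv.const_mul _).analyticOnNhd hU) hc hz0 heq

theorem cusp_lemma {g : ℍ → ℂ} (hg : MDifferentiable 𝓘(ℂ) 𝓘(ℂ) g) (hne : ∃ τ, g τ ≠ 0)
    {N : ℝ} (hN : 0 < N) (hper : ∀ τ : ℍ, ‖g (N +ᵥ τ)‖ = ‖g τ‖) {C M : ℝ}
    (hgr : ∀ τ : ℍ, 1 ≤ τ.im → ‖g τ‖ ≤ C * Real.exp (M * τ.im)) :
    ∃ (l : ℝ) (P : ℂ → ℂ), DifferentiableOn ℂ P (Metric.ball 0 1) ∧ P 0 ≠ 0 ∧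
      ∀ τ : ℍ, ‖g τ‖ = Real.exp (-l * τ.im) * ‖P (Function.Periodic.qParam N τ)‖ := by
  obtain ⟨τ0, hτ0⟩ := hne
  have hG : DifferentiableOn ℂ (g ∘ ofComplex) {z | 0 < z.im} := mdifferentiable_iff.1 hg
  have hUo : IsOpen {z : ℂ | 0 < z.im} := isOpen_upperHalfPlaneSet
  have hUc : IsPreconnected {z : ℂ | 0 < z.im} := (convex_halfSpace_im_gt 0).isPreconnected
  have him : ∀ z : ℂ, (z + (N : ℂ)).im = z.im := fun z => by simp
  have hsh : ∀ (z : ℂ) (hz : 0 < z.im), ofComplex (z + (N : ℂ)) = N +ᵥ ofComplex z := fun z hz => by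
    rw [ofComplex_apply_of_im_pos hz, ofComplex_apply_of_im_pos (by rw [him]; exact hz)]
    ext
    simp [add_comm]
  have hG' : DifferentiableOn ℂ (fun z => (g ∘ ofComplex) (z + (N : ℂ))) {z | 0 < z.im} := by
    refine hG.comp (by fun_prop) fun z hz => ?_
    show 0 < (z + (N : ℂ)).im
    rw [him]
    exact hz
  obtain ⟨ω, hω, hω'⟩ := unit_ratio hUo hUc hG' hG (fun z hz => by
    show ‖g (ofComplex (z + (N : ℂ)))‖ = ‖g (ofComplex z)‖
    rw [hsh z hz]
    exact hper _) ⟨(τ0 : ℂ), τ0.im_pos, by simpa using hτ0⟩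
  obtain ⟨θ, hθ⟩ := (Complex.norm_eq_one_iff ω).1 hω
  -- the exponent
  obtain ⟨L, hL⟩ := exists_nat_ge ((M * N + θ) / (2 * Real.pi))
  have hpi := Real.pi_pos
  have hL' : M * N + θ ≤ 2 * Real.pi * L := by
    rw [div_le_iff₀ (by positivity)] at hL
    linarith
  obtain ⟨c, hc⟩ : ∃ c : ℝ, c = (2 * Real.pi * L - θ) / N := ⟨_, rfl⟩
  have hcM : M ≤ c := by
    rw [hc, le_div_iff₀ hN]
    linarith
  have hcN : c * N = 2 * Real.pi * L - θ := by
    rw [hc, div_mul_cancel₀ _ hN.ne']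
  obtain ⟨f, hf⟩ : ∃ f : ℍ → ℂ, f = fun τ => g τ * Complex.exp (Complex.I * c * τ) := ⟨_, rfl⟩
  have hfG : ∀ z : ℂ, 0 < z.im → (f ∘ ofComplex) z = (g ∘ ofComplex) z * Complex.exp (Complex.I * c * z) := by
    intro z hz
    rw [hf]
    show g (ofComplex z) * Complex.exp (Complex.I * c * (ofComplex z : ℂ)) = _
    rw [ofComplex_apply_of_im_pos hz]
    simp [ofComplex_apply_of_im_pos hz]
  have hnexp : ∀ τ : ℍ, ‖Complex.exp (Complex.I * c * τ)‖ = Real.exp (-(c * τ.im)) := by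
    intro τ
    rw [Complex.norm_exp]
    congr 1
    simp
  have hnf : ∀ τ : ℍ, ‖f τ‖ = ‖g τ‖ * Real.exp (-(c * τ.im)) := by
    intro τ
    rw [hf]
    show ‖g τ * Complex.exp (Complex.I * c * τ)‖ = _
    rw [norm_mul, hnexp]
  have hfhol : MDifferentiable 𝓘(ℂ) 𝓘(ℂ) f := by
    rw [mdifferentiable_iff]
    exact (hG.mul (by fun_prop : DifferentiableOn ℂ (fun z => Complex.exp (Complex.I * c * z)) _)).congr
      fun z hz => hfG z hz
  have hfper : Function.Periodic (f ∘ ofComplex) N := by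
    intro z
    by_cases hz : 0 < z.im
    · have hz' : 0 < (z + (N : ℂ)).im := by rw [him]; exact hz
      rw [hfG z hz, hfG _ hz']
      have e1 : (g ∘ ofComplex) (z + (N : ℂ)) = ω * (g ∘ ofComplex) z := hω' z hz
      rw [e1]
      have e2 : Complex.I * c * (z + (N : ℂ)) = Complex.I * c * z + ((L : ℂ) * (2 * Real.pi * Complex.I) - θ * Complex.I) := by
        have : (c : ℂ) * N = 2 * Real.pi * L - θ := by exact_mod_cast hcN
        linear_combination Complex.I * this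
      rw [e2, Complex.exp_add, Complex.exp_sub, Complex.exp_nat_mul_two_pi_mul_I, hθ]
      have hω0 : ω ≠ 0 := by
        intro h0
        rw [h0, norm_zero] at hω
        exact zero_ne_one hω
      field_simp
    · have hz' : (z + (N : ℂ)).im ≤ 0 := by rw [him]; exact not_lt.1 hz
      show f (ofComplex (z + (N : ℂ))) = f (ofComplex z)
      rw [ofComplex_apply_of_im_nonpos hz', ofComplex_apply_of_im_nonpos (not_lt.1 hz)]
  have hfbd : IsBoundedAtImInfty f := by
    rw [isBoundedAtImInfty_iff]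
    refine ⟨C, 1, fun τ hτ => ?_⟩
    rw [hnf]
    have h1 := hgr τ hτ
    have h2 : 0 ≤ C := by
      have h3 := (norm_nonneg _).trans h1
      by_contra hC
      have h4 := Real.exp_pos (M * τ.im)
      nlinarith
    calc ‖g τ‖ * Real.exp (-(c * τ.im)) ≤ C * Real.exp (M * τ.im) * Real.exp (-(c * τ.im)) :=
          mul_le_mul_of_nonneg_right h1 (Real.exp_pos _).le
      _ = C * Real.exp ((M - c) * τ.im) := by
          rw [mul_assoc, ← Real.exp_add]
          congr 2
          ring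
      _ ≤ C * 1 := by
          refine mul_le_mul_of_nonneg_left (Real.exp_le_one_iff.2 ?_) h2
          nlinarith [τ.im_pos]
      _ = C := mul_one C
  obtain ⟨Q, hQ⟩ : ∃ Q, Q = cuspFunction N f := ⟨_, rfl⟩
  have hQd : DifferentiableOn ℂ Q (Metric.ball 0 1) := by
    rw [hQ]
    exact differentiableOn_cuspFunction_ball hN hfper hfhol hfbd
  have hQe : ∀ τ : ℍ, Q (Function.Periodic.qParam N τ) = f τ := fun τ => by
    rw [hQ]
    exact eq_cuspFunction τ hN.ne' hfper
  have hball : Metric.ball (0 : ℂ) 1 ∈ 𝓝 (0 : ℂ) := Metric.ball_mem_nhds _ one_pos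
  have hQan : AnalyticAt ℂ Q 0 := hQd.analyticAt hball
  have hqb : ∀ τ : ℍ, Function.Periodic.qParam N τ ∈ Metric.ball (0 : ℂ) 1 := fun τ => by
    rw [mem_ball_zero_iff]
    exact Function.Periodic.norm_qParam_lt_one hN τ.im_pos
  have hQ0 : ¬ ∀ᶠ z in 𝓝 (0 : ℂ), Q z = 0 := by
    intro hcon
    have h1 := (hQd.analyticOnNhd Metric.isOpen_ball).eqOn_zero_of_preconnected_of_eventuallyEq_zero
      (convex_ball (0 : ℂ) 1).isPreconnected (Metric.mem_ball_self one_pos) hcon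
    have h2 := h1 (hqb τ0)
    rw [hQe] at h2
    have h3 := hnf τ0
    rw [show f τ0 = 0 from h2, norm_zero] at h3
    have h4 : 0 < ‖g τ0‖ * Real.exp (-(c * τ0.im)) := mul_pos (norm_pos_iff.2 hτ0) (Real.exp_pos _)
    linarith
  obtain ⟨p, P0, hP0an, hP0, hP0e⟩ := hQan.exists_eventuallyEq_pow_smul_nonzero_iff.2 hQ0
  obtain ⟨P, hP⟩ : ∃ P : ℂ → ℂ, P = fun z => if z = 0 then P0 0 else Q z / z ^ p := ⟨_, rfl⟩
  have hPz : P 0 = P0 0 := by
    rw [hP]
    simp
  have hPnz : ∀ z, z ≠ 0 → P z = Q z / z ^ p := fun z hz => by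
    rw [hP]
    simp [hz]
  have hQP : ∀ z, z ≠ 0 → Q z = z ^ p * P z := fun z hz => by
    rw [hPnz z hz, mul_div_cancel₀ _ (pow_ne_zero p hz)]
  refine ⟨2 * Real.pi * p / N - c, P, ?_, by rwa [hPz], ?_⟩
  · intro z hz
    refine DifferentiableAt.differentiableWithinAt ?_
    by_cases h0 : z = 0
    · rw [h0]
      refine hP0an.differentiableAt.congr_of_eventuallyEq ?_
      filter_upwards [hP0e] with w hw
      by_cases hw0 : w = 0
      · rw [hw0, hPz]
      · rw [hPnz w hw0, hw, sub_zero, smul_eq_mul, mul_div_cancel_left₀ _ (pow_ne_zero p hw0)]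
    · have h1 : DifferentiableAt ℂ (fun w => Q w / w ^ p) z :=
        (hQd.differentiableAt (Metric.isOpen_ball.mem_nhds hz)).div (by fun_prop) (pow_ne_zero p h0)
      refine h1.congr_of_eventuallyEq ?_
      filter_upwards [isOpen_ne.mem_nhds h0] with w hw
      exact hPnz w hw
  · intro τ
    have h1 : ‖f τ‖ = ‖Function.Periodic.qParam N τ‖ ^ p * ‖P (Function.Periodic.qParam N τ)‖ := by
      rw [← hQe, hQP _ (Function.Periodic.qParam_ne_zero _), norm_mul, norm_pow]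
    rw [hnf, Function.Periodic.norm_qParam, ← Real.exp_nat_mul] at h1
    have h2 : ‖g τ‖ = (‖g τ‖ * Real.exp (-(c * τ.im))) * Real.exp (c * τ.im) := by
      rw [mul_assoc, ← Real.exp_add]
      simp
    rw [h2, h1, mul_right_comm, ← Real.exp_add]
    congr 2
    rw [UpperHalfPlane.coe_im]
    field_simp
    ring

end H93GS
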