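import Mathlib

/-!
# Graph series and modular forms (MP_b63d87_nt): definitions
-/

set_option autoImplicit false

namespace H93GS

open Finset UpperHalfPlane
open scoped MatrixGroups Manifold

/-- the finite product `(1 - q) (1 - q ^ 2) ⋯ (1 - q ^ n)` -/
def qp {R : Type} [CommRing R] (q : R) (n : ℕ) : R := ∏ j ∈ range n, (1 - q ^ (j + 1))

/-- the infinite product `(1 - q) (1 - q ^ 2) ⋯` -/
noncomputable def qinf (q : ℂ) : ℂ := ∏' j : ℕ, (1 - q ^ (j + 1))

/-- the sum of `n i * n j` over the edges of the graph; each edge is counted once -/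
def edgeSum {r : ℕ} (Γ : SimpleGraph (Fin r)) [DecidableRel Γ.Adj] (n : Fin r → ℕ) : ℕ :=
  ∑ i, ∑ j, if i < j ∧ Γ.Adj i j then n i * n j else 0

/-- the graph series `∑ q ^ (∑ n i n j + ∑ n i) / ((q)_{n 1} ⋯ (q)_{n r})` -/
noncomputable def graphSeries {r : ℕ} (Γ : SimpleGraph (Fin r)) [DecidableRel Γ.Adj] (q : ℂ) : ℂ :=
  ∑' n : Fin r → ℕ, q ^ (edgeSum Γ n + ∑ i, n i) / ∏ i, qp q (n i)

/-- `f` is a weakly holomorphic modular form of weight `k` with a unitary multiplier system on a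
finite index subgroup of `SL(2, ℤ)`: it is holomorphic on the upper half-plane, transforms with the
multiplier `v` under the subgroup, and has at most exponential growth at every cusp (that is, it is
meromorphic at the cusps). -/
def IsModularForm (k : ℝ) (f : ℍ → ℂ) : Prop :=
  MDifferentiable 𝓘(ℂ) 𝓘(ℂ) f ∧
  (∃ (Δ : Subgroup SL(2, ℤ)) (v : SL(2, ℤ) → ℂ), Δ.FiniteIndex ∧ (∀ γ ∈ Δ, ‖v γ‖ = 1) ∧
    ∀ γ ∈ Δ, ∀ τ : ℍ, f (γ • τ) = v γ * denom γ τ ^ (k : ℂ) * f τ) ∧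
  ∀ δ : SL(2, ℤ), ∃ C M : ℝ, ∀ τ : ℍ, 1 ≤ τ.im →
    ‖f (δ • τ)‖ ≤ C * ‖denom δ τ‖ ^ k * Real.exp (M * τ.im)

/-- the linear forms `m s = ∑ n a` over the neighbours `a` of `s` -/
def mm {A B : Type} [Fintype A] (adj : A → B → Prop) [∀ a s, Decidable (adj a s)] (n : A → ℕ)
    (s : B) : ℕ := ∑ a, if adj a s then n a else 0

/-- the terms of the reduced series -/
def gt {A B : Type} [Fintype A] [Fintype B] {R : Type} [Field R] (adj : A → B → Prop)
    [∀ a s, Decidable (adj a s)] (E : (A → ℕ) → ℕ) (q : R) (n : A → ℕ) : R :=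
  q ^ (E n + ∑ a, n a) * (∏ s, qp q (mm adj n s)) / ∏ a, qp q (n a)

end H93GS
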