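import Pool.Agent.H93.GS.Defs

/-!
# GS Eta: the absolute value of the eta function (MP_b63d87_nt, helper93)

`norm_eta_smul`: `ModularForm.discriminant` is `η^24` and has weight 12 for `T` and `S`
(`ModularForm.discriminant_T_invariant`, `discriminant_S_invariant`, or the modular form version in
`Mathlib/NumberTheory/ModularForms/Delta.lean` / `Discriminant.lean`), hence for all of `SL(2, ℤ)`:
`|η (γ τ)|^24 = |denom γ τ|^12 |η τ|^24`; take 24th roots of nonnegative numbers.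
`norm_eta_le`: `|η τ| ≤ ∏ (1 + |q|^(n+1)) ≤ exp (∑ |q|^(n+1))` with `|q| ≤ exp (-2π)` for `Im τ ≥ 1`.
`eta_mdiff`: `ModularForm.differentiableAt_eta_of_mem_upperHalfPlaneSet`, `UpperHalfPlane.mdifferentiable_iff`.
-/

set_option autoImplicit false

namespace H93GS

open UpperHalfPlane
open scoped MatrixGroups Manifold

private theorem eta_disc (γ : SL(2, ℤ)) (τ : ℍ) :
    ModularForm.eta ((γ • τ : ℍ) : ℂ) ^ 24 = denom γ τ ^ (12 : ℤ) * ModularForm.eta (τ : ℂ) ^ 24 := by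
  have h1 := SlashInvariantForm.slash_action_generators_SL2Z ModularForm.discriminant_S_invariant
    ModularForm.discriminant_T_invariant γ
  have h2 := congrFun h1 τ
  rw [ModularForm.SL_slash_apply] at h2
  have h3 : denom γ τ ≠ 0 := denom_ne_zero γ τ
  have h4 : ModularForm.discriminant (γ • τ) = denom γ τ ^ (12 : ℤ) * ModularForm.discriminant τ := by
    rw [← h2, mul_comm, mul_assoc, ← zpow_add₀ h3]
    simp
  exact h4

theorem norm_eta_smul (γ : SL(2, ℤ)) (τ : ℍ) :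
    ‖ModularForm.eta ((γ • τ : ℍ) : ℂ)‖ =
      ‖denom γ τ‖ ^ (1 / 2 : ℝ) * ‖ModularForm.eta (τ : ℂ)‖ := by
  have h1 := congrArg norm (eta_disc γ τ)
  rw [norm_pow, norm_mul, norm_zpow, norm_pow] at h1
  have h2 : ‖denom γ τ‖ ^ (12 : ℤ) = (‖denom γ τ‖ ^ (1 / 2 : ℝ)) ^ 24 := by
    rw [← Real.rpow_natCast, ← Real.rpow_mul (norm_nonneg _)]
    norm_num
  rw [h2, ← mul_pow] at h1
  exact (pow_left_inj₀ (norm_nonneg _) (by positivity) (by norm_num)).1 h1

theorem eta_eq (τ : ℍ) : ModularForm.eta (τ : ℂ) =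
    Complex.exp (2 * Real.pi * Complex.I * (τ : ℂ) / 24) *
      qinf (Complex.exp (2 * Real.pi * Complex.I * (τ : ℂ))) := by
  unfold ModularForm.eta qinf
  congr 1
  refine tprod_congr fun n => ?_
  rw [ModularForm.eta_q_eq_pow]

theorem eta_mdiff (m : ℕ) :
    MDifferentiable 𝓘(ℂ) 𝓘(ℂ) fun τ : ℍ => ModularForm.eta (τ : ℂ) ^ m := by
  rw [UpperHalfPlane.mdifferentiable_iff]
  have h1 : DifferentiableOn ℂ (fun z : ℂ => ModularForm.eta z ^ m) {z | 0 < z.im} := fun z hz =>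
    ((ModularForm.differentiableAt_eta_of_mem_upperHalfPlaneSet hz).pow m).differentiableWithinAt
  refine h1.congr fun z hz => ?_
  show ModularForm.eta ((ofComplex z : ℍ) : ℂ) ^ m = _
  rw [ofComplex_apply_of_im_pos hz]

theorem norm_eta_le : ∃ C : ℝ, ∀ τ : ℍ, 1 ≤ τ.im → ‖ModularForm.eta (τ : ℂ)‖ ≤ C := by
  refine ⟨Real.exp 2, fun τ hτ => ?_⟩
  rw [eta_eq, norm_mul]
  have hpi : (3 : ℝ) < Real.pi := Real.pi_gt_three
  have hn1 : ‖Complex.exp (2 * Real.pi * Complex.I * (τ : ℂ) / 24)‖ ≤ 1 := by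
    rw [Complex.norm_exp]
    have h1 : (2 * Real.pi * Complex.I * (τ : ℂ) / 24).re = -(2 * Real.pi * τ.im / 24) := by
      have h2 : (2 * Real.pi * Complex.I * (τ : ℂ) / 24) = ((2 * Real.pi / 24 : ℝ) : ℂ) * (Complex.I * (τ : ℂ)) := by
        push_cast
        ring
      rw [h2, Complex.re_ofReal_mul]
      simp
      ring
    rw [h1, Real.exp_le_one_iff]
    have : 0 ≤ 2 * Real.pi * τ.im / 24 := by positivity
    linarith
  set q := Complex.exp (2 * Real.pi * Complex.I * (τ : ℂ)) with hq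
  have hq1 : ‖q‖ ≤ 1 / 2 := by
    rw [hq, Complex.norm_exp]
    have h1 : (2 * Real.pi * Complex.I * (τ : ℂ)).re = -(2 * Real.pi * τ.im) := by
      have h2 : (2 * Real.pi * Complex.I * (τ : ℂ)) = ((2 * Real.pi : ℝ) : ℂ) * (Complex.I * (τ : ℂ)) := by
        push_cast
        ring
      rw [h2, Complex.re_ofReal_mul]
      simp
    rw [h1]
    have h3 : Real.exp (-(2 * Real.pi * τ.im)) ≤ Real.exp (-1) := by
      rw [Real.exp_le_exp]
      nlinarith
    have h4 : Real.exp (-1) ≤ 1 / 2 := by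
      rw [Real.exp_neg, one_div]
      exact inv_anti₀ (by norm_num) (by have := Real.exp_one_gt_d9; linarith)
    exact h3.trans h4
  have hq2 : ‖q‖ < 1 := by linarith
  have hn2 : ‖qinf q‖ ≤ Real.exp 2 := by
    have h1 : Filter.Tendsto (fun n => ∏ j ∈ Finset.range n, (1 - q ^ (j + 1))) Filter.atTop (nhds (qinf q)) :=
      (ModularForm.multipliable_one_sub_pow hq2).tendsto_prod_tprod_nat
    refine le_of_tendsto' h1.norm fun n => ?_
    rw [norm_prod]
    have h2 : ∏ j ∈ Finset.range n, ‖1 - q ^ (j + 1)‖ ≤ ∏ j ∈ Finset.range n, Real.exp (‖q‖ ^ (j + 1)) := by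
      refine Finset.prod_le_prod (fun _ _ => norm_nonneg _) fun j _ => ?_
      calc ‖1 - q ^ (j + 1)‖ ≤ ‖(1 : ℂ)‖ + ‖q ^ (j + 1)‖ := norm_sub_le _ _
        _ = ‖q‖ ^ (j + 1) + 1 := by rw [norm_one, norm_pow, add_comm]
        _ ≤ Real.exp (‖q‖ ^ (j + 1)) := Real.add_one_le_exp _
    refine h2.trans ?_
    rw [← Real.exp_sum, Real.exp_le_exp]
    have h3 : ∑ j ∈ Finset.range n, ‖q‖ ^ (j + 1) ≤ ∑' j : ℕ, ‖q‖ ^ (j + 1) := by
      have hs : Summable fun j : ℕ => ‖q‖ ^ (j + 1) :=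
        (summable_nat_add_iff 1).mpr (summable_geometric_of_lt_one (norm_nonneg _) hq2)
      exact hs.sum_le_tsum _ (fun j _ => by positivity)
    refine h3.trans ?_
    have h4 : ∑' j : ℕ, ‖q‖ ^ (j + 1) = ‖q‖ * (1 - ‖q‖)⁻¹ := by
      rw [← tsum_geometric_of_lt_one (norm_nonneg _) hq2, ← tsum_mul_left]
      refine tsum_congr fun j => ?_
      rw [pow_succ, mul_comm]
    rw [h4]
    have h5 : (1 - ‖q‖)⁻¹ ≤ 2 := by
      rw [inv_le_comm₀ (by linarith) (by norm_num)]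
      linarith
    have h6 : 0 ≤ (1 - ‖q‖)⁻¹ := inv_nonneg.2 (by linarith)
    nlinarith [norm_nonneg q]
  calc _ ≤ 1 * Real.exp 2 := mul_le_mul hn1 hn2 (norm_nonneg _) zero_le_one
    _ = Real.exp 2 := one_mul _

end H93GS
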