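import Pool.Agent.H93.GS.Per

/-!
# GS WZeroB: a function of weight zero has no poles at the cusps (MP_b63d87_nt, helper93)

`exists_c_ne_zero`: the power `N` of the lower triangular matrix `(1, 0; 1, 1)` in `Δ` has lower left entry
`N`; call it `γ₀`. If `δ 1 0 ≠ 0` take `γ = 1`, otherwise (`δ 1 1 = ± 1`) `γ = γ₀`.
`exists_expansion`: `g τ = F (δ • τ)` is holomorphic, not identically zero, `|g (N + τ)| = |g τ|`
(`exists_period`, `norm_period` with `k = 0`), of exponential growth by `hcusp`; so `cusp_lemma` gives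
`l`, `P`. It remains to show `0 ≤ l`. Let `γ ∈ Δ` be such that `δ' = γ δ` has lower row `(c, d)`, `c ≠ 0`, and
`τ = -d/c + i y`. Then `|F (δ' • τ)| = |F (δ • τ)|`, `δ' • τ = a/c + i / (c² y)` where `a = δ' 0 0`, so by
`hrat` (`x = a/c`) `|F (δ • τ)| ≤ C c^(2B) y^B` for large `y`. On the other hand it is
`exp (-l y) |P (qParam N τ)|` and `P (qParam N τ) → P 0 ≠ 0`: `l < 0` is impossible.
-/

set_option autoImplicit false

namespace H93GS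

open UpperHalfPlane Filter
open scoped MatrixGroups Manifold

/-- the lower triangular matrix `(1, 0; 1, 1)` -/
private def wzerob_L : SL(2, ℤ) := ⟨!![1, 0; 1, 1], by simp [Matrix.det_fin_two]⟩

private theorem wzerob_L_pow (n : ℕ) :
    ((wzerob_L ^ n : SL(2, ℤ)) : Matrix (Fin 2) (Fin 2) ℤ) = !![1, 0; (n : ℤ), 1] := by
  induction n with
  | zero =>
    ext i j
    fin_cases i <;> fin_cases j <;> simp
  | succ n ih =>
    rw [pow_succ, Matrix.SpecialLinearGroup.coe_mul, ih]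
    ext i j
    fin_cases i <;> fin_cases j <;> simp [wzerob_L, Matrix.mul_apply, Fin.sum_univ_two]

theorem exists_c_ne_zero {Δ : Subgroup SL(2, ℤ)} (hΔ : Δ.FiniteIndex) (δ : SL(2, ℤ)) :
    ∃ γ ∈ Δ, (γ * δ) 1 0 ≠ 0 := by
  by_cases h : δ 1 0 = 0
  · obtain ⟨n, hn, -, hmem⟩ := Subgroup.exists_pow_mem_of_index_ne_zero hΔ.index_ne_zero wzerob_L
    refine ⟨_, hmem, ?_⟩
    have h1 : (wzerob_L ^ n * δ) 1 0 = (n : ℤ) * δ 0 0 + δ 1 0 := by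
      rw [Matrix.SpecialLinearGroup.coe_mul, wzerob_L_pow]
      simp [Matrix.mul_apply, Fin.sum_univ_two]
    have h2 := δ.det_coe
    rw [Matrix.det_fin_two, h] at h2
    rw [h1, h, add_zero]
    intro h3
    rcases mul_eq_zero.1 h3 with h4 | h4
    · have : n = 0 := by exact_mod_cast h4
      omega
    · rw [h4] at h2
      simp at h2
  · exact ⟨1, Δ.one_mem, by simpa using h⟩

/-- the image of the vertical line through `-d/c` -/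
private theorem wzerob_smul (δ : SL(2, ℤ)) (hc : δ 1 0 ≠ 0) (y : ℝ) (τ : ℍ)
    (hτ : (τ : ℂ) = (((-(δ 1 1 : ℝ) / (δ 1 0 : ℝ) : ℝ)) : ℂ) + Complex.I * y) (hy : 0 < y) :
    ((δ • τ : ℍ) : ℂ) = (((δ 0 0 : ℝ) / (δ 1 0 : ℝ) : ℝ) : ℂ) +
      Complex.I * (((1 / ((δ 1 0 : ℝ) ^ 2 * y) : ℝ)) : ℂ) := by
  rw [coe_specialLinearGroup_apply, hτ]
  have hdet := δ.det_coe
  rw [Matrix.det_fin_two] at hdet
  have hdet' : ((δ 0 0 : ℤ) : ℂ) * (δ 1 1 : ℤ) - (δ 0 1 : ℤ) * (δ 1 0 : ℤ) = 1 := by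
    exact_mod_cast hdet
  have hc' : ((δ 1 0 : ℤ) : ℂ) ≠ 0 := by exact_mod_cast hc
  have hy' : (y : ℂ) ≠ 0 := by exact_mod_cast hy.ne'
  have hI : Complex.I ≠ 0 := Complex.I_ne_zero
  have hI2 : Complex.I ^ 2 = -1 := Complex.I_sq
  simp only [algebraMap_int_eq, eq_intCast, Complex.ofReal_intCast]
  push_cast
  have e1 : ((δ 1 0 : ℤ) : ℂ) * (-((δ 1 1 : ℤ) : ℂ) / ((δ 1 0 : ℤ) : ℂ) + Complex.I * y) +
      ((δ 1 1 : ℤ) : ℂ) = ((δ 1 0 : ℤ) : ℂ) * Complex.I * y := by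
    field_simp
    ring
  rw [e1, div_eq_iff (mul_ne_zero (mul_ne_zero hc' hI) hy')]
  have e2 : (((δ 0 0 : ℤ) : ℂ) / ((δ 1 0 : ℤ) : ℂ) +
      Complex.I * (1 / (((δ 1 0 : ℤ) : ℂ) ^ 2 * y))) * (((δ 1 0 : ℤ) : ℂ) * Complex.I * y) =
      ((δ 0 0 : ℤ) : ℂ) * Complex.I * y + Complex.I ^ 2 / ((δ 1 0 : ℤ) : ℂ) := by
    field_simp
  have e3 : ((δ 0 0 : ℤ) : ℂ) * (-((δ 1 1 : ℤ) : ℂ) / ((δ 1 0 : ℤ) : ℂ) + Complex.I * y) +
      ((δ 0 1 : ℤ) : ℂ) = ((δ 0 0 : ℤ) : ℂ) * Complex.I * y -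
      (((δ 0 0 : ℤ) : ℂ) * (δ 1 1 : ℤ) - (δ 0 1 : ℤ) * (δ 1 0 : ℤ)) / ((δ 1 0 : ℤ) : ℂ) := by
    field_simp
    ring
  rw [e2, e3, hdet', hI2]
  ring

private theorem wzerob_re (a b : ℝ) : ((a : ℂ) + Complex.I * (b : ℂ)).re = a := by
  simp

private theorem wzerob_im (a b : ℝ) : ((a : ℂ) + Complex.I * (b : ℂ)).im = b := by
  simp

theorem exists_expansion {F : ℍ → ℂ} (hF : MDifferentiable 𝓘(ℂ) 𝓘(ℂ) F) (hne : ∃ τ, F τ ≠ 0)
    {Δ : Subgroup SL(2, ℤ)} (hΔ : Δ.FiniteIndex)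
    (hmod : ∀ γ ∈ Δ, ∀ τ : ℍ, ‖F (γ • τ)‖ = ‖F τ‖)
    (hcusp : ∀ δ : SL(2, ℤ), ∃ C M : ℝ, ∀ τ : ℍ, 1 ≤ τ.im →
      ‖F (δ • τ)‖ ≤ C * Real.exp (M * τ.im))
    (hrat : ∀ x : ℚ, ∃ (C ε : ℝ) (B : ℕ), 0 < ε ∧ ∀ τ : ℍ, τ.re = x → τ.im ≤ ε →
      ‖F τ‖ ≤ C / τ.im ^ B) (δ : SL(2, ℤ)) :
    ∃ (N l : ℝ) (P : ℂ → ℂ), 0 < N ∧ 0 ≤ l ∧ DifferentiableOn ℂ P (Metric.ball 0 1) ∧ P 0 ≠ 0 ∧
      ∀ τ : ℍ, ‖F (δ • τ)‖ = Real.exp (-l * τ.im) * ‖P (Function.Periodic.qParam N τ)‖ := by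
  obtain ⟨N, hN, hNΔ⟩ := exists_period Δ hΔ δ
  have hN' : (0 : ℝ) < N := by exact_mod_cast hN
  have hgd : MDifferentiable 𝓘(ℂ) 𝓘(ℂ) (fun τ : ℍ => F (δ • τ)) := by
    have h2 := UpperHalfPlane.mdifferentiable_smul (g := (δ : GL (Fin 2) ℝ)) (by simp)
    exact hF.comp h2
  have hper : ∀ τ : ℍ, ‖F (δ • ((N : ℝ) +ᵥ τ))‖ = ‖F (δ • τ)‖ := by
    intro τ
    have := norm_period (F := F) (k := 0) (Δ := Δ) (fun γ hγ τ => by
      rw [Real.rpow_zero, one_mul, hmod γ hγ]) hNΔ τ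
    simpa using this
  obtain ⟨C, M, hC⟩ := hcusp δ
  have hne' : ∃ τ : ℍ, F (δ • τ) ≠ 0 := by
    obtain ⟨τ, hτ⟩ := hne
    exact ⟨δ⁻¹ • τ, by rwa [smul_inv_smul]⟩
  obtain ⟨l, P, hP, hP0, hgP⟩ := cusp_lemma hgd hne' hN' hper hC
  refine ⟨N, l, P, hN', ?_, hP, hP0, hgP⟩
  by_contra hl
  push Not at hl
  obtain ⟨γ, hγ, hc⟩ := exists_c_ne_zero hΔ δ
  set δ' := γ * δ with hδ'
  set c : ℝ := (δ' 1 0 : ℝ) with hcdef
  set x : ℝ := -(δ' 1 1 : ℝ) / c with hx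
  have hc0 : c ≠ 0 := by
    rw [hcdef]
    exact_mod_cast hc
  obtain ⟨C₁, ε, B, hε, hrb⟩ := hrat ((δ' 0 0 : ℚ) / (δ' 1 0 : ℚ))
  -- the bound on the vertical line
  have hbd : ∀ y : ℝ, ∀ hy : 0 < y, 1 / (c ^ 2 * ε) ≤ y →
      Real.exp (-l * y) * ‖P (Function.Periodic.qParam N ((x : ℂ) + Complex.I * y))‖ ≤
        C₁ * (c ^ 2 * y) ^ B := by
    intro y hy hyε
    have him : 0 < ((x : ℂ) + Complex.I * y).im := by simpa using hy
    set τ : ℍ := ⟨(x : ℂ) + Complex.I * y, him⟩ with hτ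
    have hτc : (τ : ℂ) = (x : ℂ) + Complex.I * y := rfl
    have hτim : τ.im = y := by
      rw [← UpperHalfPlane.coe_im, hτc]
      simp
    have h1 := wzerob_smul δ' hc y τ hτc hy
    have h2 : (δ' • τ : ℍ).re = (((δ' 0 0 : ℚ) / (δ' 1 0 : ℚ) : ℚ) : ℝ) := by
      rw [← UpperHalfPlane.coe_re, h1, wzerob_re]
      push_cast
      rfl
    have h3 : (δ' • τ : ℍ).im = 1 / (c ^ 2 * y) := by
      rw [← UpperHalfPlane.coe_im, h1, wzerob_im]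
    have h4 : (δ' • τ : ℍ).im ≤ ε := by
      rw [h3, div_le_iff₀ (by positivity)]
      rw [div_le_iff₀ (by positivity)] at hyε
      linarith
    have h5 := hrb _ h2 h4
    rw [hδ', mul_smul, hmod γ hγ, hgP τ, hτim] at h5
    rw [← mul_smul, ← hδ', h3, one_div, inv_pow, div_inv_eq_mul] at h5
    exact h5
  have hPc : ContinuousAt P 0 :=
    (hP.differentiableAt (Metric.ball_mem_nhds 0 one_pos)).continuousAt
  have hq : Tendsto (fun y : ℝ => Function.Periodic.qParam N ((x : ℂ) + Complex.I * y)) atTop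
      (nhds 0) := by
    rw [tendsto_zero_iff_norm_tendsto_zero]
    have h1 : Tendsto (fun y : ℝ => Real.exp (-((2 * Real.pi / N) * y))) atTop (nhds 0) := by
      refine Real.tendsto_exp_neg_atTop_nhds_zero.comp ?_
      exact tendsto_id.const_mul_atTop (by positivity)
    refine h1.congr fun y => ?_
    rw [Function.Periodic.norm_qParam]
    congr 1
    simp
    ring
  have hPq : Tendsto (fun y : ℝ => ‖P (Function.Periodic.qParam N ((x : ℂ) + Complex.I * y))‖)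
      atTop (nhds ‖P 0‖) := (hPc.tendsto.comp hq).norm
  have hP0' : 0 < ‖P 0‖ := norm_pos_iff.2 hP0
  have hlo := hPq.eventually (lt_mem_nhds (show ‖P 0‖ / 2 < ‖P 0‖ by linarith))
  have hz : Tendsto (fun y : ℝ => C₁ * (c ^ 2) ^ B * (y ^ (B : ℝ) * Real.exp (-(-l) * y))) atTop
      (nhds 0) := by
    have := (tendsto_rpow_mul_exp_neg_mul_atTop_nhds_zero (B : ℝ) (-l) (by linarith)).const_mul
      (C₁ * (c ^ 2) ^ B)
    simpa using this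
  have hlt := hz.eventually (gt_mem_nhds (show (0 : ℝ) < ‖P 0‖ / 2 by linarith))
  obtain ⟨y, ⟨h1, h2⟩, h3, h4⟩ := ((hlo.and hlt).and
    ((eventually_gt_atTop 0).and (eventually_ge_atTop (1 / (c ^ 2 * ε))))).exists
  have h5 := hbd y h3 h4
  rw [neg_neg, Real.rpow_natCast] at h2
  have h6 := mul_le_mul_of_nonneg_left h5 (Real.exp_pos (l * y)).le
  have h8 : Real.exp (l * y) * Real.exp (-l * y) = 1 := by
    rw [← Real.exp_add]
    simp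
  rw [← mul_assoc, h8, one_mul, mul_pow] at h6
  linarith

end H93GS
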