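import Mathlib

/-!
# GS WZeroC: a function of weight zero without poles is constant (MP_b63d87_nt, helper93)

Let `R` be a finite set with `SL(2, ℤ) = ⋃ Δ δ` over `δ ∈ R` (right cosets; `Δ` has finite index). For
`δ ∈ R` take `N`, `l`, `P` from `hexp` and put `φ z = ‖z‖^(l N / (2 π)) * ‖P z‖` (real power); `φ` is continuous on the
closed disc `|z| ≤ ρ = exp (-π / N)` because the exponent is `≥ 0`, and
`‖F (δ • τ)‖ = φ (qParam N τ)`, `|qParam N τ| = exp (-2 π Im τ / N)`, which is `≤ ρ` for `Im τ ≥ 1/2`. Let `z_δ` be a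
point where `φ` is maximal on the closed disc, and choose `δ ∈ R` with the largest maximum `M`.
All values of `‖F‖` are at most `M`: `τ = g • τ₀` with `τ₀` in the fundamental domain
(`ModularGroup.exists_smul_mem_fd`, `Im τ₀ ≥ √3/2 ≥ 1/2`, `ModularGroup.three_le_four_mul_im_sq_of_mem_fd`),
`g = γ δ'`, `‖F τ‖ = ‖F (δ' • τ₀)‖`. If `z_δ ≠ 0`, then `z_δ = qParam N τ` for some `τ` and
`‖F‖` has its maximum at the point `δ • τ` of the upper half-plane, so `F` is constant (maximum modulus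
principle, `Complex.eqOn_of_isPreconnected_of_isMaxOn_norm`). If `z_δ = 0` and `l > 0`, then `M = 0` and `F = 0`. If `z_δ = 0`
and `l = 0`, then `‖P z‖ ≤ M = ‖P 0‖` on the unit disc (for `z ≠ 0` it is a value of `‖F‖`), so `P` is
constant on the disc and `‖F (δ • τ)‖ = M` for every `τ`: again `‖F‖` has a maximum in the upper
half-plane.
-/

set_option autoImplicit false

namespace H93GS

open UpperHalfPlane Filter
open scoped MatrixGroups Manifold

theorem const_of_max {F : ℍ → ℂ} (hF : MDifferentiable 𝓘(ℂ) 𝓘(ℂ) F) {τ₀ : ℍ}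
    (h : ∀ τ, ‖F τ‖ ≤ ‖F τ₀‖) : ∀ τ, F τ = F τ₀ := by
  rw [UpperHalfPlane.mdifferentiable_iff] at hF
  have hc : IsPreconnected {z : ℂ | 0 < z.im} :=
    (convex_halfSpace_im_gt 0).isPreconnected
  have hm : IsMaxOn (norm ∘ (F ∘ ofComplex)) {z : ℂ | 0 < z.im} (τ₀ : ℂ) := by
    intro z hz
    simp only [Function.comp_apply, Set.mem_ofPred_eq, ofComplex_apply]
    exact h _
  have h1 := Complex.eqOn_of_isPreconnected_of_isMaxOn_norm hc
    (isOpen_lt continuous_const Complex.continuous_im) hF τ₀.im_pos hm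
  intro τ
  have h2 := h1 (x := (τ : ℂ)) τ.im_pos
  simpa [ofComplex_apply] using h2

theorem wzeroc_reps {Δ : Subgroup SL(2, ℤ)} (g : SL(2, ℤ)) :
    ∃ (q : SL(2, ℤ) ⧸ Δ), ∃ γ ∈ Δ, g = γ * (Quotient.out q)⁻¹ := by
  refine ⟨(QuotientGroup.mk g⁻¹ : SL(2, ℤ) ⧸ Δ), g * Quotient.out (QuotientGroup.mk g⁻¹ : SL(2, ℤ) ⧸ Δ), ?_, ?_⟩
  · have h1 : (QuotientGroup.mk (Quotient.out (QuotientGroup.mk g⁻¹ : SL(2, ℤ) ⧸ Δ)) :
        SL(2, ℤ) ⧸ Δ) = QuotientGroup.mk g⁻¹ := QuotientGroup.out_eq' _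
    have h2 := QuotientGroup.eq.1 h1.symm
    simpa using h2
  · group

theorem wzeroc_qParam {N l : ℝ} (hN : 0 < N) (τ : ℍ) :
    ‖Function.Periodic.qParam N (τ : ℂ)‖ ^ (l * N / (2 * Real.pi)) = Real.exp (-l * τ.im) := by
  rw [Function.Periodic.norm_qParam, ← Real.exp_mul]
  congr 1
  have := Real.pi_pos
  rw [UpperHalfPlane.coe_im]
  field_simp

theorem wzeroc_exists_tau {N : ℝ} (hN : 0 < N) {z : ℂ} (hz : z ≠ 0) (hz1 : ‖z‖ < 1) :
    ∃ τ : ℍ, Function.Periodic.qParam N (τ : ℂ) = z := by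
  have him : 0 < (Function.Periodic.invQParam N z).im := by
    rw [Function.Periodic.im_invQParam]
    have h1 : Real.log ‖z‖ < 0 := Real.log_neg (norm_pos_iff.2 hz) hz1
    have h2 : 0 < N / (2 * Real.pi) := by positivity
    have h3 : -N / (2 * Real.pi) * Real.log ‖z‖ = N / (2 * Real.pi) * (-Real.log ‖z‖) := by ring
    rw [h3]
    exact mul_pos h2 (neg_pos.2 h1)
  exact ⟨⟨_, him⟩, Function.Periodic.qParam_right_inv hN.ne' hz⟩

theorem const_of_expansion {F : ℍ → ℂ} (hF : MDifferentiable 𝓘(ℂ) 𝓘(ℂ) F)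
    {Δ : Subgroup SL(2, ℤ)} (hΔ : Δ.FiniteIndex)
    (hmod : ∀ γ ∈ Δ, ∀ τ : ℍ, ‖F (γ • τ)‖ = ‖F τ‖)
    (hexp : ∀ δ : SL(2, ℤ), ∃ (N l : ℝ) (P : ℂ → ℂ), 0 < N ∧ 0 ≤ l ∧
      DifferentiableOn ℂ P (Metric.ball 0 1) ∧ P 0 ≠ 0 ∧
      ∀ τ : ℍ, ‖F (δ • τ)‖ = Real.exp (-l * τ.im) * ‖P (Function.Periodic.qParam N τ)‖) :
    ∀ τ τ' : ℍ, F τ = F τ' := by
  suffices h : ∃ τ₀, ∀ τ, ‖F τ‖ ≤ ‖F τ₀‖ by
    obtain ⟨τ₀, h⟩ := h
    intro τ τ'
    rw [const_of_max hF h τ, const_of_max hF h τ']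
  choose N l P hN hl hP hP0 hE using hexp
  have hfin : Finite (SL(2, ℤ) ⧸ Δ) := Subgroup.finite_quotient_of_finiteIndex
  set φ : SL(2, ℤ) → ℂ → ℝ := fun δ z => ‖z‖ ^ (l δ * N δ / (2 * Real.pi)) * ‖P δ z‖ with hφ
  set ρ : SL(2, ℤ) → ℝ := fun δ => Real.exp (-Real.pi / N δ) with hρ
  have hρ0 : ∀ δ, 0 < ρ δ := fun δ => Real.exp_pos _
  have hρ1 : ∀ δ, ρ δ < 1 := fun δ => by
    rw [hρ]
    refine Real.exp_lt_one_iff.2 ?_
    have := hN δ
    have := Real.pi_pos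
    rw [neg_div]
    exact neg_neg_of_pos (by positivity)
  have hval : ∀ δ (τ : ℍ), ‖F (δ • τ)‖ = φ δ (Function.Periodic.qParam (N δ) τ) := by
    intro δ τ
    rw [hE δ τ, hφ]
    simp only
    rw [wzeroc_qParam (hN δ)]
  have hcont : ∀ δ, ContinuousOn (φ δ) (Metric.closedBall 0 (ρ δ)) := by
    intro δ
    refine ContinuousOn.mul ?_ ?_
    · refine (Continuous.rpow_const continuous_norm fun x => Or.inr ?_).continuousOn
      have := hN δ
      have := hl δ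
      positivity
    · exact ((hP δ).continuousOn.mono fun z hz => by
        rw [Metric.mem_closedBall] at hz
        rw [Metric.mem_ball]
        exact hz.trans_lt (hρ1 δ)).norm
  have hmax : ∀ δ, ∃ z ∈ Metric.closedBall (0 : ℂ) (ρ δ), ∀ z' ∈ Metric.closedBall (0 : ℂ) (ρ δ),
      φ δ z' ≤ φ δ z := by
    intro δ
    obtain ⟨z, hz, hz'⟩ := (isCompact_closedBall (0 : ℂ) (ρ δ)).exists_isMaxOn
      ⟨0, Metric.mem_closedBall_self (hρ0 δ).le⟩ (hcont δ)
    exact ⟨z, hz, fun z' h' => hz' h'⟩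
  choose ζ hζ hζ' using hmax
  obtain ⟨q, hq⟩ := Finite.exists_max fun q : SL(2, ℤ) ⧸ Δ =>
    φ (Quotient.out q)⁻¹ (ζ (Quotient.out q)⁻¹)
  set δ := (Quotient.out q)⁻¹ with hδ
  have hbd : ∀ τ, ‖F τ‖ ≤ φ δ (ζ δ) := by
    intro τ
    obtain ⟨g, hg⟩ := ModularGroup.exists_smul_mem_fd τ
    obtain ⟨q', γ, hγ, hgg⟩ := wzeroc_reps (Δ := Δ) g⁻¹
    have h1 : τ = γ • ((Quotient.out q')⁻¹ • (g • τ)) := by
      rw [smul_smul, ← hgg, smul_smul, inv_mul_cancel, one_smul]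
    rw [h1, hmod γ hγ, hval]
    refine le_trans (hζ' _ _ ?_) (hq q')
    rw [Metric.mem_closedBall, dist_zero_right, Function.Periodic.norm_qParam, hρ]
    refine Real.exp_le_exp.2 ?_
    have h2 := ModularGroup.three_le_four_mul_im_sq_of_mem_fd hg
    have h3 : 1 / 2 ≤ (g • τ).im := by
      by_contra h4
      push Not at h4
      nlinarith [(g • τ).im_pos]
    rw [UpperHalfPlane.coe_im]
    refine div_le_div_of_nonneg_right ?_ (hN _).le
    nlinarith [Real.pi_pos]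
  by_cases h0 : ζ δ = 0
  · rcases (hl δ).eq_or_lt with hl0 | hl0
    · -- the exponent is zero
      have e1 : ∀ z, φ δ z = ‖P δ z‖ := by
        intro z
        rw [hφ]
        simp [← hl0]
      have h1 : ∀ z ∈ Metric.ball (0 : ℂ) 1, ‖P δ z‖ ≤ ‖P δ 0‖ := by
        intro z hz
        by_cases hz0 : z = 0
        · rw [hz0]
        · obtain ⟨τ, hτ⟩ := wzeroc_exists_tau (hN δ) hz0 (by simpa using hz)
          have h2 := hbd (δ • τ)
          rw [hval, hτ, h0, e1, e1] at h2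
          exact h2
      have h2 := Complex.eqOn_of_isPreconnected_of_isMaxOn_norm
        (convex_ball (0 : ℂ) 1).isPreconnected Metric.isOpen_ball (hP δ)
        (Metric.mem_ball_self one_pos) (c := (0 : ℂ)) (fun z hz => h1 z hz)
      refine ⟨δ • UpperHalfPlane.I, fun τ => (hbd τ).trans ?_⟩
      rw [hval, e1, e1, h0]
      have h3 := h2 (x := Function.Periodic.qParam (N δ) (UpperHalfPlane.I : ℂ)) (by
        rw [Metric.mem_ball, dist_zero_right]
        exact Function.Periodic.norm_qParam_lt_one (hN δ) (by simp))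
      rw [h3]
      rfl
    · refine ⟨UpperHalfPlane.I, fun τ => (hbd τ).trans ?_⟩
      rw [h0, hφ]
      simp only [norm_zero]
      rw [Real.zero_rpow, zero_mul]
      · exact norm_nonneg _
      · have := hN δ
        positivity
  · obtain ⟨τ, hτ⟩ := wzeroc_exists_tau (hN δ) h0 (by
      have := hζ δ
      rw [Metric.mem_closedBall, dist_zero_right] at this
      exact this.trans_lt (hρ1 δ))
    refine ⟨δ • τ, fun τ' => (hbd τ').trans ?_⟩
    rw [hval, hτ]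

end H93GS
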