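import Pool.Agent.H93.GS.WZeroA
import Pool.Agent.H93.GS.WZeroB
import Pool.Agent.H93.GS.WZeroC
import Pool.Agent.H93.GS.Comb
import Pool.Agent.H93.GS.RealSer
import Pool.Agent.H93.GS.Eta
import Pool.Agent.H93.GS.Bip

/-!
# Graph series of Koenig-Egervary graphs are not modular
-/

set_option autoImplicit false

namespace H93GS

open Finset UpperHalfPlane Filter Topology
open scoped MatrixGroups Manifold

/-- the variable `q` at a point of the upper half-plane -/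
noncomputable def qe (τ : ℍ) : ℂ := Complex.exp (2 * Real.pi * Complex.I * (τ : ℂ))

theorem norm_qe (τ : ℍ) : ‖qe τ‖ = Real.exp (-(2 * Real.pi * τ.im)) := by
  unfold qe
  rw [Complex.norm_exp]
  congr 1
  simp [Complex.mul_re, Complex.mul_im, mul_assoc]

theorem norm_qe_lt (τ : ℍ) : ‖qe τ‖ < 1 := by
  rw [norm_qe, Real.exp_lt_one_iff]
  have := τ.im_pos
  have := Real.pi_pos
  have : 0 < 2 * Real.pi * τ.im := by positivity
  linarith

theorem qe_real {τ : ℍ} (h : τ.re = 0) : qe τ = ((Real.exp (-(2 * Real.pi * τ.im)) : ℝ) : ℂ) := by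
  unfold qe
  rw [Complex.ofReal_exp]
  congr 1
  have h1 : (τ : ℂ) = τ.im * Complex.I := by
    apply Complex.ext
    · simp only [UpperHalfPlane.coe_re, h]
      simp
    · simp
  rw [h1]
  push_cast
  linear_combination (2 * Real.pi * τ.im : ℂ) * Complex.I_sq

theorem qe_rat {τ : ℍ} {x : ℝ} (h : τ.re = x) :
    qe τ = qz (Complex.exp (2 * Real.pi * Complex.I * x)) (2 * Real.pi * τ.im) := by
  unfold qe qz
  rw [Complex.ofReal_exp, ← Complex.exp_add]
  congr 1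
  have h1 : (τ : ℂ) = x + τ.im * Complex.I := by
    apply Complex.ext
    · simp only [UpperHalfPlane.coe_re, h]
      simp
    · simp
  rw [h1]
  push_cast
  linear_combination (2 * Real.pi * τ.im : ℂ) * Complex.I_sq

theorem root_of_rat (x : ℚ) :
    Complex.exp (2 * Real.pi * Complex.I * ((x : ℝ) : ℂ)) ^ x.den = 1 := by
  rw [← Complex.exp_nat_mul]
  have h1 : (x.den : ℂ) * (2 * Real.pi * Complex.I * ((x : ℝ) : ℂ)) =
      x.num * (2 * Real.pi * Complex.I) := by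
    have h2 : ((x : ℝ) : ℂ) * x.den = x.num := by
      have h3 : x * x.den = x.num := Rat.mul_den_eq_num x
      have h4 : ((x : ℚ) : ℝ) * (x.den : ℝ) = (x.num : ℝ) := by exact_mod_cast h3
      exact_mod_cast h4
    linear_combination (2 * Real.pi * Complex.I : ℂ) * h2
  rw [h1, Complex.exp_int_mul_two_pi_mul_I]

/-- the limit argument at infinity -/
theorem lim_aux {c a : ℝ} (hc : 0 < c) (h1 : ∀ y : ℝ, 0 < y → 1 < c * Real.exp (a * y))
    (h2 : Tendsto (fun y : ℝ => c * Real.exp (a * y)) atTop (𝓝 1)) : False := by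
  rcases lt_trichotomy a 0 with ha | ha | ha
  · have h3 : Tendsto (fun y : ℝ => c * Real.exp (a * y)) atTop (𝓝 (c * 0)) := by
      refine Tendsto.const_mul _ (Real.tendsto_exp_atBot.comp ?_)
      exact tendsto_id.const_mul_atTop_of_neg ha
    have h4 := tendsto_nhds_unique h2 h3
    simp at h4
  · subst ha
    simp only [zero_mul, Real.exp_zero, mul_one] at h1 h2
    have h3 := tendsto_nhds_unique h2 tendsto_const_nhds
    have h4 := h1 1 one_pos
    linarith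
  · have h3 : Tendsto (fun y : ℝ => c * Real.exp (a * y)) atTop atTop := by
      refine Tendsto.const_mul_atTop hc (Real.tendsto_exp_atTop.comp ?_)
      exact tendsto_id.const_mul_atTop ha
    exact not_tendsto_atTop_of_tendsto_nhds h2 h3

section

variable {r : ℕ} (Γ : SimpleGraph (Fin r)) [DecidableRel Γ.Adj] (S : Finset (Fin r))

/-- the reduced series -/
noncomputable def GG (q : ℂ) : ℂ := ∑' n : AA S → ℕ, gt (adjS Γ S) (EA Γ S) q n

theorem GG_real (q : ℝ) :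
    GG Γ S (q : ℂ) = ((∑' n : AA S → ℕ, gt (adjS Γ S) (EA Γ S) q n : ℝ) : ℂ) := by
  unfold GG
  rw [Complex.ofReal_tsum]
  exact tsum_congr fun n => (gt_cast _ _ q n).symm

theorem main_aux (b : AA S → BB S) (hb : Function.Injective b) (hadj : ∀ a, adjS Γ S a (b a))
    (hS : ∀ i ∈ S, ∀ j ∈ S, ¬ Γ.Adj i j) (hne : Nonempty (AA S))
    (h2 : ∀ T, Good (adjS Γ S) (fun a a' => Γ.Adj a.1 a'.1) b T → ∀ a ∈ T,
      ¬ Good (adjS Γ S) (fun a a' => Γ.Adj a.1 a'.1) b (T.erase a)) (a k : ℝ)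
    (hf : IsModularForm k fun τ : ℍ => Complex.exp (2 * Real.pi * Complex.I * a * (τ : ℂ)) *
      graphSeries Γ (Complex.exp (2 * Real.pi * Complex.I * (τ : ℂ)))) : False := by
  obtain ⟨hd, ⟨Δ, v, hΔ, hv, htr⟩, hgr⟩ := hf
  set f : ℍ → ℂ := fun τ : ℍ => Complex.exp (2 * Real.pi * Complex.I * a * (τ : ℂ)) *
      graphSeries Γ (Complex.exp (2 * Real.pi * Complex.I * (τ : ℂ))) with hfdef
  set F : ℍ → ℂ := fun τ => f τ * ModularForm.eta (τ : ℂ) ^ S.card with hF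
  set a' : ℝ := a + S.card / 24 with ha'
  -- the formula for `F`
  have hFG : ∀ τ : ℍ, ‖F τ‖ = Real.exp (-(2 * Real.pi * a' * τ.im)) * ‖GG Γ S (qe τ)‖ := by
    intro τ
    have h3 : F τ = Complex.exp (2 * Real.pi * Complex.I * a' * (τ : ℂ)) * GG Γ S (qe τ) := by
      have h4 : graphSeries Γ (qe τ) * qinf (qe τ) ^ S.card = GG Γ S (qe τ) :=
        split_main Γ S hS (norm_qe_lt τ)
      rw [← h4]
      simp only [hF, hfdef]
      rw [eta_eq, mul_pow, ← Complex.exp_nat_mul]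
      have h5 : Complex.exp (2 * Real.pi * Complex.I * a' * (τ : ℂ)) =
          Complex.exp (2 * Real.pi * Complex.I * a * (τ : ℂ)) *
            Complex.exp (S.card * (2 * Real.pi * Complex.I * (τ : ℂ) / 24)) := by
        rw [← Complex.exp_add]
        congr 1
        rw [ha']
        push_cast
        ring
      rw [h5]
      unfold qe
      ring
    rw [h3, norm_mul, Complex.norm_exp]
    congr 2
    have h6 : (2 * Real.pi * Complex.I * a' * (τ : ℂ) : ℂ) =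
        ((2 * Real.pi * a' : ℝ) : ℂ) * (Complex.I * (τ : ℂ)) := by
      push_cast
      ring
    rw [h6, Complex.re_ofReal_mul]
    simp
  -- the weight
  set k' : ℝ := k + S.card / 2 with hk'
  have hmod : ∀ γ ∈ Δ, ∀ τ : ℍ, ‖F (γ • τ)‖ = ‖denom γ τ‖ ^ k' * ‖F τ‖ := by
    intro γ hγ τ
    have hd0 : 0 < ‖denom γ τ‖ := norm_pos_iff.2 (denom_ne_zero _ τ)
    have h3 : ‖F (γ • τ)‖ = ‖f (γ • τ)‖ * ‖ModularForm.eta ((γ • τ : ℍ) : ℂ)‖ ^ S.card := by
      rw [hF]
      exact (norm_mul _ _).trans (by rw [norm_pow])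
    have h4 : ‖F τ‖ = ‖f τ‖ * ‖ModularForm.eta (τ : ℂ)‖ ^ S.card := by
      rw [hF]
      exact (norm_mul _ _).trans (by rw [norm_pow])
    have h5 : ‖f (γ • τ)‖ = ‖denom γ τ‖ ^ k * ‖f τ‖ := by
      rw [htr γ hγ τ, norm_mul, norm_mul, hv γ hγ, one_mul, Complex.norm_cpow_real]
    rw [h3, h4, h5, norm_eta_smul, mul_pow, ← Real.rpow_natCast (‖denom γ τ‖ ^ _),
      ← Real.rpow_mul hd0.le, hk', Real.rpow_add hd0]
    have h6 : (1 / 2 : ℝ) * (S.card : ℝ) = S.card / 2 := by ring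
    rw [h6]
    ring
  have hcusp : ∀ δ : SL(2, ℤ), ∃ C M : ℝ, ∀ τ : ℍ, 1 ≤ τ.im →
      ‖F (δ • τ)‖ ≤ C * ‖denom δ τ‖ ^ k' * Real.exp (M * τ.im) := by
    intro δ
    obtain ⟨C, M, h3⟩ := hgr δ
    obtain ⟨C', h4⟩ := norm_eta_le
    refine ⟨C * C' ^ S.card, M, fun τ hτ => ?_⟩
    have hd0 : 0 < ‖denom δ τ‖ := norm_pos_iff.2 (denom_ne_zero _ τ)
    have h5 := h3 τ hτ
    have h6 := h4 τ hτ
    have h7 : ‖F (δ • τ)‖ = ‖f (δ • τ)‖ * (‖denom δ τ‖ ^ ((S.card : ℝ) / 2) *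
        ‖ModularForm.eta (τ : ℂ)‖ ^ S.card) := by
      simp only [hF]
      rw [norm_mul, norm_pow, norm_eta_smul, mul_pow, ← Real.rpow_natCast (‖denom δ τ‖ ^ _),
        ← Real.rpow_mul hd0.le]
      have h3 : (1 / 2 : ℝ) * (S.card : ℝ) = S.card / 2 := by ring
      rw [h3]
    rw [h7, hk', Real.rpow_add hd0]
    calc ‖f (δ • τ)‖ * (‖denom δ τ‖ ^ ((S.card : ℝ) / 2) * ‖ModularForm.eta (τ : ℂ)‖ ^ S.card)
        ≤ (C * ‖denom δ τ‖ ^ k * Real.exp (M * τ.im)) *
          (‖denom δ τ‖ ^ ((S.card : ℝ) / 2) * C' ^ S.card) := by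
          refine mul_le_mul h5 ?_ (by positivity) ((norm_nonneg _).trans h5)
          exact mul_le_mul_of_nonneg_left (pow_le_pow_left₀ (norm_nonneg _) h6 _) (by positivity)
      _ = _ := by ring
  have hFd : MDifferentiable 𝓘(ℂ) 𝓘(ℂ) F := hd.mul (eta_mdiff S.card)
  -- the real axis
  have hG1 : ∀ q : ℝ, 0 < q → q < 1 → 1 < ‖GG Γ S (q : ℂ)‖ ∧
      ‖GG Γ S (q : ℂ)‖ ≤ (1 - q)⁻¹ ^ Fintype.card (AA S) := by
    intro q h0 h1
    rw [GG_real, Complex.norm_real]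
    have h3 := one_lt_gt_tsum (adjS Γ S) (EA Γ S) (by simp [EA]) b hb hadj h0 h1
    rw [Real.norm_of_nonneg (by linarith)]
    exact ⟨h3, gt_tsum_le (adjS Γ S) (EA Γ S) b hb hadj h0 h1⟩
  obtain ⟨C, hC⟩ := real_bound (adjS Γ S) (EA Γ S) b hb hadj (fun a a' => Γ.Adj a.1 a'.1)
    (fun a => Γ.irrefl) (fun n a a' h => edge_bound Γ S n a a' h) h2
  have hG2 : ∀ q : ℝ, 1 / 2 ≤ q → q < 1 → ‖GG Γ S (q : ℂ)‖ ≤ C := by
    intro q h0 h1
    have h3 := one_lt_gt_tsum (adjS Γ S) (EA Γ S) (by simp [EA]) b hb hadj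
      (by linarith : 0 < q) h1
    rw [GG_real, Complex.norm_real, Real.norm_of_nonneg (by linarith)]
    exact hC q h0 h1
  have hpi := Real.pi_pos
  have hpi4 := Real.pi_lt_four
  have hkz : k' = 0 := by
    refine weight_eq_zero hFd hΔ hmod hcusp (c₁ := Real.exp (-(2 * Real.pi * |a'|)))
      (c₂ := Real.exp (2 * Real.pi * |a'|) * C) (ε := 1 / 20) (Real.exp_pos _) (by norm_num) ?_
    intro τ hre him
    have hy := τ.im_pos
    have hq0 : (1 / 2 : ℝ) ≤ Real.exp (-(2 * Real.pi * τ.im)) := by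
      have h3 := Real.add_one_le_exp (-(2 * Real.pi * τ.im))
      nlinarith
    have hq1 : Real.exp (-(2 * Real.pi * τ.im)) < 1 := by
      rw [Real.exp_lt_one_iff]
      have : 0 < 2 * Real.pi * τ.im := by positivity
      linarith
    rw [hFG, qe_real hre]
    have h4 := hG1 _ (Real.exp_pos _) hq1
    have h5 := hG2 _ hq0 hq1
    have h6 : |2 * Real.pi * a' * τ.im| ≤ 2 * Real.pi * |a'| := by
      rw [abs_mul, abs_mul, abs_of_pos (by positivity : 0 < 2 * Real.pi), abs_of_pos hy]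
      have : 0 ≤ 2 * Real.pi * |a'| := by positivity
      nlinarith
    have h7 := abs_le.1 h6
    constructor
    · calc Real.exp (-(2 * Real.pi * |a'|)) = Real.exp (-(2 * Real.pi * |a'|)) * 1 := by ring
        _ ≤ _ := mul_le_mul (Real.exp_le_exp.2 (by linarith)) h4.1.le zero_le_one
          (Real.exp_pos _).le
    · exact mul_le_mul (Real.exp_le_exp.2 (by linarith)) h5 (norm_nonneg _) (Real.exp_pos _).le
  rw [hkz] at hmod hcusp
  simp only [Real.rpow_zero, one_mul, mul_one] at hmod hcusp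
  -- rational points
  have hrat : ∀ x : ℚ, ∃ (C ε : ℝ) (B : ℕ), 0 < ε ∧ ∀ τ : ℍ, τ.re = x → τ.im ≤ ε →
      ‖F τ‖ ≤ C / τ.im ^ B := by
    intro x
    obtain ⟨C₁, h3⟩ := root_bound (adjS Γ S) (EA Γ S) b hb hadj x.den_pos (root_of_rat x)
    refine ⟨Real.exp (2 * Real.pi * |a'|) * |C₁|, 1 / 20, Fintype.card (AA S), by norm_num,
      fun τ hre him => ?_⟩
    have hy := τ.im_pos
    have ht : 0 < 2 * Real.pi * τ.im := by positivity
    have ht1 : 2 * Real.pi * τ.im ≤ 1 := by nlinarith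
    have h4 := h3 _ ht ht1
    rw [hFG, qe_rat hre]
    have h6 : |2 * Real.pi * a' * τ.im| ≤ 2 * Real.pi * |a'| := by
      rw [abs_mul, abs_mul, abs_of_pos (by positivity : 0 < 2 * Real.pi), abs_of_pos hy]
      have : 0 ≤ 2 * Real.pi * |a'| := by positivity
      nlinarith
    have h7 := abs_le.1 h6
    have h8 : ‖GG Γ S (qz (Complex.exp (2 * Real.pi * Complex.I * ((x : ℝ) : ℂ)))
        (2 * Real.pi * τ.im))‖ ≤ |C₁| / τ.im ^ Fintype.card (AA S) := by
      refine h4.trans ((div_le_div_of_nonneg_right (le_abs_self C₁) (by positivity)).trans ?_)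
      refine div_le_div_of_nonneg_left (abs_nonneg _) (by positivity) ?_
      refine pow_le_pow_left₀ hy.le ?_ _
      have := Real.pi_gt_three
      nlinarith
    rw [mul_div_assoc]
    exact mul_le_mul (Real.exp_le_exp.2 (by linarith)) h8 (norm_nonneg _) (Real.exp_pos _).le
  -- points on the imaginary axis
  have hpt : ∀ y : ℝ, 0 < y → ∃ τ : ℍ, τ.re = 0 ∧ τ.im = y := fun y hy =>
    ⟨⟨⟨0, y⟩, hy⟩, rfl, rfl⟩
  have hne' : ∃ τ, F τ ≠ 0 := by
    obtain ⟨τ, h3, h4⟩ := hpt 1 one_pos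
    refine ⟨τ, fun h5 => ?_⟩
    have h6 := hFG τ
    rw [h5, norm_zero, qe_real h3] at h6
    have h7 : Real.exp (-(2 * Real.pi * τ.im)) < 1 := by
      rw [Real.exp_lt_one_iff, h4]
      linarith
    have h8 := (hG1 _ (Real.exp_pos _) h7).1
    have h9 : 0 < Real.exp (-(2 * Real.pi * a' * τ.im)) := Real.exp_pos _
    nlinarith
  have hconst := const_of_expansion hFd hΔ hmod
    (exists_expansion hFd hne' hΔ hmod hcusp hrat)
  obtain ⟨τ₁, hτ₁⟩ := hne'
  set c : ℝ := ‖F τ₁‖ with hc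
  have hc0 : 0 < c := norm_pos_iff.2 hτ₁
  have hval : ∀ y : ℝ, 0 < y →
      ‖GG Γ S ((Real.exp (-(2 * Real.pi * y)) : ℝ) : ℂ)‖ = c * Real.exp (2 * Real.pi * a' * y) := by
    intro y hy
    obtain ⟨τ, h3, h4⟩ := hpt y hy
    have h5 := hFG τ
    rw [hconst τ τ₁, ← hc, qe_real h3, h4] at h5
    rw [h5]
    have h6 : Real.exp (-(2 * Real.pi * a' * y)) * Real.exp (2 * Real.pi * a' * y) = 1 := by
      rw [← Real.exp_add, neg_add_cancel, Real.exp_zero]
    linear_combination (-‖GG Γ S ((Real.exp (-(2 * Real.pi * y)) : ℝ) : ℂ)‖) * h6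
  have hlt : ∀ y : ℝ, 0 < y → Real.exp (-(2 * Real.pi * y)) < 1 := fun y hy => by
    rw [Real.exp_lt_one_iff]
    have : 0 < 2 * Real.pi * y := by positivity
    linarith
  refine lim_aux hc0 (a := 2 * Real.pi * a') (fun y hy => ?_) ?_
  · rw [← hval y hy]
    exact (hG1 _ (Real.exp_pos _) (hlt y hy)).1
  · have h3 : Tendsto (fun y : ℝ => (1 - Real.exp (-(2 * Real.pi * y)))⁻¹ ^ Fintype.card (AA S))
        atTop (𝓝 1) := by
      have h4 : Tendsto (fun y : ℝ => Real.exp (-(2 * Real.pi * y))) atTop (𝓝 0) := by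
        refine Real.tendsto_exp_atBot.comp (tendsto_neg_atTop_atBot.comp ?_)
        exact tendsto_id.const_mul_atTop (by positivity)
      have h5 : Tendsto (fun y : ℝ => (1 - Real.exp (-(2 * Real.pi * y)))⁻¹ ^
          Fintype.card (AA S)) atTop (𝓝 ((1 - 0)⁻¹ ^ Fintype.card (AA S))) :=
        ((tendsto_const_nhds.sub h4).inv₀ (by norm_num)).pow _
      simpa using h5
    refine tendsto_of_tendsto_of_tendsto_of_le_of_le' tendsto_const_nhds h3 ?_ ?_
    · filter_upwards [eventually_gt_atTop 0] with y hy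
      rw [← hval y hy]
      exact (hG1 _ (Real.exp_pos _) (hlt y hy)).1.le
    · filter_upwards [eventually_gt_atTop 0] with y hy
      rw [← hval y hy]
      exact (hG1 _ (Real.exp_pos _) (hlt y hy)).2

end

/-- The graph series of a Koenig-Egervary graph with an edge, in which every vertex outside a maximum
independent set has at least two neighbours in it, is not modular. -/
theorem main_KE {r : ℕ} (Γ : SimpleGraph (Fin r)) [DecidableRel Γ.Adj] (hE : ∃ i j, Γ.Adj i j)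
    (hKE : ∃ (S : Finset (Fin r)) (b : Fin r → Fin r), (∀ i ∈ S, ∀ j ∈ S, ¬ Γ.Adj i j) ∧
      (∀ a, a ∉ S → b a ∈ S ∧ Γ.Adj a (b a)) ∧
      ∀ a a', a ∉ S → a' ∉ S → b a = b a' → a = a')
    (h2 : ∀ I : Finset (Fin r), (∀ i ∈ I, ∀ j ∈ I, ¬ Γ.Adj i j) →
      (∀ J : Finset (Fin r), (∀ i ∈ J, ∀ j ∈ J, ¬ Γ.Adj i j) → J.card ≤ I.card) →
      ∀ v, v ∉ I → 2 ≤ (I.filter (Γ.Adj v)).card) (a k : ℝ) :
    ¬ IsModularForm k fun τ : ℍ => Complex.exp (2 * Real.pi * Complex.I * a * (τ : ℂ)) *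
      graphSeries Γ (Complex.exp (2 * Real.pi * Complex.I * (τ : ℂ))) := by
  intro hf
  obtain ⟨S, b, hS, hb, hinj⟩ := hKE
  let b' : AA S → BB S := fun x => ⟨b x.1, (hb x.1 x.2).1⟩
  have hb' : Function.Injective b' := fun x y hxy =>
    Subtype.ext (hinj x.1 y.1 x.2 y.2 (congrArg Subtype.val hxy))
  have hadj : ∀ x, adjS Γ S x (b' x) := fun x => (hb x.1 x.2).2
  have hne : Nonempty (AA S) := by
    obtain ⟨i, j, hij⟩ := hE
    by_cases hi : i ∈ S
    · by_cases hj : j ∈ S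
      · exact absurd hij (hS i hi j hj)
      · exact ⟨⟨j, hj⟩⟩
    · exact ⟨⟨i, hi⟩⟩
  exact main_aux Γ S b' hb' hadj hS hne
    (fun T hT x hx => comb Γ S hS b' hb' hadj h2 T hT x hx) a k hf

/-- The same for bipartite graphs. -/
theorem main_bip {r : ℕ} (Γ : SimpleGraph (Fin r)) [DecidableRel Γ.Adj] (hE : ∃ i j, Γ.Adj i j)
    (hΓ : Γ.Colorable 2)
    (h2 : ∀ I : Finset (Fin r), (∀ i ∈ I, ∀ j ∈ I, ¬ Γ.Adj i j) →
      (∀ J : Finset (Fin r), (∀ i ∈ J, ∀ j ∈ J, ¬ Γ.Adj i j) → J.card ≤ I.card) →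
      ∀ v, v ∉ I → 2 ≤ (I.filter (Γ.Adj v)).card) (a k : ℝ) :
    ¬ IsModularForm k fun τ : ℍ => Complex.exp (2 * Real.pi * Complex.I * a * (τ : ℂ)) *
      graphSeries Γ (Complex.exp (2 * Real.pi * Complex.I * (τ : ℂ))) :=
  main_KE Γ hE (bip Γ hΓ) h2 a k

end H93GS
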