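import Mathlib

/-!
# Two sums in one variable
-/

set_option autoImplicit false

namespace H93GS

open Finset Filter Topology

theorem exp_neg_le {x : ℝ} (hx : 0 ≤ x) : Real.exp (-x) ≤ 2 / (1 + x) ^ 2 := by
  have h1 := Real.quadratic_le_exp_of_nonneg hx
  rw [Real.exp_neg, inv_eq_one_div, div_le_div_iff₀ (Real.exp_pos x) (by positivity)]
  nlinarith

theorem tele_one {q c : ℝ} (h0 : 0 < q) (h1 : q < 1) (hc : 0 < c) (N : ℕ) :
    ∑ n ∈ range N, q ^ n / (1 + c * (q / (1 - q)) * q ^ n) ^ 2 ≤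
      (1 / (c * q)) * (1 / (1 + c * (q / (1 - q)) * q ^ N)) := by
  have hq : 0 < 1 - q := by linarith
  induction N with
  | zero => simp; positivity
  | succ N ih =>
    rw [Finset.sum_range_succ]
    set D := 1 + c * (q / (1 - q)) * q ^ N with hD
    set D' := 1 + c * (q / (1 - q)) * q ^ (N + 1) with hD'
    have hD0 : 0 < D := by positivity
    have hD'0 : 0 < D' := by positivity
    have h2 : D - D' = c * q * q ^ N := by
      rw [hD, hD', pow_succ]
      field_simp
      ring
    have h3 : D' ≤ D := by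
      have : 0 < c * q * q ^ N := by positivity
      linarith
    have h4 : q ^ N / D ^ 2 ≤ (1 / (c * q)) * (1 / D' - 1 / D) := by
      have h5 : (1 / (c * q)) * (1 / D' - 1 / D) = q ^ N / (D * D') := by
        rw [show q ^ N = (D - D') / (c * q) by rw [h2]; field_simp]
        field_simp
      rw [h5]
      refine div_le_div_of_nonneg_left (by positivity) (by positivity) ?_
      nlinarith
    calc _ ≤ (1 / (c * q)) * (1 / D) + (1 / (c * q)) * (1 / D' - 1 / D) := add_le_add ih h4
      _ = (1 / (c * q)) * (1 / D') := by ring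

theorem tele_two {q c : ℝ} (h0 : 0 < q) (h1 : q < 1) (hc : 0 < c) (N : ℕ) :
    ∑ n ∈ range N, q ^ n / (1 + c * (q / (1 - q)) * (1 - q ^ n)) ^ 2 ≤
      ((1 + c) / (c * q)) * (1 - 1 / (1 + c * (q / (1 - q)) * (1 - q ^ N))) := by
  have hq : 0 < 1 - q := by linarith
  induction N with
  | zero => simp
  | succ N ih =>
    rw [Finset.sum_range_succ]
    have hN : 0 ≤ 1 - q ^ N := by
      have : q ^ N ≤ 1 := pow_le_one₀ h0.le h1.le
      linarith
    have hN' : 0 ≤ 1 - q ^ (N + 1) := by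
      have : q ^ (N + 1) ≤ 1 := pow_le_one₀ h0.le h1.le
      linarith
    set D := 1 + c * (q / (1 - q)) * (1 - q ^ N) with hD
    set D' := 1 + c * (q / (1 - q)) * (1 - q ^ (N + 1)) with hD'
    have hD1 : 1 ≤ D := by
      have : 0 ≤ c * (q / (1 - q)) * (1 - q ^ N) := by positivity
      linarith
    have hD'0 : 0 < D' := by
      have : 0 ≤ c * (q / (1 - q)) * (1 - q ^ (N + 1)) := by positivity
      linarith
    have h2 : D' - D = c * q * q ^ N := by
      rw [hD, hD', pow_succ]
      field_simp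
      ring
    have h3 : D' ≤ (1 + c) * D := by
      have h6 : c * q * q ^ N ≤ c := by
        have : q * q ^ N ≤ 1 := by
          rw [← pow_succ']
          exact pow_le_one₀ h0.le h1.le
        nlinarith
      nlinarith
    have h4 : q ^ N / D ^ 2 ≤ ((1 + c) / (c * q)) * (1 / D - 1 / D') := by
      have h5 : ((1 + c) / (c * q)) * (1 / D - 1 / D') = (1 + c) * q ^ N / (D * D') := by
        rw [show q ^ N = (D' - D) / (c * q) by rw [h2]; field_simp]
        field_simp
      rw [h5, div_le_div_iff₀ (by positivity) (by positivity)]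
      have h7 : 0 ≤ q ^ N := by positivity
      have h8 : D * D' ≤ (1 + c) * D ^ 2 := by nlinarith
      nlinarith
    calc _ ≤ ((1 + c) / (c * q)) * (1 - 1 / D) + ((1 + c) / (c * q)) * (1 / D - 1 / D') :=
          add_le_add ih h4
      _ = ((1 + c) / (c * q)) * (1 - 1 / D') := by ring

/-- The sum in one variable is bounded. -/
theorem one_var {c : ℝ} (hc : 0 < c) : ∃ C : ℝ, ∀ q : ℝ, 1 / 2 ≤ q → q < 1 →
    Summable (fun n : ℕ => q ^ n * Real.exp (-(c * (q / (1 - q)) * min (q ^ n) (1 - q ^ n)))) ∧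
    ∑' n : ℕ, q ^ n * Real.exp (-(c * (q / (1 - q)) * min (q ^ n) (1 - q ^ n))) ≤ C := by
  refine ⟨2 * (2 / c) + 2 * (2 * (1 + c) / c), fun q hq1 hq2 => ?_⟩
  have h0 : 0 < q := by linarith
  have hq : 0 < 1 - q := by linarith
  have hθ : 0 < q / (1 - q) := by positivity
  have hle : ∀ n : ℕ, 0 ≤ 1 - q ^ n := fun n => by
    have : q ^ n ≤ 1 := pow_le_one₀ h0.le hq2.le
    linarith
  have hs : Summable (fun n : ℕ => q ^ n *
      Real.exp (-(c * (q / (1 - q)) * min (q ^ n) (1 - q ^ n)))) := by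
    refine Summable.of_nonneg_of_le (fun n => by positivity) (fun n => ?_)
      (summable_geometric_of_lt_one h0.le hq2)
    have h1 : Real.exp (-(c * (q / (1 - q)) * min (q ^ n) (1 - q ^ n))) ≤ 1 := by
      rw [Real.exp_le_one_iff]
      have : 0 ≤ min (q ^ n) (1 - q ^ n) := le_min (by positivity) (hle n)
      have : 0 ≤ c * (q / (1 - q)) * min (q ^ n) (1 - q ^ n) := by positivity
      linarith
    calc q ^ n * Real.exp (-(c * (q / (1 - q)) * min (q ^ n) (1 - q ^ n))) ≤ q ^ n * 1 := by gcongr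
      _ = q ^ n := mul_one _
  refine ⟨hs, Real.tsum_le_of_sum_range_le (fun n => by positivity) fun N => ?_⟩
  have h1 : ∀ n : ℕ, q ^ n * Real.exp (-(c * (q / (1 - q)) * min (q ^ n) (1 - q ^ n))) ≤
      2 * (q ^ n / (1 + c * (q / (1 - q)) * q ^ n) ^ 2) +
      2 * (q ^ n / (1 + c * (q / (1 - q)) * (1 - q ^ n)) ^ 2) := by
    intro n
    have h2 : 0 ≤ c * (q / (1 - q)) * q ^ n := by positivity
    have h3 : 0 ≤ c * (q / (1 - q)) * (1 - q ^ n) := mul_nonneg (by positivity) (hle n)
    have h4 : 0 ≤ q ^ n := by positivity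
    have h5 : 0 ≤ 2 / (1 + c * (q / (1 - q)) * q ^ n) ^ 2 := by positivity
    have h6 : 0 ≤ 2 / (1 + c * (q / (1 - q)) * (1 - q ^ n)) ^ 2 := by positivity
    rcases min_choice (q ^ n) (1 - q ^ n) with h7 | h7
    · rw [h7]
      calc q ^ n * Real.exp (-(c * (q / (1 - q)) * q ^ n))
          ≤ q ^ n * (2 / (1 + c * (q / (1 - q)) * q ^ n) ^ 2 +
            2 / (1 + c * (q / (1 - q)) * (1 - q ^ n)) ^ 2) :=
          mul_le_mul_of_nonneg_left ((exp_neg_le h2).trans (by linarith)) h4
        _ = _ := by ring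
    · rw [h7]
      calc q ^ n * Real.exp (-(c * (q / (1 - q)) * (1 - q ^ n)))
          ≤ q ^ n * (2 / (1 + c * (q / (1 - q)) * q ^ n) ^ 2 +
            2 / (1 + c * (q / (1 - q)) * (1 - q ^ n)) ^ 2) :=
          mul_le_mul_of_nonneg_left ((exp_neg_le h3).trans (by linarith)) h4
        _ = _ := by ring
  refine (Finset.sum_le_sum fun n _ => h1 n).trans ?_
  rw [Finset.sum_add_distrib, ← Finset.mul_sum, ← Finset.mul_sum]
  have h2 := tele_one h0 hq2 hc N
  have h3 := tele_two h0 hq2 hc N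
  have h4 : (1 / (c * q)) * (1 / (1 + c * (q / (1 - q)) * q ^ N)) ≤ 2 / c := by
    have h5 : 1 / (1 + c * (q / (1 - q)) * q ^ N) ≤ 1 := by
      rw [div_le_one (by positivity)]
      have : 0 ≤ c * (q / (1 - q)) * q ^ N := by positivity
      linarith
    calc (1 / (c * q)) * (1 / (1 + c * (q / (1 - q)) * q ^ N)) ≤ (1 / (c * q)) * 1 := by gcongr
      _ ≤ 2 / c := by
        rw [mul_one, div_le_div_iff₀ (by positivity) hc]
        nlinarith
  have h5 : ((1 + c) / (c * q)) * (1 - 1 / (1 + c * (q / (1 - q)) * (1 - q ^ N))) ≤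
      2 * (1 + c) / c := by
    have h6 : 0 ≤ 1 / (1 + c * (q / (1 - q)) * (1 - q ^ N)) := by
      have := mul_nonneg (by positivity : 0 ≤ c * (q / (1 - q))) (hle N)
      positivity
    calc ((1 + c) / (c * q)) * (1 - 1 / (1 + c * (q / (1 - q)) * (1 - q ^ N)))
        ≤ ((1 + c) / (c * q)) * 1 := by gcongr; linarith
      _ ≤ 2 * (1 + c) / c := by
        rw [mul_one, div_le_div_iff₀ (by positivity) hc]
        nlinarith [mul_pos hc hc]
  linarith

end H93GS
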