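import Pool.Agent.H93.GS.Defs

/-!
# GS Pen: three inequalities for the finite products (MP_b63d87_nt, helper93)

`qp q m = ∏_{j < m} (1 - q^(j+1))`, `0 < q < 1`. All factors are in `(0, 1)`, so `qp` is positive,
at most one and decreasing in `m`.
`pen_one`: `qp q m ≤ qp q (n + n') = qp q n * ∏_{i < n'} (1 - q^(n+i+1))` and `1 - x ≤ exp (-x)`,
`∑_{i < n'} q^(n+i+1) = q^(n+1) (1 - q^n') / (1 - q)`. `pen_two` is the case `0, n` of `pen_one`
(`qp q 0 = 1`). `pen_three`: with `t = - log q > 0` one has `q^(n n') = exp (- n n' t)`,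
`0 ≤ 1 - q^n ≤ n t`, `0 ≤ 1 - q^n' ≤ n' t` and `q / (1 - q) ≤ 1 / t` (from `log (1/q) ≤ 1/q - 1`).
-/

set_option autoImplicit false

namespace H93GS

open Finset

variable {q : ℝ}

private theorem pen_factor (h0 : 0 < q) (h1 : q < 1) (j : ℕ) : 0 < 1 - q ^ (j + 1) ∧
    1 - q ^ (j + 1) ≤ 1 := by
  constructor
  · have : q ^ (j + 1) < 1 := pow_lt_one₀ h0.le h1 (Nat.succ_ne_zero j)
    linarith
  · have := pow_nonneg h0.le (j + 1)
    linarith

theorem qpr_pos (h0 : 0 < q) (h1 : q < 1) (n : ℕ) : 0 < qp q n :=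
  Finset.prod_pos fun j _ => (pen_factor h0 h1 j).1

theorem qpr_le_one (h0 : 0 < q) (h1 : q < 1) (n : ℕ) : qp q n ≤ 1 :=
  Finset.prod_le_one (fun j _ => (pen_factor h0 h1 j).1.le) fun j _ => (pen_factor h0 h1 j).2

private theorem pen_add (q : ℝ) (n k : ℕ) :
    qp q (n + k) = qp q n * ∏ i ∈ Finset.range k, (1 - q ^ (n + i + 1)) := by
  unfold qp
  rw [Finset.prod_range_add]

theorem qpr_anti (h0 : 0 < q) (h1 : q < 1) {n m : ℕ} (h : n ≤ m) : qp q m ≤ qp q n := by
  obtain ⟨k, rfl⟩ := Nat.exists_eq_add_of_le h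
  rw [pen_add]
  refine mul_le_of_le_one_right (qpr_pos h0 h1 n).le ?_
  exact Finset.prod_le_one (fun j _ => (pen_factor h0 h1 (n + j)).1.le)
    fun j _ => (pen_factor h0 h1 (n + j)).2

theorem pen_one (h0 : 0 < q) (h1 : q < 1) {n n' m : ℕ} (h : n + n' ≤ m) :
    qp q m ≤ qp q n * Real.exp (-(q / (1 - q) * (q ^ n * (1 - q ^ n')))) := by
  refine (qpr_anti h0 h1 h).trans ?_
  rw [pen_add]
  refine mul_le_mul_of_nonneg_left ?_ (qpr_pos h0 h1 n).le
  have hg : q / (1 - q) * (q ^ n * (1 - q ^ n')) = ∑ i ∈ Finset.range n', q ^ (n + i + 1) := by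
    have h2 : ∑ i ∈ Finset.range n', q ^ (n + i + 1) = q * q ^ n * ∑ i ∈ Finset.range n', q ^ i := by
      rw [Finset.mul_sum]
      refine Finset.sum_congr rfl fun i _ => ?_
      ring
    have h3 := geom_sum_eq h1.ne n'
    have h4 : q - 1 ≠ 0 := by
      intro h
      linarith
    have h5 : (1 : ℝ) - q ≠ 0 := by
      intro h
      linarith
    rw [h2, h3]
    field_simp
    ring
  rw [hg, ← Finset.sum_neg_distrib, Real.exp_sum]
  refine Finset.prod_le_prod (fun j _ => (pen_factor h0 h1 (n + j)).1.le) fun j _ => ?_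
  have := Real.add_one_le_exp (-(q ^ (n + j + 1)))
  linarith

theorem pen_two (h0 : 0 < q) (h1 : q < 1) {n m : ℕ} (h : n ≤ m) :
    qp q m ≤ Real.exp (-(q / (1 - q) * (1 - q ^ n))) := by
  have h2 := pen_one h0 h1 (n := 0) (n' := n) (m := m) (by omega)
  have h3 : qp q 0 = 1 := by simp [qp]
  rw [h3, one_mul, pow_zero, one_mul] at h2
  exact h2

theorem pen_three (h0 : 0 < q) (h1 : q < 1) {n n' m : ℕ} (h : n * n' ≤ m) :
    q ^ m ≤ Real.exp (-(q / (1 - q) * ((1 - q ^ n) * (1 - q ^ n')))) := by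
  have ht : 0 < -Real.log q := by
    have := Real.log_neg h0 h1
    linarith
  have hexp : ∀ k : ℕ, q ^ k = Real.exp (-(k * (-Real.log q))) := by
    intro k
    have h2 : Real.exp (k * Real.log q) = q ^ k := by
      rw [mul_comm, Real.exp_mul, Real.exp_log h0, Real.rpow_natCast]
    rw [← h2]
    congr 1
    ring
  have hle : ∀ k : ℕ, 1 - q ^ k ≤ k * (-Real.log q) := by
    intro k
    rw [hexp k]
    have := Real.add_one_le_exp (-(k * (-Real.log q)))
    linarith
  have hnn : ∀ k : ℕ, 0 ≤ 1 - q ^ k := by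
    intro k
    have := pow_le_one₀ (n := k) h0.le h1.le
    linarith
  have hq : q / (1 - q) * (-Real.log q) ≤ 1 := by
    have h2 : Real.log q⁻¹ ≤ q⁻¹ - 1 := Real.log_le_sub_one_of_pos (inv_pos.2 h0)
    rw [Real.log_inv] at h2
    have h3 : 0 < 1 - q := by linarith
    have h4 : q / (1 - q) * (-Real.log q) ≤ q / (1 - q) * (q⁻¹ - 1) :=
      mul_le_mul_of_nonneg_left h2 (div_pos h0 h3).le
    have h5 : q / (1 - q) * (q⁻¹ - 1) = 1 := by
      field_simp
    linarith
  have hqq : 0 ≤ q / (1 - q) := div_nonneg h0.le (by linarith)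
  have h6 : q ^ m ≤ q ^ (n * n') := pow_le_pow_of_le_one h0.le h1.le h
  refine h6.trans ?_
  rw [hexp (n * n')]
  apply Real.exp_le_exp.2
  have h7 : (1 - q ^ n) * (1 - q ^ n') ≤ (n * (-Real.log q)) * (n' * (-Real.log q)) :=
    mul_le_mul (hle n) (hle n') (hnn n') (mul_nonneg (Nat.cast_nonneg n) ht.le)
  have h8 : q / (1 - q) * ((1 - q ^ n) * (1 - q ^ n')) ≤
      q / (1 - q) * ((n * (-Real.log q)) * (n' * (-Real.log q))) :=
    mul_le_mul_of_nonneg_left h7 hqq
  have h9 : q / (1 - q) * ((n * (-Real.log q)) * (n' * (-Real.log q))) =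
      (q / (1 - q) * (-Real.log q)) * ((n * n') * (-Real.log q)) := by ring
  have h10 : (q / (1 - q) * (-Real.log q)) * ((n * n') * (-Real.log q)) ≤
      1 * ((n * n') * (-Real.log q)) :=
    mul_le_mul_of_nonneg_right hq (mul_nonneg (mul_nonneg (Nat.cast_nonneg n)
      (Nat.cast_nonneg n')) ht.le)
  push_cast
  linarith

end H93GS
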