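import Pool.Agent.H93.GS.Pen
import Pool.Agent.H93.GS.OneVar
import Pool.Agent.H93.GS.Root

/-!
# GS RealBd: the reduced series is bounded for `q → 1` (MP_b63d87_nt, helper93)

Notation: `u a = q^(n a)`, `θ = q / (1 - q)`, `m s = mm adj n s`, `ρ s = qp q (m s) / g s` with
`g = Function.extend b (fun a => qp q (n a)) 1`, so that (`prod_extend` in Root)
`gt adj E q n = q^(E n) * q^(∑ n a) * ∏ s, ρ s` and `0 < ρ s ≤ 1` (`le_mm`, `qpr_anti`), hence the
product of the `ρ s` is at most each single `ρ s`. With `Π = q^(E n) * ∏ s, ρ s`: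
(P1) if `a ≠ a'` and `adj a' (b a)` then `m (b a) ≥ n a + n a'`, so `Π ≤ exp (-θ u a (1 - u a'))`
(`pen_one`); (P2) if `s` is not a value of `b` and `adj a s`, then `Π ≤ exp (-θ (1 - u a))`
(`pen_two`); (P3) if `aadj a a'` then `Π ≤ exp (-θ (1 - u a) (1 - u a'))` (`pen_three`, `hE`).
Let `T = {a | u a < 1/2}`, `δ a = min (u a) (1 - u a) ≤ 1/2`. Claim: `Π ≤ exp (-θ ∑ δ a / (2 |A|))`.
Case 1: `T` is not good. Then one of (P1) (with `a ∉ T`, `a' ∈ T`), (P2), (P3) gives
`Π ≤ exp (-θ / 4)`, and `∑ δ a / (2 |A|) ≤ 1/4`.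
Case 2: `T` is good. Take `a₀` with `δ a₀` maximal; it suffices that `Π ≤ exp (-θ δ a₀ / 2)`.
If `a₀ ∈ T`, then `T.erase a₀` is not good (`h2`); as `T` is good the only possibility is
`a' ∈ T`, `a' ≠ a₀`, `adj a' (b a₀)`: (P1) with `1 - u a' ≥ 1/2`. If `a₀ ∉ T`, then `insert a₀ T` is not
good (otherwise `h2` for it contradicts that `T` is good), and the violated condition involves `a₀`:
(P1) for some `a ∉ insert a₀ T` with `adj a₀ (b a)` (`u a ≥ 1/2`), or (P2) for `a₀`, or (P3) for `a₀` and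
some `a' ∈ T` (`1 - u a' ≥ 1/2`; `aadj a₀ a₀` is excluded by `hirr`).
`real_bound`: compare with the product over `a` of the sums in `one_var` (`c = 1 / (2 |A|)`,
`pi_real` in PiSum).
-/

set_option autoImplicit false

namespace H93GS

open Finset

/-- the set `T` can be exchanged with `b T` -/
def Good {A B : Type} (adj : A → B → Prop) (aadj : A → A → Prop) (b : A → B) (T : Finset A) :
    Prop :=
  (∀ a, a ∉ T → ∀ a' ∈ T, ¬ adj a' (b a)) ∧
  (∀ s, (∀ a, b a ≠ s) → ∀ a ∈ T, ¬ adj a s) ∧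
  ∀ a ∈ T, ∀ a' ∈ T, ¬ aadj a a'

theorem realbd_not_good {A B : Type} {adj : A → B → Prop} {aadj : A → A → Prop} {b : A → B}
    {T : Finset A} (h : ¬ Good adj aadj b T) :
    (∃ a, a ∉ T ∧ ∃ a' ∈ T, adj a' (b a)) ∨ (∃ s, (∀ a, b a ≠ s) ∧ ∃ a ∈ T, adj a s) ∨
      ∃ a ∈ T, ∃ a' ∈ T, aadj a a' := by
  by_contra hc
  push Not at hc
  obtain ⟨h1, h2, h3⟩ := hc
  exact h ⟨h1, h2, h3⟩

/-- the factor of the reduced term at `s` -/
noncomputable def realbdRho {A B : Type} [Fintype A] (adj : A → B → Prop)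
    [∀ a s, Decidable (adj a s)] (b : A → B) (q : ℝ) (n : A → ℕ) (s : B) : ℝ :=
  qp q (mm adj n s) / Function.extend b (fun a => qp q (n a)) (fun _ => 1) s

section

variable {A B : Type} [Fintype A] (adj : A → B → Prop) [∀ a s, Decidable (adj a s)] (b : A → B)

theorem realbd_gt [Fintype B] (E : (A → ℕ) → ℕ) (hb : Function.Injective b) (q : ℝ) (n : A → ℕ) :
    gt adj E q n = (∏ a, q ^ n a) * (q ^ E n * ∏ s, realbdRho adj b q n s) := by
  unfold gt realbdRho
  rw [Finset.prod_div_distrib, prod_extend b hb, pow_add, Finset.prod_pow_eq_pow_sum]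
  ring

theorem realbd_rho_pos (hb : Function.Injective b) {q : ℝ} (h0 : 0 < q) (h1 : q < 1) (n : A → ℕ)
    (s : B) : 0 < realbdRho adj b q n s := by
  unfold realbdRho
  refine div_pos (qpr_pos h0 h1 _) ?_
  by_cases h2 : ∃ a, b a = s
  · obtain ⟨a, rfl⟩ := h2
    rw [hb.extend_apply]
    exact qpr_pos h0 h1 _
  · rw [Function.extend_apply' _ _ _ h2]
    exact one_pos

theorem realbd_rho_le_one (hb : Function.Injective b) (hadj : ∀ a, adj a (b a)) {q : ℝ}
    (h0 : 0 < q) (h1 : q < 1) (n : A → ℕ) (s : B) : realbdRho adj b q n s ≤ 1 := by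
  unfold realbdRho
  by_cases h2 : ∃ a, b a = s
  · obtain ⟨a, rfl⟩ := h2
    rw [hb.extend_apply, div_le_one (qpr_pos h0 h1 _)]
    exact qpr_anti h0 h1 (le_mm adj n (hadj a))
  · rw [Function.extend_apply' _ _ _ h2, div_one]
    exact qpr_le_one h0 h1 _

theorem realbd_prod_le [Fintype B] (hb : Function.Injective b) (hadj : ∀ a, adj a (b a)) {q : ℝ}
    (h0 : 0 < q) (h1 : q < 1) (n : A → ℕ) (m : ℕ) (s : B) :
    q ^ m * ∏ s, realbdRho adj b q n s ≤ realbdRho adj b q n s := by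
  classical
  rw [← Finset.mul_prod_erase _ _ (Finset.mem_univ s)]
  have h2 : ∏ x ∈ Finset.univ.erase s, realbdRho adj b q n x ≤ 1 :=
    Finset.prod_le_one (fun x _ => (realbd_rho_pos adj b hb h0 h1 n x).le)
      fun x _ => realbd_rho_le_one adj b hb hadj h0 h1 n x
  have h3 : 0 ≤ ∏ x ∈ Finset.univ.erase s, realbdRho adj b q n x :=
    Finset.prod_nonneg fun x _ => (realbd_rho_pos adj b hb h0 h1 n x).le
  have h4 := realbd_rho_pos adj b hb h0 h1 n s
  have h5 : q ^ m ≤ 1 := pow_le_one₀ h0.le h1.le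
  have h6 : 0 ≤ q ^ m := by positivity
  calc q ^ m * (realbdRho adj b q n s * ∏ x ∈ Finset.univ.erase s, realbdRho adj b q n x)
      ≤ 1 * (realbdRho adj b q n s * 1) := by gcongr
    _ = _ := by ring

theorem realbd_prod_le_one [Fintype B] (hb : Function.Injective b) (hadj : ∀ a, adj a (b a))
    {q : ℝ} (h0 : 0 < q) (h1 : q < 1) (n : A → ℕ) :
    ∏ s, realbdRho adj b q n s ≤ 1 :=
  Finset.prod_le_one (fun x _ => (realbd_rho_pos adj b hb h0 h1 n x).le)
      fun x _ => realbd_rho_le_one adj b hb hadj h0 h1 n x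

theorem realbd_p1 [Fintype B] (hb : Function.Injective b) (hadj : ∀ a, adj a (b a)) {q : ℝ}
    (h0 : 0 < q) (h1 : q < 1) (n : A → ℕ) (m : ℕ) {a a' : A} (hne : a ≠ a') (h : adj a' (b a)) :
    q ^ m * ∏ s, realbdRho adj b q n s ≤
      Real.exp (-(q / (1 - q) * (q ^ n a * (1 - q ^ n a')))) := by
  classical
  refine (realbd_prod_le adj b hb hadj h0 h1 n m (b a)).trans ?_
  unfold realbdRho
  rw [hb.extend_apply, div_le_iff₀ (qpr_pos h0 h1 _), mul_comm]
  refine pen_one h0 h1 ?_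
  unfold mm
  calc n a + n a' = ∑ x ∈ {a, a'}, (if adj x (b a) then n x else 0) := by
        rw [Finset.sum_pair hne, if_pos (hadj a), if_pos h]
    _ ≤ _ := Finset.sum_le_sum_of_subset (Finset.subset_univ _)

theorem realbd_p2 [Fintype B] (hb : Function.Injective b) (hadj : ∀ a, adj a (b a)) {q : ℝ}
    (h0 : 0 < q) (h1 : q < 1) (n : A → ℕ) (m : ℕ) {a : A} {s : B} (hs : ∀ a, b a ≠ s)
    (h : adj a s) :
    q ^ m * ∏ s, realbdRho adj b q n s ≤ Real.exp (-(q / (1 - q) * (1 - q ^ n a))) := by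
  refine (realbd_prod_le adj b hb hadj h0 h1 n m s).trans ?_
  unfold realbdRho
  rw [Function.extend_apply' _ _ _ (by rintro ⟨x, hx⟩; exact hs x hx), div_one]
  exact pen_two h0 h1 (le_mm adj n h)

theorem realbd_p3 [Fintype B] (E : (A → ℕ) → ℕ) (hb : Function.Injective b)
    (hadj : ∀ a, adj a (b a)) (aadj : A → A → Prop)
    (hE : ∀ n a a', aadj a a' → n a * n a' ≤ E n) {q : ℝ}
    (h0 : 0 < q) (h1 : q < 1) (n : A → ℕ) {a a' : A} (h : aadj a a') :
    q ^ E n * ∏ s, realbdRho adj b q n s ≤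
      Real.exp (-(q / (1 - q) * ((1 - q ^ n a) * (1 - q ^ n a')))) := by
  refine le_trans ?_ (pen_three h0 h1 (hE n a a' h))
  have h2 := realbd_prod_le_one adj b hb hadj h0 h1 n
  have h3 : 0 ≤ q ^ E n := by positivity
  calc _ ≤ q ^ E n * 1 := by gcongr
    _ = _ := mul_one _

theorem realbd_claim [Fintype B] [DecidableEq A] [Nonempty A] (E : (A → ℕ) → ℕ)
    (hb : Function.Injective b) (hadj : ∀ a, adj a (b a)) (aadj : A → A → Prop)
    (hirr : ∀ a, ¬ aadj a a) (hE : ∀ n a a', aadj a a' → n a * n a' ≤ E n)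
    (h2 : ∀ T, Good adj aadj b T → ∀ a ∈ T, ¬ Good adj aadj b (T.erase a))
    {q : ℝ} (h0 : 0 < q) (h1 : q < 1) (n : A → ℕ) (a₀ : A) :
    q ^ E n * ∏ s, realbdRho adj b q n s ≤
      Real.exp (-(q / (1 - q) * (min (q ^ n a₀) (1 - q ^ n a₀) / 2))) := by
  classical
  have hq : 0 < 1 - q := by linarith
  have hθ : 0 ≤ q / (1 - q) := by positivity
  have hu0 : ∀ a, 0 < q ^ n a := fun a => by positivity
  have hu1 : ∀ a, q ^ n a ≤ 1 := fun a => pow_le_one₀ h0.le h1.le
  have hm1 : min (q ^ n a₀) (1 - q ^ n a₀) ≤ q ^ n a₀ := min_le_left _ _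
  have hm2 : min (q ^ n a₀) (1 - q ^ n a₀) ≤ 1 - q ^ n a₀ := min_le_right _ _
  -- the common last step
  have fin : ∀ x : ℝ, q ^ E n * ∏ s, realbdRho adj b q n s ≤ Real.exp (-(q / (1 - q) * x)) →
      min (q ^ n a₀) (1 - q ^ n a₀) / 2 ≤ x → q ^ E n * ∏ s, realbdRho adj b q n s ≤
      Real.exp (-(q / (1 - q) * (min (q ^ n a₀) (1 - q ^ n a₀) / 2))) := by
    intro x hx1 hx2
    refine hx1.trans (Real.exp_le_exp.2 (neg_le_neg ?_))
    exact mul_le_mul_of_nonneg_left hx2 hθ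
  set T : Finset A := Finset.univ.filter fun a => q ^ n a < 1 / 2 with hT
  have hT1 : ∀ a, a ∈ T → q ^ n a < 1 / 2 := fun a ha => by simpa [hT] using ha
  have hT2 : ∀ a, a ∉ T → 1 / 2 ≤ q ^ n a := fun a ha => by
    by_contra hc
    exact ha (by simpa [hT] using hc)
  by_cases hg : Good adj aadj b T
  · by_cases ha : a₀ ∈ T
    · rcases realbd_not_good (h2 T hg a₀ ha) with ⟨a, h3, a', h4, h5⟩ | ⟨s, hs, a, h3, h4⟩ |
        ⟨a, h3, a', h4, h5⟩
      · have h6 : a = a₀ := by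
          by_contra hc
          exact hg.1 a (fun h7 => h3 (Finset.mem_erase.2 ⟨hc, h7⟩)) a' (Finset.mem_of_mem_erase h4)
            h5
        subst h6
        refine fin _ (realbd_p1 adj b hb hadj h0 h1 n (E n) (Finset.ne_of_mem_erase h4).symm h5) ?_
        have h7 := hT1 a' (Finset.mem_of_mem_erase h4)
        have h8 := hu0 a
        nlinarith
      · exact absurd h4 (hg.2.1 s hs a (Finset.mem_of_mem_erase h3))
      · exact absurd h5 (hg.2.2 a (Finset.mem_of_mem_erase h3) a' (Finset.mem_of_mem_erase h4))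
    · have h3 : ¬ Good adj aadj b (insert a₀ T) := by
        intro hc
        have h4 := h2 _ hc a₀ (Finset.mem_insert_self _ _)
        rw [Finset.erase_insert ha] at h4
        exact h4 hg
      have h1' := hu1 a₀
      rcases realbd_not_good h3 with ⟨a, h3, a', h4, h5⟩ | ⟨s, hs, a, h3, h4⟩ |
        ⟨a, h3, a', h4, h5⟩
      · rw [Finset.mem_insert, not_or] at h3
        rcases Finset.mem_insert.1 h4 with rfl | h6
        · refine fin _ (realbd_p1 adj b hb hadj h0 h1 n (E n) h3.1 h5) ?_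
          have h7 := hT2 a h3.2
          nlinarith
        · exact absurd h5 (hg.1 a h3.2 a' h6)
      · rcases Finset.mem_insert.1 h3 with rfl | h6
        · refine fin _ (realbd_p2 adj b hb hadj h0 h1 n (E n) hs h4) ?_
          linarith
        · exact absurd h4 (hg.2.1 s hs a h6)
      · rcases Finset.mem_insert.1 h3 with rfl | h6
        · rcases Finset.mem_insert.1 h4 with rfl | h7
          · exact absurd h5 (hirr _)
          · refine fin _ (realbd_p3 adj b E hb hadj aadj hE h0 h1 n h5) ?_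
            have h8 := hT1 a' h7
            nlinarith
        · rcases Finset.mem_insert.1 h4 with rfl | h7
          · refine fin _ (realbd_p3 adj b E hb hadj aadj hE h0 h1 n h5) ?_
            have h8 := hT1 a h6
            nlinarith
          · exact absurd h5 (hg.2.2 a h6 a' h7)
  · have hm : min (q ^ n a₀) (1 - q ^ n a₀) / 2 ≤ 1 / 4 := by linarith
    rcases realbd_not_good hg with ⟨a, h3, a', h4, h5⟩ | ⟨s, hs, a, h3, h4⟩ |
        ⟨a, h3, a', h4, h5⟩
    · have hne : a ≠ a' := fun h => h3 (h ▸ h4)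
      refine fin _ (realbd_p1 adj b hb hadj h0 h1 n (E n) hne h5) ?_
      have h6 := hT2 a h3
      have h7 := hT1 a' h4
      nlinarith
    · refine fin _ (realbd_p2 adj b hb hadj h0 h1 n (E n) hs h4) ?_
      have h6 := hT1 a h3
      linarith
    · refine fin _ (realbd_p3 adj b E hb hadj aadj hE h0 h1 n h5) ?_
      have h6 := hT1 a h3
      have h7 := hT1 a' h4
      nlinarith

end

theorem real_point {A B : Type} [Fintype A] [Fintype B] [DecidableEq A] [Nonempty A]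
    (adj : A → B → Prop) [∀ a s, Decidable (adj a s)] (E : (A → ℕ) → ℕ) (b : A → B)
    (hb : Function.Injective b) (hadj : ∀ a, adj a (b a)) (aadj : A → A → Prop)
    (hirr : ∀ a, ¬ aadj a a) (hE : ∀ n a a', aadj a a' → n a * n a' ≤ E n)
    (h2 : ∀ T, Good adj aadj b T → ∀ a ∈ T, ¬ Good adj aadj b (T.erase a))
    {q : ℝ} (h0 : 0 < q) (h1 : q < 1) (n : A → ℕ) :
    gt adj E q n ≤ ∏ a, (q ^ n a * Real.exp (-(1 / (2 * (Fintype.card A : ℝ)) * (q / (1 - q)) *
      min (q ^ n a) (1 - q ^ n a)))) := by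
  have hq : 0 < 1 - q := by linarith
  have hθ : 0 ≤ q / (1 - q) := by positivity
  obtain ⟨a₀, -, ha₀⟩ := Finset.exists_max_image (Finset.univ : Finset A)
    (fun a => min (q ^ n a) (1 - q ^ n a)) Finset.univ_nonempty
  have h3 := realbd_claim adj b E hb hadj aadj hirr hE h2 h0 h1 n a₀
  have hc : (0 : ℝ) < Fintype.card A := by exact_mod_cast Fintype.card_pos
  have h4 : ∑ a, min (q ^ n a) (1 - q ^ n a) ≤
      (Fintype.card A : ℝ) * min (q ^ n a₀) (1 - q ^ n a₀) := by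
    have h5 := Finset.sum_le_card_nsmul (Finset.univ : Finset A)
      (fun a => min (q ^ n a) (1 - q ^ n a)) _ ha₀
    rwa [Finset.card_univ, nsmul_eq_mul] at h5
  rw [realbd_gt adj b E hb, Finset.prod_mul_distrib, ← Real.exp_sum]
  have h5 : 0 ≤ ∏ a, q ^ n a := Finset.prod_nonneg fun a _ => by positivity
  refine mul_le_mul_of_nonneg_left (h3.trans (Real.exp_le_exp.2 ?_)) h5
  rw [Finset.sum_neg_distrib, ← Finset.mul_sum]
  refine neg_le_neg ?_
  calc 1 / (2 * (Fintype.card A : ℝ)) * (q / (1 - q)) * ∑ a, min (q ^ n a) (1 - q ^ n a)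
      ≤ 1 / (2 * (Fintype.card A : ℝ)) * (q / (1 - q)) *
        ((Fintype.card A : ℝ) * min (q ^ n a₀) (1 - q ^ n a₀)) := by gcongr
    _ = _ := by field_simp

theorem real_bound {A B : Type} [Fintype A] [Fintype B] [DecidableEq A] [Nonempty A]
    (adj : A → B → Prop) [∀ a s, Decidable (adj a s)] (E : (A → ℕ) → ℕ) (b : A → B)
    (hb : Function.Injective b) (hadj : ∀ a, adj a (b a)) (aadj : A → A → Prop)
    (hirr : ∀ a, ¬ aadj a a) (hE : ∀ n a a', aadj a a' → n a * n a' ≤ E n)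
    (h2 : ∀ T, Good adj aadj b T → ∀ a ∈ T, ¬ Good adj aadj b (T.erase a)) :
    ∃ C : ℝ, ∀ q : ℝ, 1 / 2 ≤ q → q < 1 → ∑' n : A → ℕ, gt adj E q n ≤ C := by
  have hc : (0 : ℝ) < Fintype.card A := by exact_mod_cast Fintype.card_pos
  obtain ⟨C, hC⟩ := one_var (c := 1 / (2 * (Fintype.card A : ℝ))) (by positivity)
  refine ⟨C ^ Fintype.card A, fun q hq1 hq2 => ?_⟩
  have h0 : 0 < q := by linarith
  obtain ⟨h3, h4⟩ := hC q hq1 hq2
  obtain ⟨h5, h6⟩ := pi_real (ι := A) (f := fun _ k => q ^ k *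
    Real.exp (-(1 / (2 * (Fintype.card A : ℝ)) * (q / (1 - q)) * min (q ^ k) (1 - q ^ k))))
    (fun _ _ => by positivity) fun _ => h3
  have h7 : ∀ n : A → ℕ, 0 ≤ gt adj E q n := fun n => by
    rw [realbd_gt adj b E hb]
    exact mul_nonneg (Finset.prod_nonneg fun a _ => by positivity)
      (mul_nonneg (by positivity) (Finset.prod_nonneg fun s _ =>
        (realbd_rho_pos adj b hb h0 hq2 n s).le))
  have h8 := real_point adj E b hb hadj aadj hirr hE h2 h0 hq2
  calc ∑' n : A → ℕ, gt adj E q n ≤ ∑' n : A → ℕ, ∏ a, (q ^ n a *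
        Real.exp (-(1 / (2 * (Fintype.card A : ℝ)) * (q / (1 - q)) *
        min (q ^ n a) (1 - q ^ n a)))) :=
        (Summable.of_nonneg_of_le h7 h8 h5).tsum_le_tsum h8 h5
    _ = ∏ _a : A, ∑' k : ℕ, q ^ k *
        Real.exp (-(1 / (2 * (Fintype.card A : ℝ)) * (q / (1 - q)) *
        min (q ^ k) (1 - q ^ k))) := h6
    _ ≤ ∏ _a : A, C := Finset.prod_le_prod (fun _ _ => tsum_nonneg fun k => by positivity)
        fun _ _ => h4
    _ = C ^ Fintype.card A := by rw [Finset.prod_const, Finset.card_univ]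

end H93GS
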