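import Pool.Agent.H93.GS.Per

/-!
# GS WZeroA: the weight is zero (MP_b63d87_nt, helper93)

`exp_pow_aux`: if `l > 0` or (`l = 0`, `k > 0`) the function `exp (l y) y^k` tends to infinity, if `l < 0` or
(`l = 0`, `k < 0`) it tends to zero (`tendsto_rpow_mul_exp_neg_mul_atTop_nhds_zero`,
`tendsto_rpow_atTop`, ...).
`weight_eq_zero`: let `g τ = F (S • τ) * exp (-k log τ)` (`log` is holomorphic on the upper half-plane, which is
in the slit plane; `|exp (-k log τ)| = |τ|^(-k)`, `denom S τ = τ` is `ModularGroup.denom_S`). `g` is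
holomorphic (composition with the action of `S`: `τ ↦ -1/τ`, see `UpperHalfPlane.mdifferentiable_iff` or
`UpperHalfPlane.mdifferentiable_smul`), `|g (N + τ)| = |g τ|` for `N` from
`exists_period` with `δ = S` and `norm_period`, `|g τ| ≤ C exp (M Im τ)` for `Im τ ≥ 1` by `hcusp`, and `g`
is not identically zero by `h0`. `cusp_lemma` gives `|g τ| = exp (-l Im τ) |P (qParam N τ)|` with
`P` continuous at `0`, `P 0 ≠ 0`. For `τ = i y`, `y` large: `S • τ = i / y` has real part `0` and imaginary part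
`1/y ≤ ε`, so `|g (i y)| = |F (i/y)| y^(-k)` is between `c₁ y^(-k)` and `c₂ y^(-k)`; `qParam N (i y) → 0`
for `y → ∞`, so `exp (l y) y^(-k)` is between two positive constants for large `y`; use `exp_pow_aux`.
-/

set_option autoImplicit false

namespace H93GS

open UpperHalfPlane Filter
open scoped MatrixGroups Manifold

theorem exp_pow_aux {l k c₁ c₂ : ℝ} (hc₁ : 0 < c₁)
    (h : ∀ᶠ y : ℝ in atTop, c₁ ≤ Real.exp (l * y) * y ^ k ∧ Real.exp (l * y) * y ^ k ≤ c₂) :
    l = 0 ∧ k = 0 := by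
  -- the function does not tend to zero, its inverse neither
  have key0 : ¬ Tendsto (fun y : ℝ => Real.exp (l * y) * y ^ k) atTop (nhds 0) := by
    intro ht
    have h1 := ht.eventually (gt_mem_nhds hc₁)
    obtain ⟨y, hy, hy'⟩ := (h.and h1).exists
    exact absurd hy' (not_lt.2 hy.1)
  have key1 : ¬ Tendsto (fun y : ℝ => Real.exp (-l * y) * y ^ (-k)) atTop (nhds 0) := by
    intro ht
    have hc₂ : 0 < c₂ := by
      obtain ⟨y, hy⟩ := h.exists
      linarith [hy.1, hy.2]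
    have h1 := ht.eventually (gt_mem_nhds (inv_pos.2 hc₂))
    obtain ⟨y, ⟨hy, hy'⟩, hy0⟩ := ((h.and h1).and (eventually_gt_atTop 0)).exists
    have e : Real.exp (l * y) * y ^ k * (Real.exp (-l * y) * y ^ (-k)) = 1 := by
      have e1 : Real.exp (l * y) * Real.exp (-l * y) = 1 := by
        rw [← Real.exp_add]
        simp
      have e2 : y ^ k * y ^ (-k) = 1 := by
        rw [← Real.rpow_add hy0]
        simp
      calc Real.exp (l * y) * y ^ k * (Real.exp (-l * y) * y ^ (-k))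
          = (Real.exp (l * y) * Real.exp (-l * y)) * (y ^ k * y ^ (-k)) := by ring
        _ = 1 := by rw [e1, e2, mul_one]
    have hpos : 0 < Real.exp (-l * y) * y ^ (-k) :=
      mul_pos (Real.exp_pos _) (Real.rpow_pos_of_pos hy0 _)
    have h2 : 1 ≤ c₂ * (Real.exp (-l * y) * y ^ (-k)) := by
      rw [← e]
      exact mul_le_mul_of_nonneg_right hy.2 hpos.le
    have h3 : c₂ * (Real.exp (-l * y) * y ^ (-k)) < c₂ * c₂⁻¹ := mul_lt_mul_of_pos_left hy' hc₂
    rw [mul_inv_cancel₀ hc₂.ne'] at h3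
    linarith
  rcases lt_trichotomy l 0 with hl | hl | hl
  · exfalso
    apply key0
    have := tendsto_rpow_mul_exp_neg_mul_atTop_nhds_zero k (-l) (by linarith)
    refine this.congr fun y => ?_
    rw [neg_neg, mul_comm]
  · refine ⟨hl, ?_⟩
    subst hl
    rcases lt_trichotomy k 0 with hk | hk | hk
    · exfalso
      apply key0
      have := tendsto_rpow_neg_atTop (y := -k) (by linarith)
      refine this.congr fun y => ?_
      simp
    · exact hk
    · exfalso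
      apply key1
      have := tendsto_rpow_neg_atTop (y := k) hk
      refine this.congr fun y => ?_
      simp
  · exfalso
    apply key1
    have := tendsto_rpow_mul_exp_neg_mul_atTop_nhds_zero (-k) l hl
    refine this.congr fun y => ?_
    rw [mul_comm]

theorem weight_eq_zero {F : ℍ → ℂ} (hF : MDifferentiable 𝓘(ℂ) 𝓘(ℂ) F) {k : ℝ}
    {Δ : Subgroup SL(2, ℤ)} (hΔ : Δ.FiniteIndex)
    (hmod : ∀ γ ∈ Δ, ∀ τ : ℍ, ‖F (γ • τ)‖ = ‖denom γ τ‖ ^ k * ‖F τ‖)
    (hcusp : ∀ δ : SL(2, ℤ), ∃ C M : ℝ, ∀ τ : ℍ, 1 ≤ τ.im →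
      ‖F (δ • τ)‖ ≤ C * ‖denom δ τ‖ ^ k * Real.exp (M * τ.im))
    {c₁ c₂ ε : ℝ} (hc₁ : 0 < c₁) (hε : 0 < ε)
    (h0 : ∀ τ : ℍ, τ.re = 0 → τ.im ≤ ε → c₁ ≤ ‖F τ‖ ∧ ‖F τ‖ ≤ c₂) : k = 0 := by
  -- the function at the cusp `0`
  set g : ℍ → ℂ := fun τ => F (ModularGroup.S • τ) * Complex.exp (-(k : ℂ) * Complex.log (τ : ℂ))
    with hg
  have hnorm : ∀ τ : ℍ, ‖g τ‖ = ‖F (ModularGroup.S • τ)‖ * ‖(τ : ℂ)‖ ^ (-k) := by
    intro τ
    have hτ : (0 : ℝ) < ‖(τ : ℂ)‖ := norm_pos_iff.2 (UpperHalfPlane.ne_zero τ)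
    simp only [hg, norm_mul]
    congr 1
    rw [Complex.norm_exp, Real.rpow_def_of_pos hτ]
    congr 1
    have e : (-(k : ℂ) * Complex.log (τ : ℂ)).re = -k * (Complex.log (τ : ℂ)).re := by
      rw [← Complex.ofReal_neg, Complex.re_ofReal_mul]
    rw [e, Complex.log_re]
    ring
  have hgd : MDifferentiable 𝓘(ℂ) 𝓘(ℂ) g := by
    have h1 : MDifferentiable 𝓘(ℂ) 𝓘(ℂ) (fun τ : ℍ => F (ModularGroup.S • τ)) := by
      have h2 := UpperHalfPlane.mdifferentiable_smul (g := (ModularGroup.S : GL (Fin 2) ℝ))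
        (by simp)
      exact hF.comp h2
    rw [UpperHalfPlane.mdifferentiable_iff] at h1 ⊢
    have h2 : DifferentiableOn ℂ (fun z : ℂ => Complex.exp (-(k : ℂ) * Complex.log z))
        {z | 0 < z.im} := by
      intro z hz
      have hz' : z ∈ Complex.slitPlane := Or.inr (ne_of_gt hz)
      exact ((Complex.differentiableAt_log hz').const_mul _).cexp.differentiableWithinAt
    refine (h1.mul h2).congr ?_
    intro z hz
    simp only [hg, Function.comp, Pi.mul_apply]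
    rw [ofComplex_apply_of_im_pos hz]
  obtain ⟨N, hN, hNΔ⟩ := exists_period Δ hΔ ModularGroup.S
  have hper : ∀ τ : ℍ, ‖g ((N : ℝ) +ᵥ τ)‖ = ‖g τ‖ := by
    intro τ
    have := norm_period hmod hNΔ τ
    rw [ModularGroup.denom_S, ModularGroup.denom_S] at this
    rw [hnorm, hnorm]
    exact this
  obtain ⟨C, M, hC⟩ := hcusp ModularGroup.S
  have hgr : ∀ τ : ℍ, 1 ≤ τ.im → ‖g τ‖ ≤ C * Real.exp (M * τ.im) := by
    intro τ hτ
    have h1 := hC τ hτ
    rw [ModularGroup.denom_S] at h1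
    have hτ0 : (0 : ℝ) < ‖(τ : ℂ)‖ := norm_pos_iff.2 (UpperHalfPlane.ne_zero τ)
    have e : ‖(τ : ℂ)‖ ^ k * ‖(τ : ℂ)‖ ^ (-k) = 1 := by
      rw [← Real.rpow_add hτ0]
      simp
    rw [hnorm]
    calc ‖F (ModularGroup.S • τ)‖ * ‖(τ : ℂ)‖ ^ (-k)
        ≤ C * ‖(τ : ℂ)‖ ^ k * Real.exp (M * τ.im) * ‖(τ : ℂ)‖ ^ (-k) :=
          mul_le_mul_of_nonneg_right h1 (Real.rpow_nonneg hτ0.le _)
      _ = C * Real.exp (M * τ.im) * (‖(τ : ℂ)‖ ^ k * ‖(τ : ℂ)‖ ^ (-k)) := by ring
      _ = C * Real.exp (M * τ.im) := by rw [e, mul_one]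
  -- the points on the imaginary axis
  have hax : ∀ y : ℝ, ∀ hy : 0 < y, 1 / ε ≤ y →
      c₁ * y ^ (-k) ≤ ‖g ⟨Complex.I * y, by simpa using hy⟩‖ ∧
        ‖g ⟨Complex.I * y, by simpa using hy⟩‖ ≤ c₂ * y ^ (-k) := by
    intro y hy hy'
    have hS : ((ModularGroup.S • (⟨Complex.I * y, by simpa using hy⟩ : ℍ) : ℍ) : ℂ) =
        Complex.I * (y⁻¹ : ℝ) := by
      rw [UpperHalfPlane.modular_S_smul]
      have hy0 : (y : ℂ) ≠ 0 := by exact_mod_cast hy.ne'
      change (-(Complex.I * (y : ℂ)))⁻¹ = Complex.I * (y⁻¹ : ℝ)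
      rw [Complex.ofReal_inv]
      apply inv_eq_of_mul_eq_one_right
      calc -(Complex.I * (y : ℂ)) * (Complex.I * (y : ℂ)⁻¹)
          = -(Complex.I * Complex.I) * ((y : ℂ) * (y : ℂ)⁻¹) := by ring
        _ = 1 := by rw [Complex.I_mul_I, mul_inv_cancel₀ hy0, neg_neg, one_mul]
    have hre : (ModularGroup.S • (⟨Complex.I * y, by simpa using hy⟩ : ℍ) : ℍ).re = 0 := by
      rw [← UpperHalfPlane.coe_re, hS]
      simp
    have him : (ModularGroup.S • (⟨Complex.I * y, by simpa using hy⟩ : ℍ) : ℍ).im ≤ ε := by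
      rw [← UpperHalfPlane.coe_im, hS]
      have h1 : (Complex.I * ((y⁻¹ : ℝ) : ℂ)).im = y⁻¹ := by simp
      rw [h1]
      rw [div_le_iff₀ hε] at hy'
      rw [inv_le_iff_one_le_mul₀ hy]
      linarith
    have h1 := h0 _ hre him
    have h2 : ‖((⟨Complex.I * y, by simpa using hy⟩ : ℍ) : ℂ)‖ = y := by
      change ‖Complex.I * (y : ℂ)‖ = y
      rw [norm_mul, Complex.norm_I, one_mul, Complex.norm_real, Real.norm_of_nonneg hy.le]
    have h3 : 0 ≤ y ^ (-k) := Real.rpow_nonneg hy.le _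
    rw [hnorm, h2]
    exact ⟨mul_le_mul_of_nonneg_right h1.1 h3, mul_le_mul_of_nonneg_right h1.2 h3⟩
  have hne : ∃ τ, g τ ≠ 0 := by
    have hy : (0 : ℝ) < 1 / ε := by positivity
    refine ⟨_, norm_pos_iff.1 (lt_of_lt_of_le ?_ (hax (1 / ε) hy le_rfl).1)⟩
    exact mul_pos hc₁ (Real.rpow_pos_of_pos hy _)
  obtain ⟨l, P, hP, hP0, hgP⟩ := cusp_lemma hgd hne (N := (N : ℝ)) (by exact_mod_cast hN) hper hgr
  have hPc : ContinuousAt P 0 :=
    (hP.differentiableAt (Metric.ball_mem_nhds 0 one_pos)).continuousAt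
  have hN' : (0 : ℝ) < N := by exact_mod_cast hN
  have hq : Tendsto (fun y : ℝ => Function.Periodic.qParam N (Complex.I * y)) atTop (nhds 0) := by
    rw [tendsto_zero_iff_norm_tendsto_zero]
    have h1 : Tendsto (fun y : ℝ => Real.exp (-((2 * Real.pi / N) * y))) atTop (nhds 0) := by
      refine Real.tendsto_exp_neg_atTop_nhds_zero.comp ?_
      exact tendsto_id.const_mul_atTop (by positivity)
    refine h1.congr fun y => ?_
    rw [Function.Periodic.norm_qParam]
    congr 1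
    simp
    ring
  have hPq : Tendsto (fun y : ℝ => ‖P (Function.Periodic.qParam N (Complex.I * y))‖) atTop
      (nhds ‖P 0‖) := (hPc.tendsto.comp hq).norm
  have hP0' : 0 < ‖P 0‖ := norm_pos_iff.2 hP0
  have hlo := hPq.eventually (lt_mem_nhds (show ‖P 0‖ / 2 < ‖P 0‖ by linarith))
  have hhi := hPq.eventually (gt_mem_nhds (show ‖P 0‖ < 2 * ‖P 0‖ by linarith))
  have hc₂ : 0 < c₂ := by
    have hy : (0 : ℝ) < 1 / ε := by positivity
    have h1 := hax (1 / ε) hy le_rfl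
    have h2 : 0 < (1 / ε) ^ (-k) := Real.rpow_pos_of_pos hy _
    have h3 := (mul_pos hc₁ h2).trans_le (h1.1.trans h1.2)
    exact pos_of_mul_pos_left h3 h2.le
  have hfin := exp_pow_aux (l := l) (k := -k) (c₁ := ‖P 0‖ / 2 / c₂) (c₂ := 2 * ‖P 0‖ / c₁)
    (by positivity) (by
      filter_upwards [hlo, hhi, eventually_gt_atTop 0, eventually_ge_atTop (1 / ε)] with y h1 h2
        h3 h4
      have h5 := hax y h3 h4
      have h6 := hgP ⟨Complex.I * y, by simpa using h3⟩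
      have h7 : (⟨Complex.I * y, by simpa using h3⟩ : ℍ).im = y := by
        rw [← UpperHalfPlane.coe_im]
        change (Complex.I * (y : ℂ)).im = y
        simp
      rw [h7] at h6
      rw [h6] at h5
      have h8 : Real.exp (l * y) * Real.exp (-l * y) = 1 := by
        rw [← Real.exp_add]
        simp
      set p := ‖P (Function.Periodic.qParam N (Complex.I * y))‖ with hp
      change c₁ * y ^ (-k) ≤ Real.exp (-l * y) * p ∧ Real.exp (-l * y) * p ≤ c₂ * y ^ (-k) at h5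
      have h9 := mul_le_mul_of_nonneg_left h5.1 (Real.exp_pos (l * y)).le
      have h10 := mul_le_mul_of_nonneg_left h5.2 (Real.exp_pos (l * y)).le
      rw [← mul_assoc (Real.exp (l * y)) (Real.exp (-l * y)) p, h8, one_mul] at h9 h10
      constructor
      · rw [div_le_iff₀ hc₂]
        linarith
      · rw [le_div_iff₀ hc₁]
        linarith)
  linarith [hfin.2]

end H93GS
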